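import Mathlib
import Pool.Agent.MP_2634a8_co.Defs

-- part MP_2634a8_co.Core
section

namespace Pool.Agent.MP_2634a8_co

open Finset

variable {V : Type} [Fintype V] [DecidableEq V]

def E (a b : V) : V → V → ℕ := fun x y => if x = a ∧ y = b then 1 else 0
def out (M : V → V → ℕ) (v : V) : ℕ := ∑ w, M v w
def inn (M : V → V → ℕ) (v : V) : ℕ := ∑ w, M w v
def size (M : V → V → ℕ) : ℕ := ∑ v, out M v
def Bal (M : V → V → ℕ) : Prop := ∀ v, out M v = inn M v
def Pack : ℕ → (V → V → ℕ) → Prop
  | 0, _ => True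
  | t + 1, M => ∃ C N, M = C + N ∧ C ≠ 0 ∧ Bal C ∧ Pack t N
def Simple (M : V → V → ℕ) : Prop := (∀ a b, M a b ≤ 1) ∧ ∀ a, M a a = 0
def Good (M : V → V → ℕ) : Prop := Simple M ∧ Bal M

omit [DecidableEq V] in
lemma out_add (M N : V → V → ℕ) (v : V) : out (M + N) v = out M v + out N v := by
  simp [out, sum_add_distrib]
omit [DecidableEq V] in
lemma inn_add (M N : V → V → ℕ) (v : V) : inn (M + N) v = inn M v + inn N v := by
  simp [inn, sum_add_distrib]
omit [DecidableEq V] in
lemma size_add (M N : V → V → ℕ) : size (M + N) = size M + size N := by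
  simp [size, out_add, sum_add_distrib]
lemma out_E (a b v : V) : out (E a b) v = if v = a then 1 else 0 := by
  by_cases h : v = a <;> simp [out, E, h]
lemma inn_E (a b v : V) : inn (E a b) v = if v = b then 1 else 0 := by
  by_cases h : v = b <;> simp [inn, E, h]
lemma size_E (a b : V) : size (E a b) = 1 := by
  simp [size, out_E]

omit [Fintype V] [DecidableEq V] in
lemma exists_add {W M : V → V → ℕ} (h : ∀ a b, W a b ≤ M a b) : ∃ N, M = N + W :=
  ⟨fun a b => M a b - W a b, by
    funext a b; have := h a b; simp only [Pi.add_apply]; omega⟩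

omit [Fintype V] in
lemma exists_add_E {M : V → V → ℕ} {a b : V} (h : M a b ≠ 0) : ∃ N, M = N + E a b := by
  apply exists_add
  intro x y
  unfold E
  split_ifs with h'
  · obtain ⟨rfl, rfl⟩ := h'; omega
  · omega

omit [DecidableEq V] in
lemma pack_mono : ∀ (t : ℕ) (N K : V → V → ℕ), Pack t N → Pack t (N + K)
  | 0, _, _, _ => trivial
  | t + 1, N, K, ⟨C, N', h1, h2, h3, h4⟩ =>
    ⟨C, N' + K, by rw [h1, add_assoc], h2, h3, pack_mono t N' K h4⟩

omit [DecidableEq V] in
lemma pack_pred : ∀ (t : ℕ) (M : V → V → ℕ), Pack (t + 1) M → Pack t M := by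
  rintro t M ⟨C, N, h1, -, -, h4⟩
  rw [h1, add_comm]; exact pack_mono _ _ _ h4

omit [DecidableEq V] in
lemma pack_le {s t : ℕ} (h : s ≤ t) {M : V → V → ℕ} (hM : Pack t M) : Pack s M := by
  induction h with
  | refl => exact hM
  | step _ ih => exact ih (pack_pred _ _ hM)

lemma pack_split (a v b : V) : ∀ (t : ℕ) (N : V → V → ℕ),
    Pack t (N + E a b) → Pack t (N + (E a v + E v b))
  | 0, _, _ => trivial
  | t + 1, N, ⟨C, N', h1, h2, h3, h4⟩ => by
    by_cases hc : C a b = 0
    · have : N' a b ≠ 0 := by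
        have := congrFun (congrFun h1 a) b
        simp [E, hc] at this; omega
      obtain ⟨N0, rfl⟩ := exists_add_E this
      have h5 : N = C + N0 := by
        rw [← add_assoc] at h1; exact add_right_cancel h1
      exact ⟨C, N0 + (E a v + E v b), by rw [h5, add_assoc], h2, h3, pack_split a v b t N0 h4⟩
    · obtain ⟨C0, rfl⟩ := exists_add_E hc
      have h5 : N = C0 + N' := by
        rw [add_right_comm] at h1; exact add_right_cancel h1
      refine ⟨C0 + (E a v + E v b), N', by rw [h5, add_right_comm], ?_, ?_, h4⟩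
      · intro h
        have := congrFun (congrFun h a) v
        simp [E] at this
      · intro u
        have := h3 u
        simp only [out_add, inn_add, out_E, inn_E] at this ⊢
        omega

lemma pack_loop (p : V) (t : ℕ) (N : V → V → ℕ) (h : Pack t N) : Pack (t + 1) (N + E p p) := by
  refine ⟨E p p, N, add_comm _ _, ?_, ?_, h⟩
  · intro h
    have := congrFun (congrFun h p) p
    simp [E] at this
  · intro u; rw [out_E, inn_E]

/-- `M` reduces to `M'` with net cost at most `c`. -/
def Red (M M' : V → V → ℕ) (c : ℕ) : Prop :=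
  Good M' ∧ (∀ u, out M' u ≤ out M u) ∧
    ∃ g, (∀ t, Pack t M' → Pack (t + g) M) ∧ size M ≤ size M' + g + c

omit [DecidableEq V] in
lemma Red.refl {M : V → V → ℕ} (h : Good M) (c : ℕ) : Red M M c :=
  ⟨h, fun _ => le_rfl, 0, fun _ h => h, by omega⟩

omit [DecidableEq V] in
lemma Red.trans {M M' M'' : V → V → ℕ} {c c' d : ℕ} (h : Red M M' c) (h' : Red M' M'' c')
    (hd : c + c' ≤ d) : Red M M'' d := by
  obtain ⟨-, h2, g, h3, h4⟩ := h
  obtain ⟨h1', h2', g', h3', h4'⟩ := h'
  refine ⟨h1', fun u => (h2' u).trans (h2 u), g' + g, fun t ht => ?_, by omega⟩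
  rw [← add_assoc]; exact h3 _ (h3' _ ht)

lemma reroute {M N Wk : V → V → ℕ} {p s : V} {c : ℕ} (hM : Good M) (hN : M = N + Wk)
    (hW : ∀ t, Pack t (N + E p s) → Pack t (N + Wk))
    (hbal : ∀ u, out Wk u + inn (E p s) u = inn Wk u + out (E p s) u)
    (hge : ∀ u, out (E p s) u ≤ out Wk u) (hps : p = s ∨ M p s = 0) (hsz : size Wk ≤ c + 1) :
    ∃ M', Red M M' c ∧ (∀ u, out M' u + out Wk u ≤ out M u + out (E p s) u) ∧
      (∀ x y, N x y ≤ M' x y) ∧ (∀ x y, M' x y ≤ N x y + E p s x y) := by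
  have hle : ∀ x y, N x y ≤ M x y := fun x y => by rw [hN]; simp
  have hout : ∀ u, out M u = out N u + out Wk u := fun u => by rw [hN, out_add]
  have hinn : ∀ u, inn M u = inn N u + inn Wk u := fun u => by rw [hN, inn_add]
  have hsize : size M = size N + size Wk := by rw [hN, size_add]
  by_cases h : p = s
  · subst h
    refine ⟨N, ⟨⟨⟨fun a b => (hle a b).trans (hM.1.1 a b), fun a => ?_⟩, fun u => ?_⟩,
      fun u => by rw [hout]; omega, 1, fun t ht => ?_, by omega⟩,
      fun u => by rw [hout]; omega, fun _ _ => le_rfl, fun _ _ => by omega⟩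
    · have := hle a a; have := hM.1.2 a; omega
    · have h1 := hM.2 u; have h2 := hbal u
      rw [hout, hinn] at h1; rw [out_E, inn_E] at h2; omega
    · rw [hN]; exact hW _ (pack_loop p t N ht)
  · have h0 : M p s = 0 := hps.resolve_left h
    refine ⟨N + E p s, ⟨⟨⟨fun a b => ?_, fun a => ?_⟩, fun u => ?_⟩,
      fun u => ?_, 0, fun t ht => ?_, ?_⟩,
      fun u => by rw [hout, out_add]; omega, fun _ _ => by simp, fun _ _ => by simp⟩
    · have := hle a b; have := hM.1.1 a b
      simp only [Pi.add_apply, E]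
      split_ifs with h'
      · obtain ⟨rfl, rfl⟩ := h'; omega
      · omega
    · have := hle a a; have := hM.1.2 a
      simp only [Pi.add_apply, E]
      split_ifs with h'
      · obtain ⟨rfl, rfl⟩ := h'; exact absurd rfl h
      · omega
    · have h1 := hM.2 u; have h2 := hbal u
      rw [hout, hinn] at h1; rw [out_add, inn_add]; omega
    · have := hge u
      rw [hout, out_add]; omega
    · rw [hN]; exact hW _ ht
    · rw [size_add, size_E]; omega

lemma path2 {M : V → V → ℕ} (hM : Good M) {a v b : V} (h1 : M a v ≠ 0) (h2 : M v b ≠ 0)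
    (hab : a = b ∨ M a b = 0) :
    ∃ M', Red M M' 1 ∧ out M' v + 1 ≤ out M v ∧
      (∀ x y, M x y ≤ M' x y + (E a v x y + E v b x y)) ∧
      (∀ x y, M' x y ≤ M x y + E a b x y) := by
  have hav : a ≠ v := by rintro rfl; exact h1 (hM.1.2 _)
  obtain ⟨N, hN⟩ : ∃ N, M = N + (E a v + E v b) := by
    apply exists_add
    intro x y
    simp only [Pi.add_apply, E]
    split_ifs with h h' h' <;> first | omega | (obtain ⟨rfl, rfl⟩ := h'; first | omega | tauto) |
      (obtain ⟨rfl, rfl⟩ := h; omega)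
  obtain ⟨M', r1, r2, r3, r4⟩ := reroute (c := 1) hM hN (fun t => pack_split a v b t N)
    (fun u => by simp only [out_add, inn_add, out_E, inn_E]; omega)
    (fun u => by simp only [out_add, out_E]; omega) hab
    (by rw [size_add, size_E, size_E])
  refine ⟨M', r1, ?_, fun x y => ?_, fun x y => ?_⟩
  · have := r2 v
    simp only [out_add, out_E, if_true] at this; omega
  · have := r3 x y
    rw [hN]; simp only [Pi.add_apply]; omega
  · have := r4 x y
    rw [hN]; simp only [Pi.add_apply]; omega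

lemma path3 {M : V → V → ℕ} (hM : Good M) {p q r s : V} (h1 : M p q ≠ 0) (h2 : M q r ≠ 0)
    (h3 : M r s ≠ 0) (hpr : p ≠ r ∨ q ≠ s) (hps : p = s ∨ M p s = 0) :
    ∃ M', Red M M' 2 ∧ out M' q + 1 ≤ out M q ∧ out M' r + 1 ≤ out M r := by
  have hpq : p ≠ q := by rintro rfl; exact h1 (hM.1.2 _)
  have hqr : q ≠ r := by rintro rfl; exact h2 (hM.1.2 _)
  obtain ⟨N, hN⟩ : ∃ N, M = N + (E r s + (E p q + E q r)) := by
    apply exists_add
    intro x y
    simp only [Pi.add_apply, E]
    by_cases c1 : x = r ∧ y = s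
    · obtain ⟨rfl, rfl⟩ := c1
      rw [if_pos ⟨rfl, rfl⟩, if_neg (by tauto), if_neg (by tauto)]; omega
    · by_cases c2 : x = p ∧ y = q
      · obtain ⟨rfl, rfl⟩ := c2
        rw [if_neg c1, if_pos ⟨rfl, rfl⟩, if_neg (by tauto)]; omega
      · by_cases c3 : x = q ∧ y = r
        · obtain ⟨rfl, rfl⟩ := c3
          rw [if_neg c1, if_neg c2, if_pos ⟨rfl, rfl⟩]; omega
        · rw [if_neg c1, if_neg c2, if_neg c3]; omega
  obtain ⟨M', r1, r2, -, -⟩ := reroute (c := 2) (p := p) (s := s) hM hN
    (fun t ht => by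
      have h4 := pack_split p r s t N ht
      rw [add_comm (E p r), ← add_assoc] at h4
      have h5 := pack_split p q r t _ h4
      rwa [add_assoc] at h5)
    (fun u => by simp only [out_add, inn_add, out_E, inn_E]; omega)
    (fun u => by simp only [out_add, out_E]; omega) hps
    (by rw [size_add, size_add, size_E, size_E, size_E])
  refine ⟨M', r1, ?_, ?_⟩
  · have := r2 q
    simp only [out_add, out_E, if_true] at this; omega
  · have := r2 r
    simp only [out_add, out_E, if_true] at this; omega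

omit [DecidableEq V] in
lemma exists_out {M : V → V → ℕ} {v : V} (h : out M v ≠ 0) : ∃ b, M v b ≠ 0 := by
  by_contra hc; push Not at hc; exact h (by simp [out, hc])
omit [DecidableEq V] in
lemma exists_inn {M : V → V → ℕ} {v : V} (h : inn M v ≠ 0) : ∃ a, M a v ≠ 0 := by
  by_contra hc; push Not at hc; exact h (by simp [inn, hc])

lemma lemmaE {M : V → V → ℕ} (hM : Good M) {v : V} (hv : out M v ≠ 0) :
    ∃ M', Red M M' 2 ∧ out M' v + 1 ≤ out M v := by
  obtain ⟨b, hb⟩ := exists_out hv
  obtain ⟨a, ha⟩ := exists_inn (M := M) (v := v) (by rw [← hM.2]; exact hv)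
  by_cases hab : a = b ∨ M a b = 0
  · obtain ⟨M', r1, r2, -⟩ := path2 hM ha hb hab
    exact ⟨M', r1.trans (Red.refl r1.1 0) (by omega), r2⟩
  push Not at hab
  by_cases c1 : ∃ e, M b e ≠ 0 ∧ M a e = 0
  · obtain ⟨e, he1, he2⟩ := c1
    obtain ⟨M', r1, r2, -⟩ := path3 hM ha hb he1 (Or.inl hab.1) (Or.inr he2)
    exact ⟨M', r1, r2⟩
  by_cases c2 : ∃ e, M e a ≠ 0 ∧ M e b = 0
  · obtain ⟨e, he1, he2⟩ := c2
    obtain ⟨M', r1, -, r2⟩ := path3 hM he1 ha hb (Or.inr hab.1) (Or.inr he2)
    exact ⟨M', r1, r2⟩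
  exfalso
  push Not at c1 c2
  have l1 : out M b < out M a := by
    apply sum_lt_sum
    · intro e _
      have := c1 e; have := hM.1.1 b e; omega
    · exact ⟨b, mem_univ _, by have := hM.1.2 b; omega⟩
  have l2 : inn M a < inn M b := by
    apply sum_lt_sum
    · intro e _
      have := c2 e; have := hM.1.1 e a; omega
    · exact ⟨a, mem_univ _, by have := hM.1.2 a; omega⟩
  have := hM.2 a; have := hM.2 b; omega

lemma elim (v : V) : ∀ (y : ℕ) (M : V → V → ℕ), Good M → out M v ≤ y →
    ∃ M', Red M M' (2 * y) ∧ out M' v = 0 := by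
  intro y
  induction y with
  | zero => intro M hM h; exact ⟨M, Red.refl hM _, by omega⟩
  | succ y ih =>
    intro M hM h
    by_cases hv : out M v = 0
    · exact ⟨M, Red.refl hM _, hv⟩
    obtain ⟨M', r1, r2⟩ := lemmaE hM hv
    obtain ⟨M'', s1, s2⟩ := ih M' r1.1 (by omega)
    exact ⟨M'', r1.trans s1 (by omega), s2⟩

end Pool.Agent.MP_2634a8_co

end

-- part MP_2634a8_co.Cyc
section

namespace Pool.Agent.MP_2634a8_co

open Finset

variable {V : Type} [Fintype V] [DecidableEq V]

omit [DecidableEq V] in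
lemma exists_cycle (G : Digraph V) {C : V → V → ℕ} (h0 : C ≠ 0) (hb : Bal C)
    (hl : ∀ a, C a a = 0) (hG : ∀ a b, C a b ≠ 0 → G.Adj a b) :
    ∃ c : DiCycle G, ∀ e ∈ c.arcs, C e.1 e.2 ≠ 0 := by
  classical
  have step : ∀ u : {u // out C u ≠ 0}, ∃ w : {u // out C u ≠ 0}, C u.1 w.1 ≠ 0 := by
    rintro ⟨u, hu⟩
    obtain ⟨b, hb'⟩ := exists_out hu
    refine ⟨⟨b, ?_⟩, hb'⟩
    rw [hb b]
    intro h
    exact hb' (sum_eq_zero_iff.1 h u (mem_univ u))
  choose f hf using step
  obtain ⟨a, ha⟩ : ∃ a, out C a ≠ 0 := by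
    by_contra hc
    push Not at hc
    apply h0
    funext a b
    exact sum_eq_zero_iff.1 (hc a) b (mem_univ b)
  obtain ⟨p, hp⟩ : ∃ p, p ∈ Function.periodicPts f := by
    obtain ⟨i, j, hij, h⟩ := Finite.exists_ne_map_eq_of_infinite (fun n : ℕ => f^[n] ⟨a, ha⟩)
    wlog hlt : i < j generalizing i j
    · exact this j i hij.symm h.symm (by omega)
    refine ⟨f^[i] ⟨a, ha⟩, j - i, by omega, ?_⟩
    show f^[j - i] (f^[i] ⟨a, ha⟩) = f^[i] ⟨a, ha⟩
    rw [← Function.iterate_add_apply, Nat.sub_add_cancel hlt.le]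
    exact h.symm
  have hpos := Function.minimalPeriod_pos_of_mem_periodicPts hp
  have h2 : 2 ≤ Function.minimalPeriod f p := by
    by_contra hc
    have h1 : Function.minimalPeriod f p = 1 := by omega
    rw [Function.minimalPeriod_eq_one_iff_isFixedPt] at h1
    have := hf p
    rw [h1] at this
    exact this (hl _)
  have : NeZero (Function.minimalPeriod f p) := ⟨by omega⟩
  have : Fact (1 < Function.minimalPeriod f p) := ⟨by omega⟩
  have hs : ∀ i : ZMod (Function.minimalPeriod f p), f^[(i + 1).val] p = f (f^[i.val] p) := by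
    intro i
    rw [ZMod.val_add, ZMod.val_one, Function.iterate_mod_minimalPeriod_eq,
      Function.iterate_succ_apply']
  refine ⟨⟨Function.minimalPeriod f p, h2, fun i => (f^[i.val] p).1, ?_, ?_⟩, ?_⟩
  · intro i j h
    apply ZMod.val_injective
    exact Function.iterate_injOn_Iio_minimalPeriod (ZMod.val_lt i) (ZMod.val_lt j)
      (Subtype.ext h)
  · intro i
    simp only [hs]
    exact hG _ _ (hf _)
  · rintro e ⟨i, rfl⟩
    simp only [hs]
    exact hf _

omit [DecidableEq V] in
lemma pack_cycles (G : Digraph V) : ∀ (t : ℕ) (M : V → V → ℕ), Simple M →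
    (∀ a b, M a b ≠ 0 → G.Adj a b) → Pack t M →
    ∃ c : Fin t → DiCycle G, (∀ i, ∀ e ∈ (c i).arcs, M e.1 e.2 ≠ 0) ∧
      Pairwise fun i j => Disjoint (c i).arcs (c j).arcs := by
  intro t
  induction t with
  | zero => intro M _ _ _; exact ⟨Fin.elim0, fun i => i.elim0, fun i => i.elim0⟩
  | succ t ih =>
    rintro M hM hG ⟨C, N, h1, h2, h3, h4⟩
    have hadd : ∀ a b, M a b = C a b + N a b := fun a b => by rw [h1]; rfl
    obtain ⟨c0, hc0⟩ := exists_cycle G h2 h3
      (fun a => by have := hadd a a; have := hM.2 a; omega)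
      (fun a b h => hG a b (by have := hadd a b; omega))
    obtain ⟨c, hc, hd⟩ := ih N
      ⟨fun a b => by have := hadd a b; have := hM.1 a b; omega,
        fun a => by have := hadd a a; have := hM.2 a; omega⟩
      (fun a b h => hG a b (by have := hadd a b; omega)) h4
    have hdis : ∀ i, Disjoint c0.arcs (c i).arcs := by
      intro i
      rw [Set.disjoint_left]
      intro e he he'
      have := hc0 e he; have := hc i e he'; have := hadd e.1 e.2; have := hM.1 e.1 e.2
      omega
    refine ⟨Fin.cons c0 c, ?_, ?_⟩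
    · intro i
      refine Fin.cases ?_ (fun i => ?_) i
      · intro e he
        have := hc0 e he; have := hadd e.1 e.2; omega
      · intro e he
        have := hc i e he; have := hadd e.1 e.2; omega
    · intro i j
      refine Fin.cases ?_ (fun i => ?_) i <;> refine Fin.cases ?_ (fun j => ?_) j
      · intro h; exact absurd rfl h
      · intro _; exact hdis j
      · intro _; exact (hdis i).symm
      · intro h
        exact hd (fun h' : i = j => h (congrArg Fin.succ h'))

/-- Transfer of a packing bound from matrices to regular digraphs. -/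
lemma transfer {V : Type} [Finite V] (G : Digraph V) (k : ℕ) (hG : IsRegularDigraph G k)
    (P : ℕ → Prop)
    (h : ∀ [Fintype V] [DecidableEq V] (M : V → V → ℕ), Good M → (∀ u, out M u = k) →
      ∃ t, Pack t M ∧ P t) : ∃ t, P t ∧ HasArcDisjointCycles G t := by
  classical
  let := Fintype.ofFinite V
  set M : V → V → ℕ := fun a b => if G.Adj a b then 1 else 0 with hM
  have ho : ∀ u, out M u = k := by
    intro u
    rw [← hG.2.1 u, Set.ncard_eq_toFinset_card']
    simp [out, hM]
  have hi : ∀ u, inn M u = k := by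
    intro u
    rw [← hG.2.2 u, Set.ncard_eq_toFinset_card']
    simp [inn, hM]
  have hS : Simple M := ⟨fun a b => by simp only [hM]; split_ifs <;> omega,
    fun a => by simp [hM, hG.1 a]⟩
  obtain ⟨t, h1, h2⟩ := h M ⟨hS, fun u => by rw [ho, hi]⟩ ho
  obtain ⟨c, -, hc⟩ := pack_cycles G t M hS (fun a b hab => by
    by_contra hc; simp [hM, hc] at hab) h1
  exact ⟨t, h2, c, hc⟩

lemma supp_left {M : V → V → ℕ} {W : Finset V} (hW : ∀ u, u ∉ W → out M u = 0)
    {a b : V} (h : M a b ≠ 0) : a ∈ W := by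
  by_contra hc
  exact h (sum_eq_zero_iff.1 (hW a hc) b (mem_univ b))

lemma supp_right {M : V → V → ℕ} (hM : Bal M) {W : Finset V} (hW : ∀ u, u ∉ W → out M u = 0)
    {a b : V} (h : M a b ≠ 0) : b ∈ W := by
  by_contra hc
  have := hW b hc
  rw [hM b] at this
  exact h (sum_eq_zero_iff.1 this a (mem_univ a))

lemma out_eq_sum {M : V → V → ℕ} (hM : Bal M) {W : Finset V} (hW : ∀ u, u ∉ W → out M u = 0)
    (u : V) : out M u = ∑ w ∈ W, M u w := by
  symm
  apply sum_subset (subset_univ _)
  intro w _ hw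
  by_contra hc
  exact hw (supp_right hM hW hc)

lemma out_lt_card {M : V → V → ℕ} (hM : Good M) {W : Finset V}
    (hW : ∀ u, u ∉ W → out M u = 0) {u : V} (hu : u ∈ W) : out M u + 1 ≤ W.card := by
  rw [out_eq_sum hM.2 hW, ← sum_erase_add _ _ hu, hM.1.2 u, ← card_erase_add_one hu]
  have : ∑ w ∈ W.erase u, M u w ≤ ∑ w ∈ W.erase u, 1 := sum_le_sum fun w _ => hM.1.1 u w
  simp only [sum_const, smul_eq_mul, mul_one] at this
  omega

omit [DecidableEq V] in
lemma size_eq_sum {M : V → V → ℕ} {W : Finset V} (hW : ∀ u, u ∉ W → out M u = 0) :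
    size M = ∑ u ∈ W, out M u := by
  symm
  exact sum_subset (subset_univ _) fun u _ hu => hW u hu

end Pool.Agent.MP_2634a8_co

end
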