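import Mathlib
import Pool.Agent.MP_2634a8_co.Mg.Cyc

-- part MP_2634a8_co.Blocked
section

namespace Pool.Agent.MP_2634a8_co

open Finset

/-- A digraph with degrees at most `j` in which every vertex of `P` is blocked. -/
structure Blk (α : Type) (j : ℕ) where
  No : α → Finset α
  Ni : α → Finset α
  X : α → Finset α
  Y : α → Finset α
  P : α → Prop
  dual : ∀ a b, b ∈ No a ↔ a ∈ Ni b
  irr : ∀ a, a ∉ No a
  cl : ∀ a b, b ∈ No a → P a ∧ P b
  ho : ∀ a, (No a).card ≤ j
  hi : ∀ a, (Ni a).card ≤ j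
  hX : ∀ v, P v → X v ⊆ Ni v
  hY : ∀ v, P v → Y v ⊆ No v
  hXY : ∀ v, P v → ∀ a ∈ X v, ∀ b ∈ Y v, b ∈ No a
  hc : ∀ v, P v → j + 1 ≤ (X v).card + (Y v).card

namespace Blk

variable {α : Type} [DecidableEq α] {j : ℕ} (B : Blk α j)

def rev : Blk α j where
  No := B.Ni
  Ni := B.No
  X := B.Y
  Y := B.X
  P := B.P
  dual a b := (B.dual b a).symm
  irr a h := B.irr a ((B.dual a a).2 h)
  cl a b h := (B.cl b a ((B.dual b a).2 h)).symm
  ho := B.hi
  hi := B.ho
  hX := B.hY
  hY := B.hX
  hXY v hv a ha b hb := (B.dual b a).1 (B.hXY v hv b hb a ha)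
  hc v hv := by have := B.hc v hv; omega

omit [DecidableEq α] in
lemma arcX {v a : α} (hv : B.P v) (ha : a ∈ B.X v) : v ∈ B.No a := (B.dual a v).2 (B.hX v hv ha)

omit [DecidableEq α] in
lemma notY {v : α} (hv : B.P v) : v ∉ B.Y v := fun h => B.irr v (B.hY v hv h)

omit [DecidableEq α] in
lemma notX {v : α} (hv : B.P v) : v ∉ B.X v := fun h => B.irr v (B.arcX hv h)

omit [DecidableEq α] in
lemma PX {v a : α} (hv : B.P v) (ha : a ∈ B.X v) : B.P a := (B.cl a v (B.arcX hv ha)).1

lemma ins_out {v a : α} (hv : B.P v) (ha : a ∈ B.X v) : insert v (B.Y v) ⊆ B.No a := by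
  intro b hb
  rcases mem_insert.1 hb with rfl | hb
  · exact B.arcX hv ha
  · exact B.hXY v hv a ha b hb

lemma t_le {v : α} (hv : B.P v) : (B.Y v).card + 1 ≤ j := by
  have h1 := (card_le_card (B.hY v hv)).trans (B.ho v)
  have h2 := B.hc v hv
  obtain ⟨a, ha⟩ : (B.X v).Nonempty := card_pos.1 (by omega)
  have h3 := (card_le_card (B.ins_out hv ha)).trans (B.ho a)
  rwa [card_insert_of_notMem (B.notY hv)] at h3

lemma s_le {v : α} (hv : B.P v) : (B.X v).card + 1 ≤ j := B.rev.t_le hv

lemma twin {v a : α} (hv : B.P v) (ht : (B.Y v).card + 1 = j) (ha : a ∈ B.X v) :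
    B.No a = insert v (B.Y v) := by
  symm
  apply eq_of_subset_of_card_le (B.ins_out hv ha)
  rw [card_insert_of_notMem (B.notY hv), ht]; exact B.ho a

lemma lemA {v : α} (hv : B.P v) (ht : (B.Y v).card + 1 = j) :
    ∃ w w', w ∈ B.X v ∧ w' ∈ B.X v ∧ w ≠ w' ∧ v ∉ B.X w := by
  have h2 := B.hc v hv
  obtain ⟨x, hx, x', hx', hne⟩ := one_lt_card.1 (show 1 < (B.X v).card by omega)
  by_cases c1 : v ∈ B.X x
  · by_cases c2 : v ∈ B.X x'
    · exfalso
      have a1 := B.arcX (B.PX hv hx) c1
      have a2 := B.arcX (B.PX hv hx') c2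
      have n1 : x ∉ B.Y v := fun h => B.irr x (B.hXY v hv x hx x h)
      have n2 : x' ∉ B.Y v := fun h => B.irr x' (B.hXY v hv x' hx' x' h)
      have : insert x (insert x' (B.Y v)) ⊆ B.No v :=
        insert_subset a1 (insert_subset a2 (B.hY v hv))
      have h3 := (card_le_card this).trans (B.ho v)
      rw [card_insert_of_notMem (by simp [hne, n1]), card_insert_of_notMem n2] at h3
      omega
    · exact ⟨x', x, hx', hx, hne.symm, c2⟩
  · exact ⟨x, x', hx, hx', hne, c1⟩

lemma lemB {v w w' : α} (hv : B.P v) (ht : (B.Y v).card + 1 = j) (hw : w ∈ B.X v)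
    (hw' : w' ∈ B.X v) (hne : w ≠ w') (hvw : v ∉ B.X w) :
    (insert w (insert w' (insert v (B.X w)))).card = (B.X w).card + 3 ∧ w' ∉ B.X w ∧
    ∀ y ∈ B.Y w, y ≠ v → y ∈ B.Y v ∧ insert w (insert w' (insert v (B.X w))) ⊆ B.Ni y := by
  have pw := B.PX hv hw
  have n1 : w' ∉ B.X w := by
    intro h
    have := B.arcX pw h
    rw [B.twin hv ht hw', ← B.twin hv ht hw] at this
    exact B.irr w this
  have n2 : w ≠ v := by rintro rfl; exact B.notX hv hw
  have n3 : w' ≠ v := by rintro rfl; exact B.notX hv hw'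
  refine ⟨?_, n1, fun y hy hyv => ?_⟩
  · rw [card_insert_of_notMem (by simp [hne, n2, B.notX pw]),
      card_insert_of_notMem (by simp [n1, n3]), card_insert_of_notMem hvw]
  · have h1 := B.hY w pw hy
    have h2 : y ∈ B.Y v := by
      rw [B.twin hv ht hw] at h1
      exact (mem_insert.1 h1).resolve_left hyv
    refine ⟨h2, insert_subset ((B.dual _ _).1 h1) (insert_subset
      ((B.dual _ _).1 (B.hXY v hv w' hw' y h2)) (insert_subset
      ((B.dual _ _).1 (B.hY v hv h2)) fun a ha => (B.dual _ _).1 (B.hXY w pw a ha y hy)))⟩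

lemma lemC {v w w' : α} (hv : B.P v) (ht : (B.Y v).card + 1 = j) (hw : w ∈ B.X v)
    (hw' : w' ∈ B.X v) (hne : w ≠ w') (hvw : v ∉ B.X w) : (B.X w).card + 3 ≤ j := by
  obtain ⟨b1, -, b2⟩ := B.lemB hv ht hw hw' hne hvw
  have pw := B.PX hv hw
  have h1 := B.hc w pw
  have h2 := B.s_le pw
  obtain ⟨y, hy, hyv⟩ := exists_mem_ne (show 1 < (B.Y w).card by omega) v
  rw [← b1]
  exact (card_le_card (b2 y hy hyv).2).trans (B.hi y)

lemma claim1 (hj : j ≤ 5) {v : α} (hv : B.P v) : (B.Y v).card + 2 ≤ j := by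
  by_contra hc
  have ht : (B.Y v).card + 1 = j := by have := B.t_le hv; omega
  obtain ⟨w, w', hw, hw', hne, hvw⟩ := B.lemA hv ht
  have pw := B.PX hv hw
  have c1 := B.lemC hv ht hw hw' hne hvw
  have h1 := B.hc w pw
  have h2 := B.t_le pw
  have ht' : (B.Y w).card + 1 = j := by omega
  obtain ⟨u, u', hu, hu', hne', hwu⟩ := B.lemA pw ht'
  have pu := B.PX pw hu
  have c2 := B.lemC pw ht' hu hu' hne' hwu
  have h3 := B.hc u pu
  have h4 := B.t_le pu
  have ht'' : (B.Y u).card + 1 = j := by omega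
  obtain ⟨b1, b0, b2⟩ := B.lemB hv ht hw hw' hne hvw
  obtain ⟨d1, d0, d2⟩ := B.lemB pw ht' hu hu' hne' hwu
  obtain ⟨y, hy⟩ : (((B.Y u).erase w).erase v).Nonempty := by
    apply card_pos.1
    have := pred_card_le_card_erase (s := B.Y u) (a := w)
    have := pred_card_le_card_erase (s := (B.Y u).erase w) (a := v)
    omega
  obtain ⟨hyv, hy⟩ := mem_erase.1 hy
  obtain ⟨hyw, hy⟩ := mem_erase.1 hy
  obtain ⟨e1, e2⟩ := d2 y hy hyw
  obtain ⟨-, e3⟩ := b2 y e1 hyv
  have f1 : insert w (insert w' (insert v (B.X w))) = B.Ni y :=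
    eq_of_subset_of_card_le e3 (by have := B.hi y; omega)
  have f2 : insert u (insert u' (insert w (B.X u))) = B.Ni y :=
    eq_of_subset_of_card_le e2 (by have := B.hi y; omega)
  have g1 : w' ∈ B.X u := by
    have : w' ∈ insert u (insert u' (insert w (B.X u))) := by rw [f2, ← f1]; simp
    simp only [mem_insert] at this
    rcases this with rfl | rfl | rfl | h
    · exact absurd hu b0
    · exact absurd hu' b0
    · exact absurd rfl hne
    · exact h
  have g2 : v ∈ B.X u := by
    have : v ∈ insert u (insert u' (insert w (B.X u))) := by rw [f2, ← f1]; simp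
    simp only [mem_insert] at this
    rcases this with rfl | rfl | rfl | h
    · exact absurd hu hvw
    · exact absurd hu' hvw
    · exact absurd hw (B.notX hv)
    · exact h
  have := B.arcX hv hw'
  rw [B.twin pu ht'' g1, ← B.twin pu ht'' g2] at this
  exact B.irr v this

theorem no_blk (hj : j ≤ 5) {v : α} (hv : B.P v) : False := by
  have hY : ∀ u, B.P u → (B.Y u).card = 3 ∧ (B.X u).card = 3 ∧ j = 5 := by
    intro u hu
    have h1 := B.claim1 hj hu
    have h2 : (B.X u).card + 2 ≤ j := B.rev.claim1 hj hu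
    have h3 := B.hc u hu
    omega
  obtain ⟨t3, s3, rfl⟩ := hY v hv
  set Z := insert v (B.X v) with hZ
  have hZc : Z.card = 4 := by rw [hZ, card_insert_of_notMem (B.notX hv), s3]
  have dem : ∀ x ∈ B.X v, 2 ≤ (Z.filter fun z => x ∈ B.No z).card := by
    intro x hx
    have px := B.PX hv hx
    obtain ⟨tx, sx, -⟩ := hY x px
    obtain ⟨y, hy1, hy2⟩ : ∃ y, y ∈ B.Y x ∧ y ∈ B.Y v := by
      by_contra hc
      push Not at hc
      have h1 : B.Y x ∪ B.Y v ⊆ B.No x :=
        union_subset (B.hY x px) fun b hb => B.hXY v hv x hx b hb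
      have h2 := (card_le_card h1).trans (B.ho x)
      rw [card_union_of_disjoint (disjoint_left.2 hc)] at h2
      omega
    have h1 : B.X x ∪ Z ⊆ B.Ni y :=
      union_subset (fun a ha => (B.dual _ _).1 (B.hXY x px a ha y hy1)) (B.rev.ins_out hv hy2)
    have h2 := (card_le_card h1).trans (B.hi y)
    have h3 := card_union_add_card_inter (B.X x) Z
    have h4 : B.X x ∩ Z ⊆ Z.filter fun z => x ∈ B.No z := fun z hz =>
      mem_filter.2 ⟨(mem_inter.1 hz).2, B.arcX px (mem_inter.1 hz).1⟩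
    have := card_le_card h4
    omega
  have disj : Disjoint (B.X v) (B.Y v) :=
    disjoint_left.2 fun a ha hb => B.irr a (B.hXY v hv a ha a hb)
  have sup1 : ∀ z ∈ B.X v, ((B.X v).filter fun x => x ∈ B.No z).card ≤ 1 := by
    intro z hz
    have h1 : ((B.X v).filter fun x => x ∈ B.No z) ∪ insert v (B.Y v) ⊆ B.No z :=
      union_subset (fun a ha => (mem_filter.1 ha).2) (B.ins_out hv hz)
    have h2 := (card_le_card h1).trans (B.ho z)
    rw [card_union_of_disjoint, card_insert_of_notMem (B.notY hv)] at h2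
    · omega
    · rw [disjoint_insert_right]
      exact ⟨fun h => B.notX hv (mem_filter.1 h).1, disj.mono_left (filter_subset _ _)⟩
  have sup2 : ((B.X v).filter fun x => x ∈ B.No v).card ≤ 2 := by
    have h1 : ((B.X v).filter fun x => x ∈ B.No v) ∪ B.Y v ⊆ B.No v :=
      union_subset (fun a ha => (mem_filter.1 ha).2) (B.hY v hv)
    have h2 := (card_le_card h1).trans (B.ho v)
    rw [card_union_of_disjoint (disj.mono_left (filter_subset _ _))] at h2
    omega
  have dc : ∑ x ∈ B.X v, (Z.filter fun z => x ∈ B.No z).card =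
      ∑ z ∈ Z, ((B.X v).filter fun x => x ∈ B.No z).card := by
    simp only [card_filter]; exact sum_comm
  have l1 := card_nsmul_le_sum _ _ _ dem
  have l2 := sum_le_card_nsmul _ _ _ sup1
  rw [dc, hZ, sum_insert (B.notX hv)] at l1
  rw [s3] at l1 l2
  simp only [smul_eq_mul] at l1 l2
  omega

end Blk

end Pool.Agent.MP_2634a8_co

end

-- part MP_2634a8_co.Exact
section

namespace Pool.Agent.MP_2634a8_co

open Finset

variable {V : Type} [Fintype V] [DecidableEq V]

def QB (V : Type) (j : ℕ) : Prop := ∀ (B : Blk V j) (v : V), ¬ B.P v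

omit [DecidableEq V] in
lemma card_out {M : V → V → ℕ} (hM : Simple M) (a : V) :
    (univ.filter fun b => M a b ≠ 0).card = out M a := by
  rw [card_filter, out]
  apply sum_congr rfl
  intro b _
  have := hM.1 a b
  split_ifs <;> omega

omit [DecidableEq V] in
lemma card_inn {M : V → V → ℕ} (hM : Simple M) (a : V) :
    (univ.filter fun b => M b a ≠ 0).card = inn M a := by
  rw [card_filter, inn]
  apply sum_congr rfl
  intro b _
  have := hM.1 b a
  split_ifs <;> omega

lemma exists_unblocked {k : ℕ} (hq : QB V k) {M : V → V → ℕ} (hM : Good M) {W : Finset V}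
    (hne : W.Nonempty) (hd : ∀ u, out M u ≤ k) (hW : ∀ u, u ∉ W → out M u = 0) :
    ∃ v ∈ W, ∀ X Y : Finset V, (∀ a ∈ X, M a v ≠ 0) → (∀ b ∈ Y, M v b ≠ 0) →
      (∀ a ∈ X, ∀ b ∈ Y, M a b ≠ 0) → X.card + Y.card ≤ k := by
  by_contra hc
  push Not at hc
  choose! X Y h1 h2 h3 h4 using hc
  obtain ⟨v, hv⟩ := hne
  refine hq
    { No := fun a => univ.filter fun b => M a b ≠ 0
      Ni := fun a => univ.filter fun b => M b a ≠ 0
      X := X
      Y := Y
      P := fun v => v ∈ W
      dual := by simp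
      irr := fun a => by simp [hM.1.2 a]
      cl := fun a b h => ⟨supp_left hW (mem_filter.1 h).2, supp_right hM.2 hW (mem_filter.1 h).2⟩
      ho := fun a => by rw [card_out hM.1]; exact hd a
      hi := fun a => by rw [card_inn hM.1, ← hM.2]; exact hd a
      hX := fun v hv a ha => mem_filter.2 ⟨mem_univ _, h1 v hv a ha⟩
      hY := fun v hv a ha => mem_filter.2 ⟨mem_univ _, h2 v hv a ha⟩
      hXY := fun v hv a ha b hb => mem_filter.2 ⟨mem_univ _, h3 v hv a ha b hb⟩
      hc := fun v hv => h4 v hv } v hv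

lemma multi_split (v : V) (g : V → V) (A : Finset V) : ∀ (M : V → V → ℕ), Good M →
    Set.InjOn g A → (∀ a ∈ A, M a v ≠ 0 ∧ M v (g a) ≠ 0 ∧ (a = g a ∨ M a (g a) = 0)) →
    ∃ M', Red M M' A.card ∧ out M' v + A.card ≤ out M v := by
  induction A using Finset.induction_on with
  | empty => intro M hM _ _; exact ⟨M, Red.refl hM _, by simp⟩
  | insert a0 A ha0 ih =>
    intro M hM hinj h
    obtain ⟨h1, h2, h3⟩ := h a0 (mem_insert_self _ _)
    obtain ⟨M1, r1, r2, r3, r4⟩ := path2 hM h1 h2 h3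
    have hav0 : a0 ≠ v := by rintro rfl; exact h1 (hM.1.2 _)
    obtain ⟨M2, s1, s2⟩ := ih M1 r1.1 (hinj.mono (by simp)) (by
      intro a ha
      obtain ⟨k1, k2, k3⟩ := h a (mem_insert_of_mem ha)
      have n1 : a ≠ a0 := by rintro rfl; exact ha0 ha
      have n2 : a ≠ v := by rintro rfl; exact k1 (hM.1.2 _)
      have n3 : g a ≠ g a0 := fun e => n1 (hinj (by simp [ha]) (by simp) e)
      refine ⟨?_, ?_, k3.imp id fun e => ?_⟩
      · have := r3 a v
        simp only [E, n1, n2, false_and, if_false] at this; omega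
      · have := r3 v (g a)
        simp only [E, hav0.symm, n3, false_and, and_false, if_false] at this; omega
      · have := r4 a (g a)
        simp only [E, n1, false_and, if_false] at this; omega)
    rw [card_insert_of_notMem ha0]
    exact ⟨M2, r1.trans s1 (by omega), by omega⟩

lemma elim_unblocked {k : ℕ} {M : V → V → ℕ} (hM : Good M) {v : V} (hd : out M v ≤ k)
    (hv : ∀ X Y : Finset V, (∀ a ∈ X, M a v ≠ 0) → (∀ b ∈ Y, M v b ≠ 0) →
      (∀ a ∈ X, ∀ b ∈ Y, M a b ≠ 0) → X.card + Y.card ≤ k) :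
    ∃ M', Red M M' k ∧ out M' v = 0 := by
  set I := univ.filter fun a => M a v ≠ 0 with hI
  set O := univ.filter fun b => M v b ≠ 0 with hO
  have hIc : I.card = out M v := by rw [hI, card_inn hM.1, hM.2]
  have hOc : O.card = out M v := card_out hM.1 v
  set D : Finset ℕ := range (k - out M v) with hD
  set t : I → Finset (V ⊕ ℕ) := fun a => (O.filter fun b => a.1 = b ∨ M a.1 b = 0).disjSum D
    with ht
  have hall : ∀ s : Finset I, s.card ≤ (s.biUnion t).card := by
    intro s
    rcases s.eq_empty_or_nonempty with rfl | ⟨a0, ha0⟩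
    · simp
    set Y := O.filter fun b => ∀ a ∈ s, M a.1 b ≠ 0 with hY
    have h1 := hv (s.map (Function.Embedding.subtype _)) Y
      (fun a ha => by
        obtain ⟨a', -, rfl⟩ := mem_map.1 ha
        exact (mem_filter.1 a'.2).2)
      (fun b hb => (mem_filter.1 (mem_filter.1 hb).1).2)
      (fun a ha b hb => by
        obtain ⟨a', ha', rfl⟩ := mem_map.1 ha
        exact (mem_filter.1 hb).2 a' ha')
    have h2 : (O \ Y).disjSum D ⊆ s.biUnion t := by
      intro z hz
      rcases z with b | d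
      · rw [inl_mem_disjSum] at hz
        obtain ⟨hb1, hb2⟩ := mem_sdiff.1 hz
        rw [hY, mem_filter] at hb2
        push Not at hb2
        obtain ⟨a, ha, h⟩ := hb2 hb1
        exact mem_biUnion.2 ⟨a, ha, inl_mem_disjSum.2 (mem_filter.2 ⟨hb1, Or.inr h⟩)⟩
      · rw [inr_mem_disjSum] at hz
        exact mem_biUnion.2 ⟨a0, ha0, inr_mem_disjSum.2 hz⟩
    have h3 := card_le_card h2
    have h4 : (O \ Y).card + Y.card = O.card := card_sdiff_add_card_eq_card (filter_subset _ _)
    rw [card_disjSum, hD, card_range] at h3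
    rw [card_map] at h1
    omega
  obtain ⟨f, hf, hft⟩ := (all_card_le_biUnion_card_iff_exists_injective t).1 hall
  set g : V → V := fun a => if h : a ∈ I then (f ⟨a, h⟩).elim id (fun _ => v) else v with hg
  set A := I.filter fun a => ∃ h : a ∈ I, ∃ b, f ⟨a, h⟩ = Sum.inl b with hA
  have hAg : ∀ a ∈ A, ∃ h : a ∈ I, f ⟨a, h⟩ = Sum.inl (g a) := by
    intro a ha
    obtain ⟨h, b, hb⟩ := (mem_filter.1 ha).2
    exact ⟨h, by simp [hg, h, hb]⟩
  have hcard : (I \ A).card ≤ D.card := by
    have : (I \ A).card ≤ (D.map ⟨(Sum.inr : ℕ → V ⊕ ℕ), Sum.inr_injective⟩).card := by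
      apply card_le_card_of_injOn (fun a => if h : a ∈ I then f ⟨a, h⟩ else Sum.inr 0)
      · intro a ha
        obtain ⟨h1, h2⟩ := mem_sdiff.1 (mem_coe.1 ha)
        simp only [h1, dif_pos, mem_coe, mem_map, Function.Embedding.coeFn_mk]
        have := hft ⟨a, h1⟩
        rcases hz : f ⟨a, h1⟩ with b | d
        · exact absurd (mem_filter.2 ⟨h1, h1, b, hz⟩) h2
        · rw [hz] at this
          exact ⟨d, inr_mem_disjSum.1 this, rfl⟩
      · intro a ha a' ha' e
        have h1 := (mem_sdiff.1 (mem_coe.1 ha)).1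
        have h2 := (mem_sdiff.1 (mem_coe.1 ha')).1
        simp only [h1, h2, dif_pos] at e
        exact congrArg Subtype.val (hf e)
    rwa [card_map] at this
  obtain ⟨M1, r1, r2⟩ := multi_split v g A M hM
    (by
      intro a ha a' ha' e
      obtain ⟨h1, e1⟩ := hAg a ha
      obtain ⟨h2, e2⟩ := hAg a' ha'
      exact congrArg Subtype.val (hf (by rw [e1, e2, e] : f ⟨a, h1⟩ = f ⟨a', h2⟩)))
    (by
      intro a ha
      obtain ⟨h1, e1⟩ := hAg a ha
      have := hft ⟨a, h1⟩
      rw [e1] at this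
      obtain ⟨m1, m2⟩ := mem_filter.1 (inl_mem_disjSum.1 this)
      exact ⟨(mem_filter.1 h1).2, (mem_filter.1 m1).2, m2⟩)
  obtain ⟨M2, s1, s2⟩ := elim v _ M1 r1.1 le_rfl
  have h4 : (I \ A).card + A.card = I.card := card_sdiff_add_card_eq_card (filter_subset _ _)
  rw [hD, card_range] at hcard
  exact ⟨M2, r1.trans s1 (by omega), s2⟩

lemma weak_form : ∀ (k : ℕ), (∀ j ≤ k, QB V j) → ∀ n, k ≤ n → ∀ (W : Finset V)
    (M : V → V → ℕ), W.card = n → Good M → (∀ u, out M u ≤ k) →
    (∀ u, u ∉ W → out M u = 0) → ∃ t, Pack t M ∧ (k + 1).choose 2 + size M ≤ t + n * k := by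
  intro k
  induction k with
  | zero =>
    intro _ n _ W M _ _ hd _
    refine ⟨0, trivial, ?_⟩
    have : size M = 0 := sum_eq_zero fun u _ => by have := hd u; omega
    simp [this]
  | succ k ihk =>
    intro hq n hn
    induction n, hn using Nat.le_induction with
    | base =>
      intro W M hc hM hd hW
      obtain ⟨t, h1, h2⟩ := ihk (fun j hj => hq j (by omega)) (k + 1) (by omega) W M hc hM
        (fun u => by
          by_cases hu : u ∈ W
          · have := out_lt_card hM hW hu; omega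
          · rw [hW u hu]; omega) hW
      refine ⟨t, h1, ?_⟩
      rw [Nat.choose_succ_succ' (k + 1) 1, Nat.choose_one_right]
      nlinarith
    | succ n hn ih =>
      intro W M hc hM hd hW
      obtain ⟨v, hv, hb⟩ := exists_unblocked (hq _ le_rfl) hM (card_pos.1 (by omega)) hd hW
      obtain ⟨M', ⟨r1, r2, g, r3, r4⟩, r5⟩ := elim_unblocked hM (hd v) hb
      obtain ⟨t, p1, p2⟩ := ih (W.erase v) M' (by rw [card_erase_of_mem hv]; omega) r1
        (fun u => (r2 u).trans (hd u)) (by
          intro u hu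
          by_cases h : u = v
          · rw [h]; exact r5
          · have := hW u (fun h' => hu (mem_erase.2 ⟨h, h'⟩))
            have := r2 u; omega)
      exact ⟨t + g, r3 t p1, by nlinarith⟩

theorem exact_of_QB {V : Type} [Finite V] [Nonempty V] (G : Digraph V) (k : ℕ)
    (hq : ∀ j ≤ k, QB V j) (hG : IsRegularDigraph G k) :
    HasArcDisjointCycles G ((k + 1).choose 2) := by
  obtain ⟨t, rfl, h⟩ := transfer G k hG (fun t => t = (k + 1).choose 2) (by
    intro _ _ M hM ho
    obtain ⟨v⟩ := ‹Nonempty V›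
    have hW : ∀ u, u ∉ (univ : Finset V) → out M u = 0 := fun u hu => absurd (mem_univ u) hu
    have h1 := out_lt_card hM hW (mem_univ v)
    obtain ⟨t, h2, h3⟩ := weak_form k hq _ (by rw [ho] at h1; omega) univ M rfl hM
      (fun u => (ho u).le) hW
    have : size M = (univ : Finset V).card * k := by simp [size, ho]
    exact ⟨_, pack_le (by omega) h2, rfl⟩)
  exact h

end Pool.Agent.MP_2634a8_co

end
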