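import Mathlib
import Pool.Agent.MP_2634a8_co.Mg.Cyc

-- part MP_2634a8_co.H32.Basic
section

namespace Pool.Agent.MP_2634a8_co.H32

open Finset

variable {V : Type} [DecidableEq V]

def od (A : Finset (V × V)) (v : V) : ℕ := (A.filter fun e => e.1 = v).card
def idg (A : Finset (V × V)) (v : V) : ℕ := (A.filter fun e => e.2 = v).card
def Bl (A : Finset (V × V)) : Prop := ∀ v, od A v = idg A v
def Loopless (A : Finset (V × V)) : Prop := ∀ e ∈ A, e.1 ≠ e.2
def Pk (t : ℕ) (A : Finset (V × V)) : Prop :=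
  ∃ M : Finset (Finset (V × V)), M.card = t ∧ (∀ F ∈ M, F.Nonempty ∧ Bl F ∧ F ⊆ A) ∧
    ∀ F ∈ M, ∀ F' ∈ M, F ≠ F' → Disjoint F F'

inductive Wk (A : Finset (V × V)) (w : V × V → ℝ) : V → V → ℝ → Prop
  | nil (u : V) : Wk A w u u 0
  | cons {u v z : V} {t : ℝ} : (u, v) ∈ A → Wk A w v z t → Wk A w u z (w (u, v) + t)

def Cyc (A : Finset (V × V)) (w : V × V → ℝ) (L : ℝ) : Prop :=
  ∀ u v t, (u, v) ∈ A → Wk A w v u t → L ≤ w (u, v) + t

omit [DecidableEq V] in
lemma Wk.nonneg {A : Finset (V × V)} {w : V × V → ℝ} (hw : ∀ e, 0 ≤ w e) {u z : V} {t : ℝ}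
    (h : Wk A w u z t) : 0 ≤ t := by
  induction h with
  | nil => exact le_rfl
  | cons _ _ ih => exact add_nonneg (hw _) ih

omit [DecidableEq V] in
lemma Wk.trans {A : Finset (V × V)} {w : V × V → ℝ} {u v z : V} {s t : ℝ}
    (h : Wk A w u v s) (h' : Wk A w v z t) : Wk A w u z (s + t) := by
  induction h with
  | nil => simpa using h'
  | cons ha _ ih => rw [add_assoc]; exact Wk.cons ha (ih h')

omit [DecidableEq V] in
lemma Wk.snoc {A : Finset (V × V)} {w : V × V → ℝ} {u v z : V} {s : ℝ}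
    (h : Wk A w u v s) (h' : (v, z) ∈ A) : Wk A w u z (s + w (v, z)) := by
  have := h.trans (Wk.cons h' (Wk.nil z))
  simpa using this

omit [DecidableEq V] in
lemma Wk.mono {A B : Finset (V × V)} (hAB : A ⊆ B) {w : V × V → ℝ} {u z : V} {t : ℝ}
    (h : Wk A w u z t) : Wk B w u z t := by
  induction h with
  | nil => exact Wk.nil _
  | cons ha _ ih => exact Wk.cons (hAB ha) ih

omit [DecidableEq V] in
lemma Cyc.mono {A B : Finset (V × V)} (hAB : A ⊆ B) {w : V × V → ℝ} {L : ℝ} (h : Cyc B w L) :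
    Cyc A w L := fun u v t ha hw => h u v t (hAB ha) (hw.mono hAB)

omit [DecidableEq V] in
lemma Cyc.closed {A : Finset (V × V)} {w : V × V → ℝ} {L : ℝ} (hc : Cyc A w L) {u z : V}
    {s t : ℝ} (huz : u ≠ z) (h : Wk A w u z s) (h' : Wk A w z u t) : L ≤ s + t := by
  cases h with
  | nil => exact absurd rfl huz
  | cons ha hw => rw [add_assoc]; exact hc _ _ _ ha (hw.trans h')

omit [DecidableEq V] in
lemma Wk.smul {A : Finset (V × V)} {w : V × V → ℝ} (c : ℝ) {u z : V} {t : ℝ}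
    (h : Wk A (fun e => w e * c) u z t) (hc : c ≠ 0) : Wk A w u z (t / c) := by
  induction h with
  | nil => simpa using Wk.nil _
  | @cons u v z t ha _ ih =>
    have e : (w (u, v) * c + t) / c = w (u, v) + t / c := by field_simp
    rw [e]; exact Wk.cons ha ih

omit [DecidableEq V] in
lemma Cyc.scale {A : Finset (V × V)} {w : V × V → ℝ} {L : ℝ} (hL : 0 < L) (h : Cyc A w L) :
    Cyc A (fun e => w e * L⁻¹) 1 := by
  intro u v t ha hw
  have h1 := h u v _ ha (hw.smul _ (inv_ne_zero hL.ne'))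
  rw [div_inv_eq_mul] at h1
  have h2 : (1 : ℝ) = L * L⁻¹ := by field_simp
  have h3 : t = t * L * L⁻¹ := by field_simp
  rw [h2, h3, ← add_mul]
  exact mul_le_mul_of_nonneg_right h1 (by positivity)

section fin
variable [Fintype V]

lemma Wk.flow {A : Finset (V × V)} {w : V × V → ℝ} {u z : V} {t : ℝ} (h : Wk A w u z t) :
    ∃ C : V → V → ℕ, (∀ a b, C a b ≠ 0 → (a, b) ∈ A) ∧
      (∀ x, out C x + (if x = z then 1 else 0) = inn C x + (if x = u then 1 else 0)) ∧
      ∑ a, ∑ b, (C a b : ℝ) * w (a, b) = t := by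
  induction h with
  | nil u => exact ⟨0, by simp, by simp [out, inn], by simp⟩
  | @cons u v z t ha _ ih =>
    obtain ⟨C, h1, h2, h3⟩ := ih
    refine ⟨C + E u v, ?_, ?_, ?_⟩
    · intro a b hab
      by_cases hc : C a b = 0
      · simp only [Pi.add_apply, hc, zero_add, E] at hab
        split_ifs at hab with h
        · obtain ⟨rfl, rfl⟩ := h; exact ha
        · exact absurd rfl hab
      · exact h1 a b hc
    · intro x
      have := h2 x
      rw [out_add, inn_add, out_E, inn_E]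
      omega
    · simp only [Pi.add_apply, Nat.cast_add, add_mul, sum_add_distrib, h3]
      rw [add_comm]
      congr 1
      rw [sum_eq_single u, sum_eq_single v]
      · simp [E]
      · intro b _ hb; simp [E, hb]
      · simp
      · intro a _ ha'; simp [E, ha']
      · simp

lemma exists_set {C : V → V → ℕ} (h0 : C ≠ 0) (hb : Bal C) :
    ∃ F : Finset (V × V), F.Nonempty ∧ Bl F ∧ ∀ e ∈ F, C e.1 e.2 ≠ 0 := by
  classical
  have step : ∀ u : {u // out C u ≠ 0}, ∃ w : {u // out C u ≠ 0}, C u.1 w.1 ≠ 0 := by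
    rintro ⟨u, hu⟩
    obtain ⟨b, hb'⟩ := exists_out hu
    refine ⟨⟨b, ?_⟩, hb'⟩
    rw [hb b]
    intro h
    exact hb' (sum_eq_zero_iff.1 h u (mem_univ u))
  choose f hf using step
  obtain ⟨a, ha⟩ : ∃ a, out C a ≠ 0 := by
    by_contra hc
    push Not at hc
    apply h0
    funext a b
    exact sum_eq_zero_iff.1 (hc a) b (mem_univ b)
  obtain ⟨p, hp⟩ : ∃ p, p ∈ Function.periodicPts f := by
    obtain ⟨i, j, hij, h⟩ := Finite.exists_ne_map_eq_of_infinite (fun n : ℕ => f^[n] ⟨a, ha⟩)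
    wlog hlt : i < j generalizing i j
    · exact this j i hij.symm h.symm (by omega)
    refine ⟨f^[i] ⟨a, ha⟩, j - i, by omega, ?_⟩
    show f^[j - i] (f^[i] ⟨a, ha⟩) = f^[i] ⟨a, ha⟩
    rw [← Function.iterate_add_apply, Nat.sub_add_cancel hlt.le]
    exact h.symm
  have hbij := Function.bijOn_periodicPts f
  set P : Finset {u // out C u ≠ 0} := univ.filter fun x => x ∈ Function.periodicPts f with hP
  have hinj : Function.Injective (fun x : {u // out C u ≠ 0} => (x.1, (f x).1)) := by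
    intro x y h
    exact Subtype.ext (congrArg Prod.fst h)
  refine ⟨P.image fun x => (x.1, (f x).1), ⟨_, mem_image_of_mem _ (show p ∈ P by simp [hP, hp])⟩,
    ?_, ?_⟩
  · intro v
    unfold od idg
    rw [filter_image, filter_image, card_image_of_injective _ hinj,
      card_image_of_injective _ hinj]
    symm
    apply card_bij (fun x _ => f x)
    · intro x hx
      simp only [hP, mem_filter, mem_univ, true_and] at hx ⊢
      exact ⟨hbij.mapsTo hx.1, hx.2⟩
    · intro x hx y hy h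
      simp only [hP, mem_filter, mem_univ, true_and] at hx hy
      exact hbij.injOn hx.1 hy.1 h
    · intro y hy
      simp only [hP, mem_filter, mem_univ, true_and] at hy
      obtain ⟨x, hx, rfl⟩ := hbij.surjOn hy.1
      exact ⟨x, by simp only [hP, mem_filter, mem_univ, true_and]; exact ⟨hx, hy.2⟩, rfl⟩
  · intro e he
    obtain ⟨x, -, rfl⟩ := mem_image.1 he
    exact hf x

lemma cyc_of_sets {A : Finset (V × V)} {w : V × V → ℝ} (hw : ∀ e, 0 ≤ w e) {L : ℝ}
    (h : ∀ F : Finset (V × V), F.Nonempty → Bl F → F ⊆ A → L ≤ ∑ e ∈ F, w e) : Cyc A w L := by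
  intro u v t ha hk
  obtain ⟨C, h1, h2, h3⟩ := (Wk.cons ha hk).flow
  have hne : C ≠ 0 ∨ C = 0 := by tauto
  obtain ⟨C', h1', h2', h3'⟩ := hk.flow
  have hC0 : C' + E u v ≠ 0 := by
    intro h0
    have := congrFun (congrFun h0 u) v
    simp [E] at this
  have hbal : Bal (C' + E u v) := by
    intro x
    have := h2' x
    rw [out_add, inn_add, out_E, inn_E]
    omega
  obtain ⟨F, f1, f2, f3⟩ := exists_set hC0 hbal
  have hsub : F ⊆ A := by
    intro e he
    have := f3 e he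
    by_cases hc : C' e.1 e.2 = 0
    · simp only [Pi.add_apply, hc, zero_add, E] at this
      split_ifs at this with h'
      · obtain ⟨a, b⟩ := e
        obtain ⟨rfl, rfl⟩ := h'; exact ha
      · exact absurd rfl this
    · exact h1' _ _ hc
  refine (h F f1 f2 hsub).trans ?_
  have e1 : w (u, v) + t = ∑ e : V × V, ((C' + E u v) e.1 e.2 : ℝ) * w e := by
    rw [Fintype.sum_prod_type]
    simp only [Pi.add_apply, Nat.cast_add, add_mul, sum_add_distrib, h3']
    rw [add_comm]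
    congr 1
    rw [sum_eq_single u, sum_eq_single v]
    · simp [E]
    · intro b _ hb; simp [E, hb]
    · simp
    · intro a _ ha'; simp [E, ha']
    · simp
  rw [e1]
  refine le_trans ?_ (sum_le_sum_of_subset_of_nonneg (subset_univ F)
    (fun e _ _ => mul_nonneg (Nat.cast_nonneg _) (hw e)))
  apply sum_le_sum
  intro e he
  have h4 : (1 : ℝ) ≤ ((C' + E u v) e.1 e.2 : ℝ) := by
    exact_mod_cast Nat.one_le_iff_ne_zero.2 (f3 e he)
  nlinarith [hw e]

end fin

omit [DecidableEq V] in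
lemma exists_pot {A : Finset (V × V)} {w : V × V → ℝ} (hw : ∀ e, 0 ≤ w e) (hc : Cyc A w 1) :
    ∃ p : V → V → ℝ, (∀ z u, 0 ≤ p z u) ∧ (∀ z u, p z u ≤ 1) ∧ (∀ z, p z z = 0) ∧
      (∀ z u v, (u, v) ∈ A → p z u ≤ w (u, v) + p z v) ∧
      (∀ v z, v ≠ z → 1 ≤ p z v + p v z) ∧ (∀ u v, (u, v) ∈ A → 1 ≤ w (u, v) + p u v) := by
  set S : V → V → Set ℝ := fun z u => {t | t = 1 ∨ Wk A w u z t} with hS
  have hne : ∀ z u, (S z u).Nonempty := fun z u => ⟨1, Or.inl rfl⟩
  have hlb : ∀ z u, ∀ t ∈ S z u, (0 : ℝ) ≤ t := by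
    rintro z u t (rfl | h)
    · exact zero_le_one
    · exact h.nonneg hw
  have hbd : ∀ z u, BddBelow (S z u) := fun z u => ⟨0, hlb z u⟩
  have h0 : ∀ z u, 0 ≤ sInf (S z u) := fun z u => le_csInf (hne z u) (hlb z u)
  have h1 : ∀ z u, sInf (S z u) ≤ 1 := fun z u => csInf_le (hbd z u) (Or.inl rfl)
  have hW : ∀ z u t, Wk A w u z t → sInf (S z u) ≤ t := fun z u t h =>
    csInf_le (hbd z u) (Or.inr h)
  refine ⟨fun z u => sInf (S z u), h0, h1, fun z => le_antisymm (hW z z 0 (Wk.nil z)) (h0 z z),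
    ?_, ?_, ?_⟩
  · intro z u v ha
    rw [← sub_le_iff_le_add']
    apply le_csInf (hne z v)
    rintro t (rfl | h)
    · linarith [h1 z u, hw (u, v)]
    · linarith [hW z u _ (Wk.cons ha h)]
  · intro v z hvz
    rw [← sub_le_iff_le_add]
    apply le_csInf (hne z v)
    rintro t (rfl | h)
    · linarith [h0 v z]
    · rw [sub_le_comm]
      apply le_csInf (hne v z)
      rintro t' (rfl | h')
      · linarith [h.nonneg hw]
      · linarith [hc.closed hvz h h']
  · intro u v ha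
    rw [← sub_le_iff_le_add']
    apply le_csInf (hne u v)
    rintro t (rfl | h)
    · linarith [hw (u, v)]
    · linarith [hc u v t ha h]

/-- out-neighbours -/
def nb (A : Finset (V × V)) (u : V) : Finset V := (A.filter fun e => e.1 = u).image Prod.snd

lemma mem_nb {A : Finset (V × V)} {u v : V} : v ∈ nb A u ↔ (u, v) ∈ A := by
  unfold nb
  constructor
  · intro h
    obtain ⟨⟨a, b⟩, he, rfl⟩ := mem_image.1 h
    obtain ⟨h1, h2⟩ := mem_filter.1 he
    simp only at h2
    subst h2; exact h1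
  · intro h
    exact mem_image.2 ⟨(u, v), mem_filter.2 ⟨h, rfl⟩, rfl⟩

lemma card_nb (A : Finset (V × V)) (u : V) : (nb A u).card = od A u := by
  unfold nb od
  apply card_image_of_injOn
  rintro ⟨a, b⟩ h ⟨c, d⟩ h' hh
  simp only [coe_filter, Set.mem_setOf_eq] at h h' hh
  rw [h.2, h'.2, hh]

lemma cherry {A : Finset (V × V)} {w : V × V → ℝ} (hl : Loopless A) {p : V → V → ℝ}
    (h3 : ∀ z, p z z = 0) (h4 : ∀ z u v, (u, v) ∈ A → p z u ≤ w (u, v) + p z v)
    (h5 : ∀ v z, v ≠ z → 1 ≤ p z v + p v z) (h6 : ∀ u v, (u, v) ∈ A → 1 ≤ w (u, v) + p u v)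
    {W : Finset V} {u : V} (hu : u ∈ W) (hN : nb A u ⊆ W) :
    (od A u : ℝ) * (od A u + 1) / 2 ≤
      ∑ v ∈ nb A u, ∑ z ∈ W, (w (u, v) + p z v - p z u) := by
  have hun : u ∉ nb A u := fun h => hl _ (mem_nb.1 h) rfl
  have hsub : insert u (nb A u) ⊆ W := insert_subset hu hN
  have e1 : ∀ v ∈ nb A u, 1 + ∑ z ∈ nb A u, (w (u, v) + p z v - p z u) ≤
      ∑ z ∈ W, (w (u, v) + p z v - p z u) := by
    intro v hv
    have hv' := mem_nb.1 hv
    refine le_trans ?_ (sum_le_sum_of_subset_of_nonneg hsub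
      (fun z _ _ => by linarith [h4 z u v hv']))
    rw [sum_insert hun, h3]
    linarith [h6 u v hv']
  refine le_trans ?_ (sum_le_sum e1)
  rw [sum_add_distrib, sum_const, card_nb, nsmul_eq_mul, mul_one]
  have e2 : ∑ v ∈ nb A u, ∑ z ∈ nb A u, (w (u, v) + p z v - p z u) =
      ∑ v ∈ nb A u, ∑ z ∈ nb A u, (w (u, z) + p v z - p v u) := sum_comm
  have e3 : ∑ v ∈ nb A u, ((od A u : ℝ) - 1) ≤ ∑ v ∈ nb A u, ∑ z ∈ nb A u,
      ((w (u, v) + p z v - p z u) + (w (u, z) + p v z - p v u)) := by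
    apply sum_le_sum
    intro v hv
    have : ∑ z ∈ (nb A u).erase v, (1 : ℝ) ≤ ∑ z ∈ nb A u,
        ((w (u, v) + p z v - p z u) + (w (u, z) + p v z - p v u)) := by
      refine le_trans (sum_le_sum ?_) (sum_le_sum_of_subset_of_nonneg (erase_subset v _) ?_)
      · intro z hz
        obtain ⟨hzv, hz⟩ := mem_erase.1 hz
        have a1 := h4 z u z (mem_nb.1 hz)
        have a2 := h4 v u v (mem_nb.1 hv)
        have a3 := h5 v z hzv.symm
        rw [h3] at a1 a2
        linarith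
      · intro z hz _
        linarith [h4 z u v (mem_nb.1 hv), h4 v u z (mem_nb.1 hz)]
    rw [sum_const, card_erase_of_mem hv, card_nb, nsmul_eq_mul, mul_one] at this
    refine le_trans (le_of_eq ?_) this
    have : 1 ≤ od A u := by rw [← card_nb]; exact card_pos.2 ⟨v, hv⟩
    rw [Nat.cast_sub this]; simp
  simp only [sum_add_distrib (f := fun z => w (u, _) + p z _ - p z u)] at e3
  rw [sum_add_distrib, ← e2, sum_const, card_nb, nsmul_eq_mul] at e3
  linarith

lemma od_sdiff {A F : Finset (V × V)} (h : F ⊆ A) (v : V) : od (A \ F) v + od F v = od A v := by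
  unfold od
  rw [← card_union_of_disjoint (disjoint_filter_filter sdiff_disjoint), ← filter_union,
    sdiff_union_of_subset h]

lemma idg_sdiff {A F : Finset (V × V)} (h : F ⊆ A) (v : V) :
    idg (A \ F) v + idg F v = idg A v := by
  unfold idg
  rw [← card_union_of_disjoint (disjoint_filter_filter sdiff_disjoint), ← filter_union,
    sdiff_union_of_subset h]

lemma Bl.sdiff {A F : Finset (V × V)} (hA : Bl A) (hF : Bl F) (h : F ⊆ A) : Bl (A \ F) := by
  intro v
  have := od_sdiff h v; have := idg_sdiff h v; have := hA v; have := hF v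
  omega

lemma Pk.zero (A : Finset (V × V)) : Pk 0 A := ⟨∅, rfl, by simp, by simp⟩

lemma Pk.mono {t : ℕ} {A B : Finset (V × V)} (h : Pk t A) (hAB : A ⊆ B) : Pk t B := by
  obtain ⟨M, h1, h2, h3⟩ := h
  exact ⟨M, h1, fun F hF => ⟨(h2 F hF).1, (h2 F hF).2.1, (h2 F hF).2.2.trans hAB⟩, h3⟩

lemma Pk.union {s t : ℕ} {A B : Finset (V × V)} (h : Pk s A) (h' : Pk t B) (hd : Disjoint A B) :
    Pk (s + t) (A ∪ B) := by
  obtain ⟨M, h1, h2, h3⟩ := h
  obtain ⟨M', h1', h2', h3'⟩ := h'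
  have hcross : ∀ F ∈ M, ∀ F' ∈ M', Disjoint F F' := fun F hF F' hF' =>
    Disjoint.mono (h2 F hF).2.2 (h2' F' hF').2.2 hd
  have hdis : Disjoint M M' := by
    rw [disjoint_left]
    intro F hF hF'
    have := hcross F hF F hF'
    rw [disjoint_self] at this
    exact (h2 F hF).1.ne_empty this
  refine ⟨M ∪ M', by rw [card_union_of_disjoint hdis, h1, h1'], ?_, ?_⟩
  · intro F hF
    rcases mem_union.1 hF with h | h
    · exact ⟨(h2 F h).1, (h2 F h).2.1, (h2 F h).2.2.trans subset_union_left⟩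
    · exact ⟨(h2' F h).1, (h2' F h).2.1, (h2' F h).2.2.trans subset_union_right⟩
  · intro F hF F' hF' hne
    rcases mem_union.1 hF with h | h <;> rcases mem_union.1 hF' with h' | h'
    · exact h3 F h F' h' hne
    · exact hcross F h F' h'
    · exact (hcross F' h' F h).symm
    · exact h3' F h F' h' hne

lemma Pk.one {F : Finset (V × V)} (h1 : F.Nonempty) (h2 : Bl F) : Pk 1 F :=
  ⟨{F}, rfl, by simpa using ⟨h1, h2⟩, by simp⟩

lemma Pk.le {s t : ℕ} {A : Finset (V × V)} (h : Pk t A) (hst : s ≤ t) : Pk s A := by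
  obtain ⟨M, h1, h2, h3⟩ := h
  obtain ⟨M', hM', hc⟩ := exists_subset_card_eq (s := M) (n := s) (by omega)
  exact ⟨M', hc, fun F hF => h2 F (hM' hF), fun F hF F' hF' => h3 F (hM' hF) F' (hM' hF')⟩

section fin
variable [Fintype V]

lemma exists_dicycle (G : Digraph V) {F : Finset (V × V)} (h1 : F.Nonempty) (h2 : Bl F)
    (hl : ∀ v, ¬ G.Adj v v) (hG : ∀ e ∈ F, G.Adj e.1 e.2) :
    ∃ c : DiCycle G, ∀ e ∈ c.arcs, e ∈ F := by
  have hC : ∀ a b, (fun a b => if (a, b) ∈ F then 1 else 0 : V → V → ℕ) a b ≠ 0 → (a, b) ∈ F := by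
    intro a b h
    by_contra hc
    simp [hc] at h
  obtain ⟨c, hc⟩ := exists_cycle G (C := fun a b => if (a, b) ∈ F then 1 else 0) (by
      obtain ⟨⟨a, b⟩, he⟩ := h1
      intro h0
      have := congrFun (congrFun h0 a) b
      simp [he] at this) (by
      intro v
      have e1 : out (fun a b => if (a, b) ∈ F then 1 else 0) v = od F v := by
        rw [← card_nb]
        simp only [out, sum_boole, Nat.cast_id]
        congr 1
        ext x; simp [mem_nb]
      have e2 : inn (fun a b => if (a, b) ∈ F then 1 else 0) v = idg F v := by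
        simp only [inn, sum_boole, Nat.cast_id, idg]
        symm
        apply card_bij (fun e _ => e.1)
        · rintro ⟨a, b⟩ he
          obtain ⟨h, rfl⟩ := mem_filter.1 he
          simpa using h
        · rintro ⟨a, b⟩ he ⟨c, d⟩ he' hh
          have := (mem_filter.1 he).2; have := (mem_filter.1 he').2
          simp only at *
          simp [*]
        · intro a ha
          exact ⟨(a, v), mem_filter.2 ⟨by simpa using ha, rfl⟩, rfl⟩
      rw [e1, e2, h2 v])
    (fun a => by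
      by_contra hc
      exact hl a (hG _ (hC a a hc)))
    (fun a b h => hG _ (hC a b h))
  exact ⟨c, fun e he => hC _ _ (hc e he)⟩

lemma pk_cycles (G : Digraph V) {A : Finset (V × V)} {t : ℕ} (h : Pk t A)
    (hl : ∀ v, ¬ G.Adj v v) (hG : ∀ e ∈ A, G.Adj e.1 e.2) : HasArcDisjointCycles G t := by
  obtain ⟨M, h1, h2, h3⟩ := h
  have : ∀ F : M, ∃ c : DiCycle G, ∀ e ∈ c.arcs, e ∈ F.1 := fun F =>
    exists_dicycle G (h2 F.1 F.2).1 (h2 F.1 F.2).2.1 hl
      (fun e he => hG e ((h2 F.1 F.2).2.2 he))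
  choose c hc using this
  subst h1
  refine ⟨fun i => c (M.equivFin.symm i), ?_⟩
  intro i j hij
  rw [Set.disjoint_left]
  intro e he he'
  have hne : (M.equivFin.symm i).1 ≠ (M.equivFin.symm j).1 := by
    intro h
    exact hij (M.equivFin.symm.injective (Subtype.ext h))
  exact disjoint_left.1 (h3 _ (M.equivFin.symm i).2 _ (M.equivFin.symm j).2 hne)
    (hc _ e he) (hc _ e he')

lemma exists_arcs (G : Digraph V) (k : ℕ) (hG : IsRegularDigraph G k) :
    ∃ A : Finset (V × V), (∀ e, e ∈ A ↔ G.Adj e.1 e.2) ∧ Loopless A ∧ (∀ v, od A v = k) ∧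
      ∀ v, idg A v = k := by
  classical
  refine ⟨univ.filter fun e => G.Adj e.1 e.2, by simp, ?_, ?_, ?_⟩
  · rintro ⟨a, b⟩ he hab
    simp only at hab
    subst hab
    exact hG.1 a (mem_filter.1 he).2
  · intro v
    rw [← hG.2.1 v, Set.ncard_eq_toFinset_card', ← card_nb]
    congr 1
    ext x; simp [mem_nb]
  · intro v
    rw [← hG.2.2 v, Set.ncard_eq_toFinset_card']
    unfold idg
    apply card_bij (fun e _ => e.1)
    · rintro ⟨a, b⟩ he
      obtain ⟨h, rfl⟩ := mem_filter.1 he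
      simpa using h
    · rintro ⟨a, b⟩ he ⟨c, d⟩ he' hh
      have := (mem_filter.1 he).2; have := (mem_filter.1 he').2
      simp only at *
      simp [*]
    · intro a ha
      exact ⟨(a, v), mem_filter.2 ⟨by simpa using ha, rfl⟩, rfl⟩

end fin

end Pool.Agent.MP_2634a8_co.H32

end

-- part MP_2634a8_co.H32.Sparse
section

namespace Pool.Agent.MP_2634a8_co.H32

open Finset

variable {V : Type} [DecidableEq V]

def Ins (A : Finset (V × V)) (W : Finset V) : Prop := ∀ e ∈ A, e.1 ∈ W ∧ e.2 ∈ W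

def tw (a : V → ℕ) : V × V → ℝ := fun e => (a e.1 : ℝ)

omit [DecidableEq V] in
lemma tw_nonneg (a : V → ℕ) (e : V × V) : 0 ≤ tw a e := Nat.cast_nonneg _

lemma two_n {A : Finset (V × V)} {W : Finset V} {a : V → ℕ} {L ε : ℝ} (hW : W.Nonempty)
    (hi : Ins A W) (hl : Loopless A) (hc : Cyc A (tw a) L) (hL : 0 < L)
    (hd : ∀ u ∈ W, 1 ≤ od A u ∧ ε * a u ≤ od A u) : ε * L < 2 * W.card := by
  by_contra hcon
  push Not at hcon
  obtain ⟨p, -, -, p3, p4, p5, p6⟩ := exists_pot (w := fun e => tw a e * L⁻¹)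
    (fun e => mul_nonneg (tw_nonneg a e) (by positivity)) (hc.scale hL)
  obtain ⟨u, hu, hmax⟩ := exists_max_image W (fun v => ∑ z ∈ W, p z v) hW
  have hN : nb A u ⊆ W := fun v hv => (hi _ (mem_nb.1 hv)).2
  have h1 := cherry (w := fun e => tw a e * L⁻¹) hl p3 p4 p5 p6 hu hN
  have h2 : ∑ v ∈ nb A u, ∑ z ∈ W, (tw a (u, v) * L⁻¹ + p z v - p z u) ≤
      ∑ v ∈ nb A u, (W.card * ((a u : ℝ) * L⁻¹)) := by
    apply sum_le_sum
    intro v hv
    rw [sum_sub_distrib, sum_add_distrib, sum_const, nsmul_eq_mul]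
    have := hmax v (hN hv)
    simp only [tw] at this ⊢
    linarith
  rw [sum_const, card_nb, nsmul_eq_mul] at h2
  obtain ⟨d1, d2⟩ := hd u hu
  have d1' : (1 : ℝ) ≤ od A u := by exact_mod_cast d1
  have h3 : (W.card : ℝ) * ((a u : ℝ) * L⁻¹) ≤ od A u / 2 := by
    have e : (W.card : ℝ) * ((a u : ℝ) * L⁻¹) = (2 * W.card) * (a u / (2 * L)) := by
      field_simp
    have e' : ε * L * (a u / (2 * L)) = ε * a u / 2 := by field_simp
    rw [e]
    have := mul_le_mul_of_nonneg_right hcon (show (0 : ℝ) ≤ a u / (2 * L) by positivity)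
    linarith
  have h4 := mul_le_mul_of_nonneg_left h3 (show (0 : ℝ) ≤ od A u by positivity)
  nlinarith

open Classical in
noncomputable def ball (A : Finset (V × V)) (a : V → ℕ) (W : Finset V) (v : V) (r : ℕ) :
    Finset V := W.filter fun x => ∃ t ≤ (r : ℝ), Wk A (tw a) v x t

omit [DecidableEq V] in
lemma mem_ball {A : Finset (V × V)} {a : V → ℕ} {W : Finset V} {v x : V} {r : ℕ} :
    x ∈ ball A a W v r ↔ x ∈ W ∧ ∃ t ≤ (r : ℝ), Wk A (tw a) v x t := by
  classical
  unfold ball; exact mem_filter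

omit [DecidableEq V] in
lemma ball_mono (A : Finset (V × V)) (a : V → ℕ) (W : Finset V) (v : V) {r s : ℕ} (h : r ≤ s) :
    ball A a W v r ⊆ ball A a W v s := by
  intro x hx
  obtain ⟨h1, t, h2, h3⟩ := mem_ball.1 hx
  exact mem_ball.2 ⟨h1, t, h2.trans (by exact_mod_cast h), h3⟩

lemma growth {A : Finset (V × V)} {W : Finset V} {a : V → ℕ} {L ε : ℝ} {D R : ℕ}
    (hi : Ins A W) (hl : Loopless A) (hc : Cyc A (tw a) L) (hL : 0 < L)
    (hd : ∀ u ∈ W, 1 ≤ od A u ∧ a u ≤ od A u ∧ a u ≤ D) {v : V} (hv : v ∈ W)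
    (hε : 0 < ε) (hε1 : ε ≤ 1) (hsm : 2 * ((ball A a W v R).card : ℝ) ≤ ε * L) :
    (1 - ε) * ((R : ℝ) - D) ≤ (ball A a W v R).card := by
  obtain ⟨ρ, hρ, hmax⟩ := exists_max_image (range (R + 1))
    (fun ρ : ℕ => ((ball A a W v ρ).card : ℝ) - (1 - ε) * ρ) ⟨0, by simp⟩
  have hρR : ρ ≤ R := by simpa [Nat.lt_succ_iff] using hρ
  have hmono : ((ball A a W v ρ).card : ℝ) ≤ (ball A a W v R).card := by
    exact_mod_cast card_le_card (ball_mono A a W v hρR)
  by_cases hcase : ρ + D ≤ R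
  · exfalso
    set B := ball A a W v ρ with hB
    have hvB : v ∈ B := mem_ball.2 ⟨hv, 0, by positivity, Wk.nil v⟩
    set A' := A.filter fun e => e.1 ∈ B ∧ e.2 ∈ B with hA'
    have hsub : A' ⊆ A := filter_subset _ _
    have key := two_n (A := A') (W := B) (a := a) (L := L) (ε := ε) ⟨v, hvB⟩
      (fun e he => (mem_filter.1 he).2) (fun e he => hl e (hsub he)) (hc.mono hsub) hL (by
        intro x hx
        obtain ⟨hxW, t, ht, hwk⟩ := mem_ball.1 hx
        obtain ⟨d1, d2, d3⟩ := hd x hxW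
        have hcov : nb A x ⊆ nb A' x ∪ (ball A a W v (ρ + a x) \ B) := by
          intro y hy
          have hy' := mem_nb.1 hy
          by_cases hyB : y ∈ B
          · exact mem_union_left _ (mem_nb.2 (mem_filter.2 ⟨hy', hx, hyB⟩))
          · refine mem_union_right _ (mem_sdiff.2 ⟨mem_ball.2 ⟨(hi _ hy').2, _, ?_,
              hwk.snoc hy'⟩, hyB⟩)
            simp only [tw]; push_cast; linarith
        have h1 := (card_le_card hcov).trans (card_union_le _ _)
        rw [card_nb, card_nb, card_sdiff_of_subset (ball_mono A a W v (Nat.le_add_right _ _))]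
          at h1
        have h2 := hmax (ρ + a x) (by simp; omega)
        have h3 : B.card ≤ (ball A a W v (ρ + a x)).card :=
          card_le_card (ball_mono A a W v (Nat.le_add_right _ _))
        have h4 : (od A x : ℝ) ≤ od A' x + ((ball A a W v (ρ + a x)).card - B.card) := by
          rw [← Nat.cast_sub h3]; exact_mod_cast h1
        have d2' : (a x : ℝ) ≤ od A x := by exact_mod_cast d2
        have d1' : (1 : ℝ) ≤ od A x := by exact_mod_cast d1
        push_cast at h2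
        have h5 : (od A x : ℝ) - (1 - ε) * a x ≤ od A' x := by linarith
        refine ⟨?_, by linarith⟩
        rcases Nat.eq_zero_or_pos (a x) with h0 | h0
        · rw [h0] at h5
          have : (1 : ℝ) ≤ od A' x := by simp at h5; linarith [(Nat.cast_le (α := ℝ)).2 h5]
          exact_mod_cast this
        · have h0' : (0 : ℝ) < a x := by exact_mod_cast h0
          have : (0 : ℝ) < od A' x := by nlinarith
          exact_mod_cast this)
    linarith
  · have h0 := hmax 0 (by simp)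
    have h1 : (R : ℝ) - D ≤ ρ := by
      have : R ≤ ρ + D := by omega
      have : (R : ℝ) ≤ ρ + D := by exact_mod_cast this
      linarith
    have h2 := mul_le_mul_of_nonneg_left h1 (show 0 ≤ 1 - ε by linarith)
    have h3 : (0 : ℝ) ≤ (ball A a W v 0).card := by positivity
    simp only [Nat.cast_zero, mul_zero, sub_zero] at h0
    linarith

lemma growth' {A : Finset (V × V)} {W : Finset V} {a : V → ℕ} {L : ℝ} {D R : ℕ}
    (hi : Ins A W) (hl : Loopless A) (hc : Cyc A (tw a) L)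
    (hd : ∀ u ∈ W, 1 ≤ od A u ∧ a u ≤ od A u ∧ a u ≤ D) {v : V} (hv : v ∈ W)
    (hR : 0 < R) (hRL : 2 * (R : ℝ) ≤ L) :
    (R : ℝ) - D - 2 * R ^ 2 / L ≤ (ball A a W v R).card := by
  have hR' : (0 : ℝ) < R := by exact_mod_cast hR
  have hL : 0 < L := by linarith
  have hq : 0 ≤ 2 * (R : ℝ) ^ 2 / L := by positivity
  have hD : (0 : ℝ) ≤ D := by positivity
  by_cases h : ((ball A a W v R).card : ℝ) ≤ R
  · have h1 := growth (ε := 2 * R / L) (R := R) hi hl hc hL hd hv (by positivity)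
      (by rw [div_le_one hL]; exact hRL) (by rw [div_mul_cancel₀ _ hL.ne']; linarith)
    have e : (1 - 2 * R / L) * ((R : ℝ) - D) = R - D - 2 * R ^ 2 / L + 2 * R * D / L := by
      field_simp; ring
    have : 0 ≤ 2 * (R : ℝ) * D / L := by positivity
    linarith
  · push Not at h; linarith

omit [DecidableEq V] in
lemma exists_inball {A : Finset (V × V)} {W : Finset V} {a : V → ℕ} {R : ℕ} {b : ℝ}
    (hW : W.Nonempty) (h : ∀ v ∈ W, b ≤ (ball A a W v R).card) :
    ∃ x ∈ W, ∃ S : Finset V, S ⊆ W ∧ b ≤ S.card ∧ x ∈ S ∧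
      ∀ y ∈ S, ∃ t ≤ (R : ℝ), Wk A (tw a) y x t := by
  classical
  have e : ∑ v ∈ W, ((ball A a W v R).card : ℝ) =
      ∑ x ∈ W, ((W.filter fun v => ∃ t ≤ (R : ℝ), Wk A (tw a) v x t).card : ℝ) := by
    have := sum_card_bipartiteAbove_eq_sum_card_bipartiteBelow (s := W) (t := W)
      (fun v x => ∃ t ≤ (R : ℝ), Wk A (tw a) v x t)
    unfold bipartiteAbove bipartiteBelow at this
    unfold ball
    exact_mod_cast this
  have h1 : ∑ _x ∈ W, b ≤
      ∑ x ∈ W, ((W.filter fun v => ∃ t ≤ (R : ℝ), Wk A (tw a) v x t).card : ℝ) := by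
    rw [← e]; exact sum_le_sum h
  obtain ⟨x, hx, hb⟩ := exists_le_of_sum_le hW h1
  exact ⟨x, hx, _, filter_subset _ _, hb, mem_filter.2 ⟨hx, 0, by positivity, Wk.nil x⟩,
    fun y hy => (mem_filter.1 hy).2⟩

lemma lift_walk {A A0 : Finset (V × V)} {U Y : Finset V} {a : V → ℕ} (h0 : A0 ⊆ A) {p q : V}
    {t : ℝ} (h : Wk (A0 ∪ U ×ˢ Y) (tw a) p q t) :
    Wk A (tw a) p q t ∨ ∃ y ∈ Y, ∃ u ∈ U, ∃ t1 t2, Wk A (tw a) p u t1 ∧ Wk A (tw a) y q t2 ∧
      t1 + a u + t2 ≤ t := by
  induction h with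
  | nil => exact Or.inl (Wk.nil _)
  | @cons p v q t ha _ ih =>
    rcases mem_union.1 ha with ha | ha
    · rcases ih with ih | ⟨y, hy, u, hu, t1, t2, w1, w2, hle⟩
      · exact Or.inl (Wk.cons (h0 ha) ih)
      · exact Or.inr ⟨y, hy, u, hu, _, t2, Wk.cons (h0 ha) w1, w2, by linarith⟩
    · obtain ⟨hp, hv⟩ := mem_product.1 ha
      rcases ih with ih | ⟨y, hy, u, hu, t1, t2, w1, w2, hle⟩
      · exact Or.inr ⟨v, hv, p, hp, 0, t, Wk.nil _, ih, by simp [tw]⟩
      · refine Or.inr ⟨y, hy, p, hp, 0, t2, Wk.nil _, w2, ?_⟩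
        have := w1.nonneg (tw_nonneg a)
        have : (0 : ℝ) ≤ a u := by positivity
        simp only [tw]; linarith

lemma lift_cyc {A A0 : Finset (V × V)} {U Y : Finset V} {a : V → ℕ} (h0 : A0 ⊆ A) {L c : ℝ}
    (hc : Cyc A (tw a) L) (hc0 : 0 ≤ c)
    (hUY : ∀ u ∈ U, ∀ y ∈ Y, ∃ x, (u, x) ∈ A ∧ ∃ t ≤ c, Wk A (tw a) x y t) :
    Cyc (A0 ∪ U ×ˢ Y) (tw a) (L - c) := by
  have key : ∀ u ∈ U, ∀ y ∈ Y, ∀ s, Wk A (tw a) y u s → L - c ≤ a u + s := by
    intro u hu y hy s hs
    obtain ⟨x, hx, t, ht, hw⟩ := hUY u hu y hy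
    have := hc u x _ hx (hw.trans hs)
    simp only [tw] at this
    linarith
  intro p v t ha hw
  rcases mem_union.1 ha with ha | ha
  · rcases lift_walk h0 hw with h | ⟨y, hy, u, hu, t1, t2, w1, w2, hle⟩
    · linarith [hc p v t (h0 ha) h]
    · have := key u hu y hy _ (w2.trans (Wk.cons (h0 ha) w1))
      linarith
  · obtain ⟨hp, hv⟩ := mem_product.1 ha
    rcases lift_walk h0 hw with h | ⟨y, hy, u, hu, t1, t2, w1, w2, hle⟩
    · exact key p hp v hv t h
    · have := key p hp y hy _ w2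
      have := w1.nonneg (tw_nonneg a)
      have : (0 : ℝ) ≤ a u := by positivity
      simp only [tw]; linarith

lemma arith_step {L D R n s : ℝ} (hD : 1 ≤ D) (hL : 225 * D < L) (h1 : √(L * D) ≤ R)
    (h2 : R ≤ √(L * D) + 1) (hs : R - D - 2 * R ^ 2 / L ≤ s)
    (ih : L - (R + 4 * D) ≤ n - s + 15 * √((L - (R + 4 * D)) * D)) :
    L ≤ n + 15 * √(L * D) := by
  set r := √(L * D) with hr
  have hL0 : 0 < L := by linarith
  have hr2 : r ^ 2 = L * D := Real.sq_sqrt (by positivity)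
  have hr0 : 0 ≤ r := Real.sqrt_nonneg _
  have hr15 : 15 * D ≤ r := by
    rw [hr]; apply Real.le_sqrt_of_sq_le; nlinarith
  have hR : R ≤ 16 / 15 * r := by linarith
  have hR0 : 0 ≤ R := by linarith
  have h3 : 2 * R ^ 2 / L ≤ 5 / 2 * D := by
    rw [div_le_iff₀ hL0]
    have : R ^ 2 ≤ (16 / 15 * r) ^ 2 := pow_le_pow_left₀ hR0 hR 2
    nlinarith
  have h4 : √((L - (R + 4 * D)) * D) ≤ r - D / 2 := by
    apply Real.sqrt_le_iff.2
    refine ⟨by linarith, ?_⟩
    nlinarith
  linarith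

theorem wch (D : ℕ) (hD : 1 ≤ D) (a : V → ℕ) : ∀ (n : ℕ) (W : Finset V) (A : Finset (V × V))
    (L : ℝ), W.card = n → W.Nonempty → Ins A W → Loopless A → Cyc A (tw a) L →
    (∀ u ∈ W, 1 ≤ od A u ∧ a u ≤ od A u ∧ a u ≤ D) → L ≤ n + 15 * √(L * D) := by
  intro n
  induction n using Nat.strong_induction_on with
  | _ n ih =>
  intro W A L hn hW hi hl hc hd
  have hD' : (1 : ℝ) ≤ D := by exact_mod_cast hD
  by_cases hL : L ≤ 225 * D
  · rcases le_or_gt L 0 with h | h
    · have := Real.sqrt_nonneg (L * D)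
      have : (0 : ℝ) ≤ n := by positivity
      linarith
    · have : L / 15 ≤ √(L * D) := by
        apply Real.le_sqrt_of_sq_le; nlinarith
      have : (0 : ℝ) ≤ n := by positivity
      linarith
  push Not at hL
  have hL0 : 0 < L := by linarith
  set r := √(L * D) with hr
  have hr2 : r ^ 2 = L * D := Real.sq_sqrt (by positivity)
  have hr15 : 15 * D ≤ r := by
    rw [hr]; apply Real.le_sqrt_of_sq_le; nlinarith
  have hrL : 15 * r ≤ L := by
    have : r ≤ L / 15 := by
      rw [hr]; apply Real.sqrt_le_iff.2; refine ⟨by positivity, ?_⟩; nlinarith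
    linarith
  set R := ⌈r⌉₊ with hR
  have hR1 : r ≤ R := Nat.le_ceil r
  have hR2 : (R : ℝ) ≤ r + 1 := (Nat.ceil_lt_add_one (by linarith)).le
  have hRpos : 0 < R := by
    have : (0 : ℝ) < R := by linarith
    exact_mod_cast this
  obtain ⟨x, hx, S, hSW, hS, hxS, hSx⟩ := exists_inball (A := A) (a := a) (R := R)
    (b := (R : ℝ) - D - 2 * R ^ 2 / L) hW
    (fun v hv => growth' hi hl hc hd hv hRpos (by linarith))
  set Y := (ball A a W x (4 * D)).erase x with hY
  have hYc : D ≤ Y.card := by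
    have h1 := growth' (R := 4 * D) hi hl hc hd hx (by omega) (by push_cast; linarith)
    have h2 : 2 * ((4 * D : ℕ) : ℝ) ^ 2 / L ≤ D := by
      rw [div_le_iff₀ hL0]; push_cast; nlinarith
    have h3 : (D : ℝ) + 1 ≤ (ball A a W x (4 * D)).card := by push_cast at h1 h2 ⊢; linarith
    have h4 : D + 1 ≤ (ball A a W x (4 * D)).card := by exact_mod_cast h3
    have := pred_card_le_card_erase (s := ball A a W x (4 * D)) (a := x)
    rw [hY]
    omega
  have hYx : ∀ y ∈ Y, y ≠ x ∧ y ∈ W ∧ ∃ t ≤ 4 * (D : ℝ), Wk A (tw a) x y t := by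
    intro y hy
    obtain ⟨h1, h2⟩ := mem_erase.1 hy
    obtain ⟨h3, t, h4, h5⟩ := mem_ball.1 h2
    exact ⟨h1, h3, t, by push_cast at h4; exact h4, h5⟩
  have hYS : ∀ y ∈ Y, y ∈ W \ S := by
    intro y hy
    obtain ⟨h1, h2, t, h3, h4⟩ := hYx y hy
    refine mem_sdiff.2 ⟨h2, fun hyS => ?_⟩
    obtain ⟨s, h5, h6⟩ := hSx y hyS
    have := hc.closed h1 h6 h4
    linarith
  set U := (W \ S).filter fun u => ∃ z ∈ S, (u, z) ∈ A with hU
  set A0 := A.filter fun e => e.1 ∉ S ∧ e.2 ∉ S with hA0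
  have hA0A : A0 ⊆ A := filter_subset _ _
  have hUY : ∀ u ∈ U, ∀ y ∈ Y, ∃ z, (u, z) ∈ A ∧ ∃ t ≤ (R : ℝ) + 4 * D, Wk A (tw a) z y t := by
    intro u hu y hy
    obtain ⟨-, z, hz, huz⟩ := mem_filter.1 hu
    obtain ⟨s, h5, h6⟩ := hSx z hz
    obtain ⟨-, -, t, h3, h4⟩ := hYx y hy
    exact ⟨z, huz, s + t, by linarith, h6.trans h4⟩
  have hcyc := lift_cyc (U := U) (Y := Y) hA0A hc (by positivity) hUY
  have hcard : (W \ S).card + S.card = n := by rw [card_sdiff_add_card_eq_card hSW, hn]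
  have hSpos : 0 < S.card := card_pos.2 ⟨x, hxS⟩
  have hYne : Y.Nonempty := card_pos.1 (by omega)
  have key := ih (W \ S).card (by omega) (W \ S) (A0 ∪ U ×ˢ Y) _ rfl
    (by obtain ⟨y, hy⟩ := hYne; exact ⟨y, hYS y hy⟩)
    (by
      intro e he
      rcases mem_union.1 he with he | he
      · obtain ⟨h1, h2, h3⟩ := mem_filter.1 he
        exact ⟨mem_sdiff.2 ⟨(hi e h1).1, h2⟩, mem_sdiff.2 ⟨(hi e h1).2, h3⟩⟩
      · obtain ⟨h1, h2⟩ := mem_product.1 he
        exact ⟨(mem_filter.1 h1).1, hYS _ h2⟩)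
    (by
      intro e he
      rcases mem_union.1 he with he | he
      · exact hl e (hA0A he)
      · obtain ⟨h1, h2⟩ := mem_product.1 he
        intro heq
        obtain ⟨z, hz, t, ht, hw⟩ := hUY _ h1 _ h2
        rw [← heq] at hw
        have h3 := hc _ _ _ hz hw
        have h4 : (a e.1 : ℝ) ≤ D := by
          exact_mod_cast (hd _ (mem_sdiff.1 (mem_filter.1 h1).1).1).2.2
        simp only [tw] at h3
        linarith)
    hcyc
    (by
      intro u hu
      obtain ⟨d1, d2, d3⟩ := hd u (mem_sdiff.1 hu).1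
      by_cases huU : u ∈ U
      · have : Y ⊆ nb (A0 ∪ U ×ˢ Y) u := fun y hy =>
          mem_nb.2 (mem_union_right _ (mem_product.2 ⟨huU, hy⟩))
        have := card_le_card this
        rw [card_nb] at this
        omega
      · have : nb A u ⊆ nb (A0 ∪ U ×ˢ Y) u := by
          intro y hy
          have hy' := mem_nb.1 hy
          refine mem_nb.2 (mem_union_left _ (mem_filter.2 ⟨hy', (mem_sdiff.1 hu).2, ?_⟩))
          intro hyS
          exact huU (mem_filter.2 ⟨hu, y, hyS, hy'⟩)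
        have := card_le_card this
        rw [card_nb, card_nb] at this
        omega)
  have hc' : ((W \ S).card : ℝ) = n - S.card := by
    rw [← hcard]; push_cast; ring
  rw [hc'] at key
  exact arith_step hD' hL hR1 hR2 hS key

end Pool.Agent.MP_2634a8_co.H32

end

-- part MP_2634a8_co.H32.Greedy
section

namespace Pool.Agent.MP_2634a8_co.H32

open Finset

variable {V : Type} [DecidableEq V] [Fintype V]

lemma sum_tail (F : Finset (V × V)) (g : V → ℝ) : ∑ e ∈ F, g e.1 = ∑ v, (od F v : ℝ) * g v := by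
  rw [← sum_fiberwise_of_maps_to (s := F) (t := univ) (g := fun e => e.1) (fun _ _ => mem_univ _)]
  apply sum_congr rfl
  intro v _
  rw [sum_congr rfl (g := fun _ => g v) (fun e he => by rw [(mem_filter.1 he).2]), sum_const,
    nsmul_eq_mul]
  rfl

lemma sum_head (F : Finset (V × V)) (g : V → ℝ) : ∑ e ∈ F, g e.2 = ∑ v, (idg F v : ℝ) * g v := by
  rw [← sum_fiberwise_of_maps_to (s := F) (t := univ) (g := fun e => e.2) (fun _ _ => mem_univ _)]
  apply sum_congr rfl
  intro v _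
  rw [sum_congr rfl (g := fun _ => g v) (fun e he => by rw [(mem_filter.1 he).2]), sum_const,
    nsmul_eq_mul]
  rfl

lemma short_set {A : Finset (V × V)} {D : ℕ} (hA : A.Nonempty) (hb : Bl A) (hl : Loopless A)
    (hD : ∀ v, od A v ≤ D) : ∃ F : Finset (V × V), F.Nonempty ∧ Bl F ∧ F ⊆ A ∧
      ∑ e ∈ F, (od A e.1 : ℝ) ≤ Fintype.card V + 22 * √(Fintype.card V * D) ∧
      ∑ e ∈ F, (od A e.1 : ℝ) ≤ 2 * Fintype.card V := by
  by_contra hcon
  push Not at hcon
  set n : ℝ := (Fintype.card V : ℝ) with hn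
  set Λ := min (n + 22 * √(n * D)) (2 * n) with hΛ
  have hc : Cyc A (tw (od A)) Λ := by
    apply cyc_of_sets (tw_nonneg _)
    intro F h1 h2 h3
    by_cases h : ∑ e ∈ F, (od A e.1 : ℝ) ≤ n + 22 * √(n * D)
    · exact (min_le_right _ _).trans (hcon F h1 h2 h3 h).le
    · push Not at h; exact (min_le_left _ _).trans h.le
  set W : Finset V := univ.filter fun v => od A v ≠ 0 with hW
  have hpos : ∀ e ∈ A, od A e.1 ≠ 0 := fun e he =>
    card_ne_zero.2 ⟨e, mem_filter.2 ⟨he, rfl⟩⟩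
  have hi : Ins A W := by
    intro e he
    refine ⟨mem_filter.2 ⟨mem_univ _, hpos e he⟩, mem_filter.2 ⟨mem_univ _, ?_⟩⟩
    rw [hb]
    exact card_ne_zero.2 ⟨e, mem_filter.2 ⟨he, rfl⟩⟩
  obtain ⟨e, he⟩ := hA
  have hWne : W.Nonempty := ⟨_, (hi e he).1⟩
  have hD1 : 1 ≤ D := by have := hpos e he; have := hD e.1; omega
  have hD' : (1 : ℝ) ≤ D := by exact_mod_cast hD1
  have hWn : (W.card : ℝ) ≤ n := by rw [hn]; exact_mod_cast card_le_univ W
  have hW1 : (1 : ℝ) ≤ W.card := by exact_mod_cast card_pos.2 hWne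
  have hs : 0 < √(n * D) := Real.sqrt_pos.2 (by nlinarith)
  have hΛ0 : 0 < Λ := lt_min (by linarith) (by linarith)
  have h1 := two_n (ε := 1) hWne hi hl hc hΛ0 (fun u hu => by
    have := (mem_filter.1 hu).2
    exact ⟨by omega, by simp⟩)
  have h2 := wch D hD1 (od A) _ W A Λ rfl hWne hi hl hc (fun u hu => by
    have := (mem_filter.1 hu).2
    exact ⟨by omega, le_rfl, hD u⟩)
  have h3 : √(Λ * D) ≤ 143 / 100 * √(n * D) := by
    apply Real.sqrt_le_iff.2
    refine ⟨by positivity, ?_⟩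
    rw [mul_pow, Real.sq_sqrt (by nlinarith)]
    nlinarith
  have h4 : Λ = n + 22 * √(n * D) := by
    rcases min_choice (n + 22 * √(n * D)) (2 * n) with h | h
    · exact h
    · rw [← hΛ] at h; linarith
  linarith

theorem greedy (D : ℕ) : ∀ (m : ℕ) (A : Finset (V × V)), A.card = m → Bl A → Loopless A →
    (∀ v, od A v ≤ D) → ∃ t : ℕ, Pk t A ∧
      ∑ v, (od A v : ℝ) * (od A v + 1) / 2 ≤
        t * (Fintype.card V + 22 * √(Fintype.card V * D)) := by
  intro m
  induction m using Nat.strong_induction_on with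
  | _ m ih =>
  intro A hm hb hl hD
  rcases A.eq_empty_or_nonempty with rfl | hA
  · exact ⟨0, Pk.zero _, by simp [od]⟩
  obtain ⟨F, f1, f2, f3, f4, -⟩ := short_set hA hb hl hD
  have hlt : (A \ F).card < m := by
    rw [← hm]; exact card_lt_card (sdiff_ssubset f3 f1)
  obtain ⟨t, p1, p2⟩ := ih _ hlt (A \ F) rfl (hb.sdiff f2 f3)
    (fun e he => hl e (mem_sdiff.1 he).1)
    (fun v => by have := od_sdiff f3 v; have := hD v; omega)
  refine ⟨t + 1, ?_, ?_⟩
  · have := p1.union (Pk.one f1 f2) sdiff_disjoint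
    rwa [sdiff_union_of_subset f3] at this
  · rw [sum_tail F (fun v => (od A v : ℝ))] at f4
    have : ∑ v, (od A v : ℝ) * (od A v + 1) / 2 ≤
        ∑ v, ((od (A \ F) v : ℝ) * (od (A \ F) v + 1) / 2 + od F v * od A v) := by
      apply sum_le_sum
      intro v _
      rw [← od_sdiff f3 v]
      push_cast
      rcases Nat.eq_zero_or_pos (od F v) with h | h
      · rw [h]; simp
      · have h' : (1 : ℝ) ≤ od F v := by exact_mod_cast h
        nlinarith
    rw [sum_add_distrib] at this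
    push_cast
    linarith

theorem large_order {V : Type} [Finite V] (G : Digraph V) (k : ℕ) (hG : IsRegularDigraph G k)
    (hn : 200 * k ^ 5 ≤ Nat.card V) : HasArcDisjointCycles G ((k + 1).choose 2) := by
  classical
  let := Fintype.ofFinite V
  obtain ⟨A, a1, a2, a3, a4⟩ := exists_arcs G k hG
  apply pk_cycles G (A := A) _ hG.1 (fun e he => (a1 e).1 he)
  rcases Nat.eq_zero_or_pos k with rfl | hk
  · exact Pk.zero _
  obtain ⟨t, p1, p2⟩ := greedy k _ A rfl (fun v => by rw [a3, a4]) a2 (fun v => (a3 v).le)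
  apply p1.le
  by_contra hcon
  push Not at hcon
  rw [Nat.card_eq_fintype_card] at hn
  set n : ℝ := (Fintype.card V : ℝ) with hn'
  have hk' : (1 : ℝ) ≤ k := by exact_mod_cast hk
  have hnk : 200 * (k : ℝ) ^ 5 ≤ n := by rw [hn']; exact_mod_cast hn
  simp only [a3, sum_const, card_univ, nsmul_eq_mul] at p2
  rw [← hn'] at p2
  have ht : (t : ℝ) + 1 ≤ k * (k + 1) / 2 := by
    have h1 : ((t + 1 : ℕ) : ℝ) ≤ ((k + 1).choose 2 : ℕ) := by exact_mod_cast hcon
    rw [Nat.cast_choose_two] at h1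
    push_cast at h1
    linarith
  have hk5 : (1 : ℝ) ≤ (k : ℝ) ^ 5 := one_le_pow₀ hk'
  have hn0 : 0 < n := by linarith
  set s := √(n * k) with hs
  have hs0 : 0 < s := Real.sqrt_pos.2 (by positivity)
  have hs2 : s ^ 2 = n * k := Real.sq_sqrt (by positivity)
  have ht0 : (0 : ℝ) ≤ t := by positivity
  have h1 : n ≤ 22 * t * s := by nlinarith
  have h2 : 22 * (t : ℝ) ≤ 14 * k ^ 2 := by nlinarith
  have h3 : n ≤ 14 * k ^ 2 * s := h1.trans (mul_le_mul_of_nonneg_right h2 hs0.le)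
  have h4 : n ^ 2 ≤ (14 * k ^ 2 * s) ^ 2 := pow_le_pow_left₀ hn0.le h3 2
  have h5 : (14 * (k : ℝ) ^ 2 * s) ^ 2 = n * (196 * k ^ 5) := by
    rw [mul_pow, hs2]; ring
  nlinarith

end Pool.Agent.MP_2634a8_co.H32

end
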