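import Mathlib
import Pool.Agent.MP_2634a8_co.Mg.H32_Greedy

namespace Pool.Agent.MP_2634a8_co.H32

open Finset

theorem lp_dual {α : Type} [Fintype α] [DecidableEq α] (K : Finset (Finset α)) (P : ℝ)
    (h : ∀ w : α → ℝ, (∀ a, 0 ≤ w a) → (∀ C ∈ K, 1 ≤ ∑ a ∈ C, w a) → P ≤ ∑ a, w a) :
    ∃ y : Finset α → ℝ, (∀ C, 0 ≤ y C) ∧ (∀ C, y C ≠ 0 → C ∈ K) ∧
      (∀ a, ∑ C ∈ univ.filter (fun C => a ∈ C), y C ≤ 1) ∧ P ≤ ∑ C, y C := by
  rcases le_or_gt P 0 with hP | hP
  · exact ⟨0, by simp, by simp, by simp, by simpa using hP⟩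
  let T : (K → ℝ) →ₗ[ℝ] (α → ℝ) :=
    { toFun := fun y a => ∑ i : K, if a ∈ i.1 then P * y i else 0
      map_add' := by
        intro x y; funext a
        simp only [Pi.add_apply, ← sum_add_distrib]
        apply sum_congr rfl; intro i _; split_ifs <;> ring
      map_smul' := by
        intro c x; funext a
        simp only [Pi.smul_apply, smul_eq_mul, RingHom.id_apply, mul_sum]
        apply sum_congr rfl; intro i _; split_ifs <;> ring }
  have hT : ∀ y a, T y a = ∑ i : K, if a ∈ i.1 then P * y i else 0 := fun _ _ => rfl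
  by_cases hd : Disjoint (T '' stdSimplex ℝ K) (Set.Iic (1 : α → ℝ))
  · exfalso
    obtain ⟨f, u, v, h1, h2, h3⟩ := geometric_hahn_banach_compact_closed
      ((convex_stdSimplex ℝ K).linear_image T)
      ((isCompact_stdSimplex ℝ K).image T.continuous_of_finiteDimensional)
      (convex_Iic _) isClosed_Iic hd
    set w : α → ℝ := fun a => -f (fun j => if a = j then 1 else 0) with hw
    have hf : ∀ x : α → ℝ, f x = -∑ a, x a * w a := by
      intro x
      have := LinearMap.pi_apply_eq_sum_univ (f : (α → ℝ) →ₗ[ℝ] ℝ) x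
      simp only [ContinuousLinearMap.coe_coe, smul_eq_mul] at this
      rw [this]; simp [hw]
    have hw0 : ∀ a, 0 ≤ w a := by
      intro a
      by_contra hc
      push Not at hc
      set t := (v + ∑ b, w b) / w a with ht
      have h4 := h3 1 Set.self_mem_Iic
      rw [hf] at h4
      simp only [Pi.one_apply, one_mul] at h4
      have ht0 : 0 ≤ t := div_nonneg_of_nonpos (by linarith) hc.le
      have h5 := h3 (fun b => 1 - if b = a then t else 0) (by
        intro b; simp only [Pi.one_apply]; split_ifs <;> linarith)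
      rw [hf] at h5
      simp only [sub_mul, one_mul, sum_sub_distrib, ite_mul, zero_mul, sum_ite_eq', mem_univ,
        if_true] at h5
      rw [ht, div_mul_cancel₀ _ hc.ne] at h5
      linarith
    have h4 := h3 1 Set.self_mem_Iic
    rw [hf] at h4
    simp only [Pi.one_apply, one_mul] at h4
    have h6 : ∀ C ∈ K, -u < P * ∑ a ∈ C, w a := by
      intro C hC
      have h7 := h1 _ ⟨_, single_mem_stdSimplex ℝ (⟨C, hC⟩ : K), rfl⟩
      rw [hf] at h7
      have e : ∑ a, T (Pi.single ⟨C, hC⟩ 1) a * w a = P * ∑ a ∈ C, w a := by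
        have e1 : ∀ a, T (Pi.single ⟨C, hC⟩ 1) a = if a ∈ C then P else 0 := by
          intro a
          rw [hT, sum_eq_single ⟨C, hC⟩]
          · simp
          · intro i _ hi; simp [Pi.single_apply, hi]
          · simp
        simp only [e1, ite_mul, zero_mul, sum_ite_mem, univ_inter, mul_sum]
      rw [e] at h7
      linarith
    have hs0 : 0 ≤ ∑ a, w a := sum_nonneg fun a _ => hw0 a
    have hu : 0 < -u := by linarith
    have h8 := h (fun a => w a * (P / -u)) (fun a => mul_nonneg (hw0 a) (by positivity)) (by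
      intro C hC
      rw [← sum_mul, ← mul_div_assoc, le_div_iff₀ hu]
      linarith [h6 C hC])
    rw [← sum_mul, ← mul_div_assoc, le_div_iff₀ hu] at h8
    nlinarith
  · rw [Set.not_disjoint_iff] at hd
    obtain ⟨x, ⟨y, hy, rfl⟩, hx⟩ := hd
    refine ⟨fun C => if hC : C ∈ K then P * y ⟨C, hC⟩ else 0, ?_, ?_, ?_, ?_⟩
    · intro C
      by_cases hC : C ∈ K
      · simp only [hC, dif_pos]; exact mul_nonneg hP.le (hy.1 _)
      · simp [hC]
    · intro C hC
      by_contra hc; simp [hc] at hC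
    · intro a
      refine le_trans (le_of_eq ?_) (hx a)
      rw [hT, sum_filter]
      rw [← sum_subset (subset_univ K) (by intro C _ hC; simp [hC]), ← sum_coe_sort K]
      apply sum_congr rfl
      intro i _
      simp
    · rw [← sum_subset (subset_univ K) (by intro C _ hC; simp [hC]), ← sum_coe_sort K]
      have : ∑ i : K, (if hC : i.1 ∈ K then P * y ⟨i.1, hC⟩ else 0) = ∑ i : K, P * y i := by
        apply sum_congr rfl; intro i _; simp
      rw [this, ← mul_sum, hy.2, mul_one]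

variable {V : Type} [DecidableEq V] [Fintype V]

lemma sum_nb (A : Finset (V × V)) (g : V × V → ℝ) :
    ∑ e ∈ A, g e = ∑ u, ∑ v ∈ nb A u, g (u, v) := by
  rw [← sum_fiberwise_of_maps_to (s := A) (t := univ) (g := fun e => e.1) (fun _ _ => mem_univ _)]
  apply sum_congr rfl
  intro u _
  unfold nb
  rw [sum_image]
  · apply sum_congr rfl
    rintro ⟨a, b⟩ he
    have := (mem_filter.1 he).2
    simp only at this
    rw [this]
  · rintro ⟨a, b⟩ h ⟨c, d⟩ h' hh
    simp only [coe_filter, Set.mem_setOf_eq] at h h' hh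
    rw [h.2, h'.2, hh]

lemma dual_bound {A : Finset (V × V)} {W : Finset V} {w : V × V → ℝ} (hi : Ins A W)
    (hl : Loopless A) (hw : ∀ e, 0 ≤ w e) (hc : Cyc A w 1) :
    ∑ u, (od A u : ℝ) * (od A u + 1) / 2 ≤
      W.card * (∑ e ∈ A, w e + ∑ v, |(idg A v : ℝ) - od A v|) := by
  obtain ⟨p, p1, p2, p3, p4, p5, p6⟩ := exists_pot hw hc
  have h1 : ∑ u, (od A u : ℝ) * (od A u + 1) / 2 ≤
      ∑ u, ∑ v ∈ nb A u, ∑ z ∈ W, (w (u, v) + p z v - p z u) := by
    apply sum_le_sum
    intro u _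
    by_cases hu : u ∈ W
    · exact cherry hl p3 p4 p5 p6 hu (fun v hv => (hi _ (mem_nb.1 hv)).2)
    · have : nb A u = ∅ := by
        rw [eq_empty_iff_forall_notMem]
        intro v hv
        exact hu (hi _ (mem_nb.1 hv)).1
      rw [← card_nb, this]; simp
  refine h1.trans ?_
  rw [← sum_nb A (fun e => ∑ z ∈ W, (w e + p z e.2 - p z e.1)), sum_comm, ← nsmul_eq_mul,
    ← sum_const]
  apply sum_le_sum
  intro z _
  rw [sum_sub_distrib, sum_add_distrib, sum_head A (p z), sum_tail A (p z), add_sub_assoc,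
    ← sum_sub_distrib]
  gcongr with v _
  rw [← sub_mul]
  calc ((idg A v : ℝ) - od A v) * p z v ≤ |(idg A v : ℝ) - od A v| * p z v :=
        mul_le_mul_of_nonneg_right (le_abs_self _) (p1 z v)
    _ ≤ |(idg A v : ℝ) - od A v| * 1 := mul_le_mul_of_nonneg_left (p2 z v) (abs_nonneg _)
    _ = _ := mul_one _

/-- fractional packing of nonempty balanced arc sets -/
theorem frac_pack {A : Finset (V × V)} {W : Finset V} (hi : Ins A W) (hl : Loopless A) {P : ℝ}
    (hP : W.card * (P + ∑ v, |(idg A v : ℝ) - od A v|) ≤ ∑ u, (od A u : ℝ) * (od A u + 1) / 2)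
    (hW : W.Nonempty) :
    ∃ y : Finset (V × V) → ℝ, (∀ C, 0 ≤ y C) ∧ (∀ C, y C ≠ 0 → C.Nonempty ∧ Bl C ∧ C ⊆ A) ∧
      (∀ a, ∑ C ∈ univ.filter (fun C => a ∈ C), y C ≤ 1) ∧ P ≤ ∑ C, y C := by
  classical
  obtain ⟨y, h1, h2, h3, h4⟩ := lp_dual
    (univ.filter fun C : Finset (V × V) => C.Nonempty ∧ Bl C ∧ C ⊆ A) P (by
      intro w hw hC
      have hc : Cyc A w 1 := cyc_of_sets hw fun F f1 f2 f3 =>
        hC F (mem_filter.2 ⟨mem_univ _, f1, f2, f3⟩)
      have h5 := hP.trans (dual_bound hi hl hw hc)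
      have h6 : (0 : ℝ) < W.card := by exact_mod_cast card_pos.2 hW
      have h7 := le_of_mul_le_mul_left h5 h6
      have h8 : ∑ e ∈ A, w e ≤ ∑ e, w e :=
        sum_le_sum_of_subset_of_nonneg (subset_univ _) fun e _ _ => hw e
      linarith)
  exact ⟨y, h1, fun C hC => (mem_filter.1 (h2 C hC)).2, h3, h4⟩

theorem fractional {V : Type} [Finite V] [Nonempty V] (G : Digraph V) (k : ℕ)
    (hG : IsRegularDigraph G k) :
    ∃ (t : ℕ) (c : Fin t → DiCycle G) (y : Fin t → ℝ), (∀ i, 0 ≤ y i) ∧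
      (∀ (e : V × V) (s : Finset (Fin t)), (∀ i ∈ s, e ∈ (c i).arcs) → ∑ i ∈ s, y i ≤ 1) ∧
      ((k + 1).choose 2 : ℝ) ≤ ∑ i, y i := by
  classical
  let := Fintype.ofFinite V
  obtain ⟨A, a1, a2, a3, a4⟩ := exists_arcs G k hG
  obtain ⟨y, h1, h2, h3, h4⟩ := frac_pack (A := A) (W := univ) (P := ((k + 1).choose 2 : ℝ))
    (fun _ _ => ⟨mem_univ _, mem_univ _⟩) a2 (by
      simp only [a3, a4, sub_self, abs_zero, sum_const_zero, add_zero, sum_const, nsmul_eq_mul]
      rw [Nat.cast_choose_two]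
      push_cast
      apply le_of_eq; ring) univ_nonempty
  set M : Finset (Finset (V × V)) := univ.filter fun C => y C ≠ 0 with hM
  have : ∀ F : M, ∃ c : DiCycle G, ∀ e ∈ c.arcs, e ∈ F.1 := fun F =>
    have hF := h2 F.1 (mem_filter.1 F.2).2
    exists_dicycle G hF.1 hF.2.1 hG.1 (fun e he => (a1 e).1 (hF.2.2 he))
  choose c hc using this
  refine ⟨M.card, fun i => c (M.equivFin.symm i), fun i => y (M.equivFin.symm i).1,
    fun i => h1 _, ?_, ?_⟩
  · intro e s hs
    refine le_trans ?_ (h3 e)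
    have hinj : Function.Injective fun i : Fin M.card => (M.equivFin.symm i).1 :=
      fun i j h => M.equivFin.symm.injective (Subtype.ext h)
    rw [← sum_image (s := s) (g := fun i : Fin M.card => (M.equivFin.symm i).1) (f := y)
      (fun i _ j _ h => hinj h)]
    apply sum_le_sum_of_subset_of_nonneg
    · intro F hF
      obtain ⟨i, hi, rfl⟩ := mem_image.1 hF
      exact mem_filter.2 ⟨mem_univ _, hc _ e (hs i hi)⟩
    · intro F _ _
      exact h1 F
  · refine h4.trans (le_of_eq ?_)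
    rw [Equiv.sum_comp M.equivFin.symm (fun F : M => y F.1), sum_coe_sort M y, hM,
      sum_filter_ne_zero]

end Pool.Agent.MP_2634a8_co.H32
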