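import Mathlib
import Pool.Agent.MP_2634a8_co.Mg.H32_LP

-- part MP_2634a8_co.H32.Prob
section

namespace Pool.Agent.MP_2634a8_co.H32

open Finset

variable {ι : Type} [Fintype ι] [DecidableEq ι]

def mu (p : ι → ℝ) (X : Finset ι) : ℝ := (∏ i ∈ X, p i) * ∏ i ∈ univ \ X, (1 - p i)

lemma mu_nonneg {p : ι → ℝ} (h0 : ∀ i, 0 ≤ p i) (h1 : ∀ i, p i ≤ 1) (X : Finset ι) :
    0 ≤ mu p X :=
  mul_nonneg (prod_nonneg fun i _ => h0 i) (prod_nonneg fun i _ => sub_nonneg.2 (h1 i))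

lemma sum_mu_gen (p : ι → ℝ) {I O : Finset ι} (hd : Disjoint I O) :
    ∑ X, mu p X * (if I ⊆ X ∧ Disjoint X O then 1 else 0) =
      (∏ i ∈ I, p i) * ∏ i ∈ O, (1 - p i) := by
  have h := prod_add (fun i => if i ∈ O then 0 else p i) (fun i => if i ∈ I then 0 else 1 - p i)
    (univ : Finset ι)
  rw [powerset_univ] at h
  have e1 : ∏ i, ((if i ∈ O then 0 else p i) + if i ∈ I then 0 else 1 - p i) =
      (∏ i ∈ I, p i) * ∏ i ∈ O, (1 - p i) := by
    rw [← univ_inter I, ← univ_inter O, ← prod_ite_mem, ← prod_ite_mem, ← prod_mul_distrib]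
    simp only [univ_inter]
    apply prod_congr rfl
    intro i _
    by_cases h1 : i ∈ I
    · have h2 : i ∉ O := disjoint_left.1 hd h1
      simp [h1, h2]
    · by_cases h2 : i ∈ O <;> simp [h1, h2]
  rw [← e1, h]
  apply sum_congr rfl
  intro X _
  split_ifs with hc
  · rw [mul_one, mu]
    congr 1
    · apply prod_congr rfl
      intro i hi
      rw [if_neg (disjoint_left.1 hc.2 hi)]
    · apply prod_congr rfl
      intro i hi
      rw [if_neg (fun h => (mem_sdiff.1 hi).2 (hc.1 h))]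
  · rw [mul_zero]
    rw [not_and_or] at hc
    rcases hc with hc | hc
    · obtain ⟨i, hi, hi'⟩ := not_subset.1 hc
      rw [prod_eq_zero (s := univ \ X) (i := i) (by simp [hi']) (by simp [hi]), mul_zero]
    · obtain ⟨i, hi, hi'⟩ := not_disjoint_iff.1 hc
      rw [prod_eq_zero (s := X) (i := i) hi (by simp [hi']), zero_mul]

lemma sum_mu (p : ι → ℝ) : ∑ X, mu p X = 1 := by
  simpa using sum_mu_gen p (I := ∅) (O := ∅) (by simp)

lemma sum_mu_in (p : ι → ℝ) (I : Finset ι) :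
    ∑ X, mu p X * (if I ⊆ X then 1 else 0) = ∏ i ∈ I, p i := by
  simpa using sum_mu_gen p (I := I) (O := ∅) (by simp)

lemma sum_mu_out (p : ι → ℝ) (O : Finset ι) :
    ∑ X, mu p X * (if Disjoint X O then 1 else 0) = ∏ i ∈ O, (1 - p i) := by
  simpa using sum_mu_gen p (I := ∅) (O := O) (by simp)

lemma exists_ge_avg {p : ι → ℝ} (h0 : ∀ i, 0 ≤ p i) (h1 : ∀ i, p i ≤ 1) (g : Finset ι → ℝ)
    {c : ℝ} (h : c ≤ ∑ X, mu p X * g X) : ∃ X, c ≤ g X := by
  obtain ⟨X, -, hX⟩ := exists_max_image univ g univ_nonempty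
  refine ⟨X, h.trans ?_⟩
  calc ∑ Y, mu p Y * g Y ≤ ∑ Y, mu p Y * g X :=
        sum_le_sum fun Y _ => mul_le_mul_of_nonneg_left (hX Y (mem_univ _)) (mu_nonneg h0 h1 Y)
    _ = g X := by rw [← sum_mul, sum_mu, one_mul]

omit [Fintype ι] in
lemma weier (s : Finset ι) (x : ι → ℝ) (h0 : ∀ i ∈ s, 0 ≤ x i) (h1 : ∀ i ∈ s, x i ≤ 1) :
    1 - ∑ i ∈ s, (1 - x i) ≤ ∏ i ∈ s, x i := by
  induction s using Finset.induction_on with
  | empty => simp
  | insert a s ha ih =>
    rw [sum_insert ha, prod_insert ha]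
    have ih' := ih (fun i hi => h0 i (mem_insert_of_mem hi)) (fun i hi => h1 i (mem_insert_of_mem hi))
    have a0 := h0 a (mem_insert_self _ _)
    have a1 := h1 a (mem_insert_self _ _)
    have b0 : 0 ≤ ∑ i ∈ s, (1 - x i) :=
      sum_nonneg fun i hi => sub_nonneg.2 (h1 i (mem_insert_of_mem hi))
    nlinarith [mul_le_mul_of_nonneg_left ih' a0]

end Pool.Agent.MP_2634a8_co.H32

end

-- part MP_2634a8_co.H32.Sample
section

namespace Pool.Agent.MP_2634a8_co.H32

open Finset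

variable {V : Type} [DecidableEq V] [Fintype V]

def res (A : Finset (V × V)) (S : Finset V) : Finset (V × V) :=
  A.filter fun e => e.1 ∈ S ∧ e.2 ∈ S

def ins (I S : Finset V) : ℝ := if I ⊆ S then 1 else 0

lemma exp_ins (ρ : ℝ) (I : Finset V) : ∑ S, mu (fun _ : V => ρ) S * ins I S = ρ ^ I.card := by
  unfold ins; rw [sum_mu_in, prod_const]

omit [Fintype V] in
lemma ins_mul (I J S : Finset V) : ins I S * ins J S = ins (I ∪ J) S := by
  unfold ins
  simp only [union_subset_iff]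
  by_cases h : I ⊆ S <;> by_cases h' : J ⊆ S <;> simp [h, h']

omit [Fintype V] in
lemma cher_eq (A : Finset (V × V)) (S : Finset V) (u : V) :
    (od (res A S) u : ℝ) * (od (res A S) u - 1) =
      ∑ x ∈ (nb A u).offDiag, ins {u, x.1, x.2} S := by
  unfold ins
  rw [sum_boole]
  have : (nb A u).offDiag.filter (fun x => {u, x.1, x.2} ⊆ S) = (nb (res A S) u).offDiag := by
    ext x
    simp only [mem_filter, mem_offDiag, mem_nb, res, insert_subset_iff, singleton_subset_iff]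
    tauto
  rw [this, offDiag_card, card_nb, Nat.cast_sub (Nat.le_mul_self _)]
  push_cast; ring

lemma card_eq_ins (S : Finset V) : (S.card : ℝ) = ∑ x, ins {x} S := by
  unfold ins; simp

lemma exp_three {s : ℝ} (hs : 0 < s) (hsn : s ≤ Fintype.card V) {I : Finset V} (hI : I.card = 3) :
    (s / Fintype.card V) ^ 3 * (1 / s - 3 / s ^ 2) ≤
      ∑ S, mu (fun _ : V => s / Fintype.card V) S * (ins I S * (2 / s - S.card / s ^ 2)) := by
  set n : ℝ := (Fintype.card V : ℝ) with hn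
  have n0 : 0 < n := by linarith
  set ρ := s / n with hρ
  have ρ0 : 0 < ρ := by positivity
  have e1 : ∑ S, mu (fun _ : V => ρ) S * (ins I S * (2 / s - S.card / s ^ 2)) =
      2 / s * ρ ^ 3 - (∑ x, ρ ^ (I ∪ {x}).card) / s ^ 2 := by
    rw [← hI, ← exp_ins ρ I]
    simp only [← exp_ins ρ (I ∪ {_}), ← ins_mul]
    rw [sum_comm, mul_sum, sum_div, ← sum_sub_distrib]
    apply sum_congr rfl
    intro S _
    rw [card_eq_ins, ← mul_sum, ← mul_sum]
    ring
  have e2 : ∑ x, ρ ^ (I ∪ {x}).card ≤ ∑ x, ((if x ∈ I then ρ ^ 3 else 0) + ρ ^ 4) := by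
    apply sum_le_sum
    intro x _
    by_cases hx : x ∈ I
    · rw [union_eq_left.2 (by simpa using hx), hI, if_pos hx]
      have : 0 < ρ ^ 4 := by positivity
      linarith
    · rw [card_union_of_disjoint (by simpa using hx), hI, if_neg hx]; simp
  rw [sum_add_distrib, sum_ite_mem, univ_inter, sum_const, sum_const, hI, card_univ, nsmul_eq_mul,
    nsmul_eq_mul, ← hn] at e2
  have e3 : n * ρ ^ 4 = s * ρ ^ 3 := by rw [hρ]; field_simp
  rw [e1]
  have e4 : (∑ x, ρ ^ (I ∪ {x}).card) / s ^ 2 ≤ (3 * ρ ^ 3 + s * ρ ^ 3) / s ^ 2 := by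
    gcongr
    push_cast at e2; linarith
  have e5 : ρ ^ 3 * (1 / s - 3 / s ^ 2) = 2 / s * ρ ^ 3 - (3 * ρ ^ 3 + s * ρ ^ 3) / s ^ 2 := by
    field_simp; ring
  linarith

lemma exp_cher {A : Finset (V × V)} (hl : Loopless A) {s : ℝ} (hs : 0 < s)
    (hsn : s ≤ Fintype.card V) :
    (s / Fintype.card V) ^ 3 * (1 / s - 3 / s ^ 2) * ∑ u, (od A u : ℝ) * (od A u - 1) ≤
      ∑ S, mu (fun _ : V => s / Fintype.card V) S *
        ((∑ u, (od (res A S) u : ℝ) * (od (res A S) u - 1)) * (2 / s - S.card / s ^ 2)) := by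
  simp only [cher_eq, sum_mul, mul_sum]
  rw [sum_comm]
  apply sum_le_sum
  intro u _
  rw [sum_comm]
  have e : (od A u : ℝ) * (od A u - 1) = (nb A u).offDiag.card := by
    rw [offDiag_card, card_nb, Nat.cast_sub (Nat.le_mul_self _)]
    push_cast; ring
  rw [e, mul_comm, ← nsmul_eq_mul, ← sum_const]
  apply sum_le_sum
  intro x hx
  obtain ⟨h1, h2, h3⟩ := mem_offDiag.1 hx
  apply exp_three hs hsn
  rw [card_eq_three]
  exact ⟨u, x.1, x.2, hl _ (mem_nb.1 h1), hl _ (mem_nb.1 h2), h3, rfl⟩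

lemma od_eq_sum (A : Finset (V × V)) (v : V) :
    (od A v : ℝ) = ∑ x, if (v, x) ∈ A then 1 else 0 := by
  rw [sum_boole, ← card_nb]
  congr 2
  ext x; simp [mem_nb]

lemma idg_eq_sum (A : Finset (V × V)) (v : V) :
    (idg A v : ℝ) = ∑ x, if (x, v) ∈ A then 1 else 0 := by
  rw [sum_boole]
  congr 1
  unfold idg
  apply card_bij (fun e _ => e.1)
  · rintro ⟨a, b⟩ he
    obtain ⟨h, rfl⟩ := mem_filter.1 he
    simpa using h
  · rintro ⟨a, b⟩ he ⟨c, d⟩ he' hh
    have := (mem_filter.1 he).2; have := (mem_filter.1 he').2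
    simp only at *
    simp [*]
  · intro a ha
    exact ⟨(a, v), mem_filter.2 ⟨by simpa using ha, rfl⟩, rfl⟩

lemma exp_imb {A : Finset (V × V)} (hl : Loopless A) (hb : Bl A) {ρ lam : ℝ} (h0 : 0 ≤ ρ)
    (h1 : ρ ≤ 1) (hlam : 0 < lam) (v : V) :
    ∑ S, mu (fun _ : V => ρ) S * |(idg (res A S) v : ℝ) - od (res A S) v| ≤
      lam / 2 * ρ + ρ ^ 2 * Fintype.card V / (2 * lam) := by
  set b : V → ℝ := fun x => (if (x, v) ∈ A then 1 else 0) - (if (v, x) ∈ A then 1 else 0) with hb'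
  have bv : b v = 0 := by simp [hb']
  have bs : ∑ x, b x = 0 := by
    rw [hb', sum_sub_distrib, ← od_eq_sum, ← idg_eq_sum, hb v, sub_self]
  have b2 : ∀ x, b x ^ 2 ≤ 1 := by
    intro x; simp only [hb']; split_ifs <;> norm_num
  have e1 : ∀ S, (idg (res A S) v : ℝ) - od (res A S) v = ∑ x, b x * ins {v, x} S := by
    intro S
    rw [od_eq_sum, idg_eq_sum, ← sum_sub_distrib]
    apply sum_congr rfl
    intro x _
    simp only [hb', res, ins, mem_filter, insert_subset_iff, singleton_subset_iff]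
    by_cases hv : v ∈ S <;> by_cases hx : x ∈ S <;> simp [hv, hx]
  have e2 : ∀ S, |(idg (res A S) v : ℝ) - od (res A S) v| ≤ lam / 2 * ins {v} S +
      (∑ x, ∑ y, b x * b y * ins ({v, x} ∪ {v, y}) S) / (2 * lam) := by
    intro S
    have e3 : ∑ x, ∑ y, b x * b y * ins ({v, x} ∪ {v, y}) S =
        ((idg (res A S) v : ℝ) - od (res A S) v) ^ 2 := by
      rw [e1, sq, sum_mul_sum]
      apply sum_congr rfl; intro x _
      apply sum_congr rfl; intro y _
      rw [← ins_mul]; ring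
    rw [e3]
    by_cases hv : v ∈ S
    · have : ins {v} S = 1 := by simp [ins, hv]
      rw [this, ← sq_abs, ← sub_le_iff_le_add', le_div_iff₀ (by positivity)]
      nlinarith [sq_nonneg (|(idg (res A S) v : ℝ) - od (res A S) v| - lam)]
    · have : (idg (res A S) v : ℝ) - od (res A S) v = 0 := by
        rw [e1]; apply sum_eq_zero; intro x _; simp [ins, insert_subset_iff, hv]
      rw [this]; simp [ins, hv]
  refine (sum_le_sum fun S _ => mul_le_mul_of_nonneg_left (e2 S)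
    (mu_nonneg (fun _ => h0) (fun _ => h1) S)).trans ?_
  have e4 : ∑ S, mu (fun _ : V => ρ) S * (lam / 2 * ins {v} S +
      (∑ x, ∑ y, b x * b y * ins ({v, x} ∪ {v, y}) S) / (2 * lam)) =
      lam / 2 * ρ + (∑ x, ∑ y, b x * b y * ρ ^ (({v, x} ∪ {v, y} : Finset V)).card) /
        (2 * lam) := by
    have a1 : ρ = ∑ S, mu (fun _ : V => ρ) S * ins {v} S := by rw [exp_ins]; simp
    have a2 : ∑ x, ∑ y, b x * b y * ρ ^ (({v, x} ∪ {v, y} : Finset V)).card =
        ∑ S, mu (fun _ : V => ρ) S * ∑ x, ∑ y, b x * b y * ins ({v, x} ∪ {v, y}) S := by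
      simp only [← exp_ins, mul_sum]
      symm
      rw [sum_comm]
      apply sum_congr rfl; intro x _
      rw [sum_comm]
      apply sum_congr rfl; intro y _
      apply sum_congr rfl; intro S _
      ring
    rw [a2]
    conv_rhs => rw [a1]
    rw [mul_sum, sum_div, ← sum_add_distrib]
    apply sum_congr rfl; intro S _
    rw [← a1]; ring
  rw [e4]
  gcongr
  have e5 : ∀ x y, b x * b y * ρ ^ (({v, x} ∪ {v, y} : Finset V)).card =
      ρ ^ 3 * (b x * b y) + if x = y then (ρ ^ 2 - ρ ^ 3) * b x ^ 2 else 0 := by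
    intro x y
    by_cases hx : x = v
    · subst hx; simp [bv]
    by_cases hy : y = v
    · subst hy; simp [bv, hx]
    by_cases hxy : x = y
    · subst hxy
      rw [union_self, card_pair (Ne.symm hx), if_pos rfl]; ring
    · have : (({v, x} ∪ {v, y} : Finset V)).card = 3 := by
        rw [card_eq_three]
        refine ⟨v, x, y, Ne.symm hx, Ne.symm hy, hxy, ?_⟩
        ext z; simp only [mem_union, mem_insert, mem_singleton]; tauto
      rw [this, if_neg hxy]; ring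
  simp only [e5, sum_add_distrib, ← mul_sum, ← sum_mul, bs, sum_ite_eq, mem_univ, if_true,
    mul_zero, zero_mul, zero_add]
  have e6 : ∑ x, b x ^ 2 ≤ Fintype.card V := by
    refine (sum_le_sum fun x _ => b2 x).trans ?_
    simp
  have e7 : 0 ≤ ∑ x, b x ^ 2 := sum_nonneg fun x _ => sq_nonneg _
  have e8 : 0 ≤ ρ ^ 3 := by positivity
  have e9 : 0 ≤ ρ ^ 2 := by positivity
  nlinarith [mul_nonneg e8 e7, mul_le_mul_of_nonneg_left e6 e9]

end Pool.Agent.MP_2634a8_co.H32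

end

-- part MP_2634a8_co.H32.Surv
section

namespace Pool.Agent.MP_2634a8_co.H32

open Finset

variable {α : Type} [Fintype α] [DecidableEq α]

def dg (w : Finset α → ℝ) (a : α) : ℝ := ∑ e ∈ univ.filter (fun e => a ∈ e), w e
def cdg (w : Finset α → ℝ) (a b : α) : ℝ := ∑ e ∈ univ.filter (fun e => a ∈ e ∧ b ∈ e), w e

structure FM (L : ℕ) (δ : ℝ) (w : Finset α → ℝ) : Prop where
  nonneg : ∀ e, 0 ≤ w e
  supp : ∀ e, w e ≠ 0 → e.Nonempty ∧ e.card ≤ L
  deg : ∀ a, dg w a ≤ 1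
  codeg : ∀ a b, a ≠ b → cdg w a b ≤ δ

def meet (F : Finset α) : Finset (Finset α) := univ.filter fun e => ¬ Disjoint e F
def sv (θ : ℝ) (w : Finset α → ℝ) (F : Finset α) : ℝ := ∏ e ∈ meet F, (1 - θ * w e)
def qq (θ : ℝ) (w : Finset α → ℝ) (a : α) : ℝ := sv θ w {a}

variable {L : ℕ} {δ θ : ℝ} {w : Finset α → ℝ}

lemma FM.dg_nonneg (h : FM L δ w) (a : α) : 0 ≤ dg w a := sum_nonneg fun e _ => h.nonneg e

lemma FM.le_one (h : FM L δ w) (e : Finset α) : w e ≤ 1 := by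
  by_cases h0 : w e = 0
  · rw [h0]; exact zero_le_one
  obtain ⟨a, ha⟩ := (h.supp e h0).1
  refine le_trans ?_ (h.deg a)
  exact single_le_sum (f := w) (fun e _ => h.nonneg e) (mem_filter.2 ⟨mem_univ _, ha⟩)

lemma FM.p0 (h : FM L δ w) (hθ : 0 ≤ θ) (e : Finset α) : 0 ≤ θ * w e :=
  mul_nonneg hθ (h.nonneg e)

lemma FM.p1 (h : FM L δ w) (hθ : 0 ≤ θ) (hθ1 : θ ≤ 1) (e : Finset α) : θ * w e ≤ 1 := by
  have := h.le_one e; have := h.nonneg e; nlinarith

lemma meet_single (a : α) : meet {a} = univ.filter fun e : Finset α => a ∈ e := by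
  ext e; simp [meet]

lemma meet_union (F F' : Finset α) : meet (F ∪ F') = meet F ∪ meet F' := by
  ext e; simp only [meet, mem_filter, mem_univ, true_and, mem_union, disjoint_union_right]; tauto

lemma meet_mono {F F' : Finset α} (h : F ⊆ F') : meet F ⊆ meet F' := by
  intro e he
  simp only [meet, mem_filter, mem_univ, true_and] at he ⊢
  exact fun hd => he (hd.mono_right h)

lemma FM.sv_nonneg (h : FM L δ w) (hθ : 0 ≤ θ) (hθ1 : θ ≤ 1) (F : Finset α) : 0 ≤ sv θ w F :=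
  prod_nonneg fun e _ => sub_nonneg.2 (h.p1 hθ hθ1 e)

lemma FM.sv_le_one (h : FM L δ w) (hθ : 0 ≤ θ) (hθ1 : θ ≤ 1) (F : Finset α) : sv θ w F ≤ 1 :=
  prod_le_one (fun e _ => sub_nonneg.2 (h.p1 hθ hθ1 e)) fun e _ => by linarith [h.p0 hθ e]

lemma FM.qq_ge (h : FM L δ w) (hθ : 0 ≤ θ) (hθ1 : θ ≤ 1) (a : α) :
    1 - θ * dg w a ≤ qq θ w a := by
  have := weier (meet {a}) (fun e => 1 - θ * w e) (fun e _ => sub_nonneg.2 (h.p1 hθ hθ1 e))
    (fun e _ => by linarith [h.p0 hθ e])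
  simp only [sub_sub_cancel] at this
  rw [← mul_sum, meet_single] at this
  unfold qq sv
  rw [meet_single]
  exact this

lemma FM.qq_ge' (h : FM L δ w) (hθ : 0 ≤ θ) (hθ1 : θ ≤ 1) (a : α) : 1 - θ ≤ qq θ w a := by
  have := h.qq_ge hθ hθ1 a
  have := h.deg a
  nlinarith

lemma prod_qq (θ : ℝ) (w : Finset α → ℝ) (F : Finset α) :
    ∏ b ∈ F, qq θ w b = ∏ e, (1 - θ * w e) ^ (e ∩ F).card := by
  have : ∀ b, qq θ w b = ∏ e : Finset α, if b ∈ e then (1 - θ * w e) else 1 := by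
    intro b; unfold qq sv; rw [meet_single, prod_filter]
  simp only [this]
  rw [prod_comm]
  apply prod_congr rfl
  intro e _
  rw [prod_ite_mem, prod_const, inter_comm]

lemma sv_eq (θ : ℝ) (w : Finset α → ℝ) (F : Finset α) :
    sv θ w F = ∏ e, if ¬ Disjoint e F then (1 - θ * w e) else 1 := by
  unfold sv meet; rw [prod_filter]

lemma FM.prod_le_sv (h : FM L δ w) (hθ : 0 ≤ θ) (hθ1 : θ ≤ 1) (F : Finset α) :
    ∏ b ∈ F, qq θ w b ≤ sv θ w F := by
  rw [prod_qq, sv_eq]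
  apply prod_le_prod
  · intro e _; exact pow_nonneg (sub_nonneg.2 (h.p1 hθ hθ1 e)) _
  · intro e _
    have a0 := sub_nonneg.2 (h.p1 hθ hθ1 e)
    have a1 : 1 - θ * w e ≤ 1 := by linarith [h.p0 hθ e]
    split_ifs with hd
    · exact pow_le_one₀ a0 a1
    · have : (e ∩ F).card ≠ 0 := by
        rw [card_ne_zero, ← not_disjoint_iff_nonempty_inter]; exact hd
      exact pow_le_of_le_one a0 a1 this

lemma FM.pairs (h : FM L δ w) (hδ : 0 ≤ δ) (F : Finset α) :
    ∑ e, (((e ∩ F).card - 1 : ℕ) : ℝ) * w e ≤ (F.card : ℝ) ^ 2 * δ := by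
  have e1 : ∀ e : Finset α, (((e ∩ F).card - 1 : ℕ) : ℝ) * w e ≤
      ∑ x ∈ F.offDiag, if x.1 ∈ e ∧ x.2 ∈ e then w e else 0 := by
    intro e
    rw [← sum_filter, sum_const, nsmul_eq_mul]
    apply mul_le_mul_of_nonneg_right _ (h.nonneg e)
    have : F.offDiag.filter (fun x => x.1 ∈ e ∧ x.2 ∈ e) = (e ∩ F).offDiag := by
      ext x; simp only [mem_filter, mem_offDiag, mem_inter]; tauto
    rw [this, offDiag_card]
    have : (e ∩ F).card - 1 ≤ (e ∩ F).card * (e ∩ F).card - (e ∩ F).card := by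
      rcases (e ∩ F).card with _ | n
      · simp
      · have : (n + 1) * (n + 1) = n * n + n + (n + 1) := by ring
        omega
    exact_mod_cast this
  refine (sum_le_sum fun e _ => e1 e).trans ?_
  rw [sum_comm]
  have e2 : ∀ x ∈ F.offDiag, ∑ e : Finset α, (if x.1 ∈ e ∧ x.2 ∈ e then w e else 0) ≤ δ := by
    intro x hx
    rw [← sum_filter]
    exact h.codeg _ _ (mem_offDiag.1 hx).2.2
  refine (sum_le_sum e2).trans ?_
  rw [sum_const, nsmul_eq_mul, offDiag_card]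
  apply mul_le_mul_of_nonneg_right _ hδ
  have : F.card * F.card - F.card ≤ F.card ^ 2 := by rw [sq]; omega
  exact_mod_cast this

lemma FM.sv_le_prod (h : FM L δ w) (hδ : 0 ≤ δ) (hθ : 0 ≤ θ) (hθ1 : θ ≤ 1) (F : Finset α) :
    sv θ w F * (1 - (F.card : ℝ) ^ 2 * δ) ≤ ∏ b ∈ F, qq θ w b := by
  have e1 : ∏ b ∈ F, qq θ w b = sv θ w F * ∏ e, (1 - θ * w e) ^ ((e ∩ F).card - 1) := by
    rw [prod_qq, sv_eq, ← prod_mul_distrib]
    apply prod_congr rfl
    intro e _
    split_ifs with hd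
    · rw [disjoint_iff_inter_eq_empty.1 hd]; simp
    · have : (e ∩ F).card ≠ 0 := by
        rw [card_ne_zero, ← not_disjoint_iff_nonempty_inter]; exact hd
      rw [← pow_succ', Nat.sub_add_cancel (Nat.one_le_iff_ne_zero.2 this)]
  rw [e1]
  apply mul_le_mul_of_nonneg_left _ (h.sv_nonneg hθ hθ1 F)
  refine le_trans ?_ (weier univ _ (fun e _ => pow_nonneg (sub_nonneg.2 (h.p1 hθ hθ1 e)) _)
    (fun e _ => pow_le_one₀ (sub_nonneg.2 (h.p1 hθ hθ1 e)) (by linarith [h.p0 hθ e])))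
  have e2 : ∀ e : Finset α, 1 - (1 - θ * w e) ^ ((e ∩ F).card - 1) ≤
      (((e ∩ F).card - 1 : ℕ) : ℝ) * w e := by
    intro e
    have h1 := one_add_mul_le_pow (a := -(θ * w e)) (by linarith [h.p1 hθ hθ1 e])
      ((e ∩ F).card - 1)
    rw [← sub_eq_add_neg] at h1
    have h2 : θ * w e ≤ w e := by have := h.nonneg e; nlinarith
    have h3 := mul_le_mul_of_nonneg_left h2 (Nat.cast_nonneg (α := ℝ) ((e ∩ F).card - 1))
    linarith
  linarith [sum_le_sum fun e (_ : e ∈ univ) => e2 e, h.pairs hδ F]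

lemma FM.pow_le_prod (h : FM L δ w) (hθ : 0 ≤ θ) (hθ1 : θ ≤ 1) {F : Finset α}
    (hF : F.card ≤ L) : (1 - θ) ^ L ≤ ∏ b ∈ F, qq θ w b := by
  calc (1 - θ) ^ L ≤ (1 - θ) ^ F.card := pow_le_pow_of_le_one (by linarith) (by linarith) hF
    _ = ∏ _b ∈ F, (1 - θ) := by rw [prod_const]
    _ ≤ _ := prod_le_prod (fun _ _ => by linarith) fun b _ => h.qq_ge' hθ hθ1 b

noncomputable def wt (θ : ℝ) (w : Finset α → ℝ) (f : Finset α) : ℝ :=
  w f * (1 - θ) / ∏ b ∈ f, qq θ w b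

lemma FM.prod_pos (h : FM L δ w) (hθ : 0 ≤ θ) (hθ1 : θ < 1) (F : Finset α) :
    0 < ∏ b ∈ F, qq θ w b :=
  Finset.prod_pos fun b _ => lt_of_lt_of_le (by linarith) (h.qq_ge' hθ hθ1.le b)

lemma FM.wt_nonneg (h : FM L δ w) (hθ : 0 ≤ θ) (hθ1 : θ < 1) (f : Finset α) : 0 ≤ wt θ w f :=
  div_nonneg (mul_nonneg (h.nonneg f) (by linarith)) (h.prod_pos hθ hθ1 f).le

lemma FM.wt_le (h : FM L δ w) (hθ : 0 ≤ θ) (hθ1 : θ < 1) (f : Finset α) :
    wt θ w f ≤ ((1 - θ) ^ L)⁻¹ * w f := by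
  by_cases h0 : w f = 0
  · simp [wt, h0]
  have h1 := h.pow_le_prod hθ hθ1.le (h.supp f h0).2
  have h2 : 0 < (1 - θ) ^ L := pow_pos (by linarith) _
  unfold wt
  rw [div_le_iff₀ (h.prod_pos hθ hθ1 f)]
  have h3 : 1 ≤ ((1 - θ) ^ L)⁻¹ * ∏ b ∈ f, qq θ w b := by
    rw [inv_mul_eq_div, one_le_div h2]; exact h1
  have := h.nonneg f
  nlinarith [mul_le_mul_of_nonneg_left h3 this, mul_nonneg this hθ]

lemma FM.wt_sv (h : FM L δ w) (hθ : 0 ≤ θ) (hθ1 : θ < 1) (f : Finset α) :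
    (1 - θ) * w f ≤ wt θ w f * sv θ w f := by
  have h1 := mul_le_mul_of_nonneg_left (h.prod_le_sv hθ hθ1.le f) (h.wt_nonneg hθ hθ1 f)
  refine le_trans (le_of_eq ?_) h1
  unfold wt
  rw [div_mul_cancel₀ _ (h.prod_pos hθ hθ1 f).ne', mul_comm]

lemma FM.pair_bound (h : FM L δ w) (hδ : 0 ≤ δ) (hθ : 0 ≤ θ) (hθ1 : θ < 1)
    (hκ : 4 * (L : ℝ) ^ 2 * δ ≤ 1 / 2) {a : α} {f g : Finset α} (hf : a ∈ f) (hg : a ∈ g) :
    wt θ w f * wt θ w g * sv θ w (f ∪ g) ≤
      (1 + 8 * (L : ℝ) ^ 2 * δ) * (1 - θ) ^ 2 / qq θ w a * (w f * w g) +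
        ((1 - θ) ^ L)⁻¹ ^ 2 * (w f * ∑ b ∈ f.erase a, if b ∈ g then w g else 0) := by
  have hq : 0 < qq θ w a := lt_of_lt_of_le (by linarith) (h.qq_ge' hθ hθ1.le a)
  have wf := h.nonneg f
  have wg := h.nonneg g
  have t1 : 0 ≤ (1 + 8 * (L : ℝ) ^ 2 * δ) * (1 - θ) ^ 2 / qq θ w a * (w f * w g) := by positivity
  have t2 : 0 ≤ ∑ b ∈ f.erase a, if b ∈ g then w g else 0 :=
    sum_nonneg fun b _ => by split_ifs <;> simp [wg]
  by_cases hfg : f ∩ g = {a}
  · have t3 : 0 ≤ ((1 - θ) ^ L)⁻¹ ^ 2 * (w f * ∑ b ∈ f.erase a, if b ∈ g then w g else 0) := by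
      positivity
    by_cases h0 : w f = 0
    · simp [wt, h0]
    by_cases h0' : w g = 0
    · simp [wt, h0']
    have hc : ((f ∪ g).card : ℝ) ≤ 2 * L := by
      have := card_union_le f g
      have := (h.supp f h0).2
      have := (h.supp g h0').2
      have : (f ∪ g).card ≤ 2 * L := by omega
      exact_mod_cast this
    have h1 := h.sv_le_prod hδ hθ hθ1.le (f ∪ g)
    have h2 : ((f ∪ g).card : ℝ) ^ 2 * δ ≤ 4 * (L : ℝ) ^ 2 * δ := by
      apply mul_le_mul_of_nonneg_right _ hδ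
      calc ((f ∪ g).card : ℝ) ^ 2 ≤ (2 * L) ^ 2 := pow_le_pow_left₀ (by positivity) hc 2
        _ = _ := by ring
    have h3 := prod_union_inter (s₁ := f) (s₂ := g) (f := qq θ w)
    rw [hfg, prod_singleton] at h3
    have s0 := h.sv_nonneg hθ hθ1.le (f ∪ g)
    set κ := 4 * (L : ℝ) ^ 2 * δ with hκ'
    have κ0 : 0 ≤ κ := by positivity
    have h4 : sv θ w (f ∪ g) ≤ (1 + 2 * κ) * ∏ b ∈ f ∪ g, qq θ w b := by
      have : sv θ w (f ∪ g) * (1 - κ) ≤ ∏ b ∈ f ∪ g, qq θ w b :=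
        le_trans (mul_le_mul_of_nonneg_left (by linarith) s0) h1
      have h5 := mul_le_mul_of_nonneg_left this (show 0 ≤ 1 + 2 * κ by linarith)
      have h6 : 0 ≤ sv θ w (f ∪ g) * (κ * (1 - 2 * κ)) :=
        mul_nonneg s0 (mul_nonneg κ0 (by linarith))
      nlinarith
    have pf := h.prod_pos hθ hθ1 f
    have pg := h.prod_pos hθ hθ1 g
    have h7 : ∏ b ∈ f ∪ g, qq θ w b = (∏ b ∈ f, qq θ w b) * (∏ b ∈ g, qq θ w b) / qq θ w a := by
      rw [eq_div_iff hq.ne', h3]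
    have h8 := mul_le_mul_of_nonneg_left h4
      (mul_nonneg (h.wt_nonneg hθ hθ1 f) (h.wt_nonneg hθ hθ1 g))
    have h9 : wt θ w f * wt θ w g * ((1 + 2 * κ) * ∏ b ∈ f ∪ g, qq θ w b) =
        (1 + 8 * (L : ℝ) ^ 2 * δ) * (1 - θ) ^ 2 / qq θ w a * (w f * w g) := by
      rw [h7, hκ']; unfold wt; field_simp; ring
    linarith
  · have : ∃ b ∈ f.erase a, b ∈ g := by
      by_contra hc
      push Not at hc
      apply hfg
      ext b
      simp only [mem_inter, mem_singleton]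
      constructor
      · rintro ⟨h1, h2⟩
        by_contra hb
        exact hc b (mem_erase.2 ⟨hb, h1⟩) h2
      · rintro rfl; exact ⟨hf, hg⟩
    obtain ⟨b, hb, hbg⟩ := this
    have h1 : w g ≤ ∑ b ∈ f.erase a, if b ∈ g then w g else 0 := by
      have := single_le_sum (f := fun b => if b ∈ g then w g else 0)
        (fun b _ => by split_ifs <;> simp [wg]) hb
      simpa [hbg] using this
    have K0 : 0 ≤ ((1 - θ) ^ L)⁻¹ := inv_nonneg.2 (pow_nonneg (by linarith) _)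
    have h2 : wt θ w f * wt θ w g * sv θ w (f ∪ g) ≤ wt θ w f * wt θ w g :=
      mul_le_of_le_one_right (mul_nonneg (h.wt_nonneg hθ hθ1 f) (h.wt_nonneg hθ hθ1 g))
        (h.sv_le_one hθ hθ1.le _)
    have h3 : wt θ w f * wt θ w g ≤ (((1 - θ) ^ L)⁻¹ * w f) * (((1 - θ) ^ L)⁻¹ * w g) :=
      mul_le_mul (h.wt_le hθ hθ1 f) (h.wt_le hθ hθ1 g) (h.wt_nonneg hθ hθ1 g) (by positivity)
    have h4 : (((1 - θ) ^ L)⁻¹ * w f) * (((1 - θ) ^ L)⁻¹ * w g) ≤
        ((1 - θ) ^ L)⁻¹ ^ 2 * (w f * ∑ b ∈ f.erase a, if b ∈ g then w g else 0) := by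
      have := mul_le_mul_of_nonneg_left (mul_le_mul_of_nonneg_left h1 wf) (sq_nonneg
        ((1 - θ) ^ L)⁻¹)
      linarith
    linarith

lemma FM.second (h : FM L δ w) (hδ : 0 ≤ δ) (hθ : 0 ≤ θ) (hθ1 : θ < 1)
    (hκ : 4 * (L : ℝ) ^ 2 * δ ≤ 1 / 2) (a : α) :
    ∑ f ∈ univ.filter (fun f : Finset α => a ∈ f), ∑ g ∈ univ.filter (fun g : Finset α => a ∈ g),
      wt θ w f * wt θ w g * sv θ w (f ∪ g) ≤
      (1 + 8 * (L : ℝ) ^ 2 * δ) * (1 - θ) ^ 2 / qq θ w a * dg w a ^ 2 +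
        ((1 - θ) ^ L)⁻¹ ^ 2 * (L * δ) := by
  have e0 : ∀ f ∈ univ.filter (fun f : Finset α => a ∈ f),
      ∑ g ∈ univ.filter (fun g : Finset α => a ∈ g), wt θ w f * wt θ w g * sv θ w (f ∪ g) ≤
      ∑ g ∈ univ.filter (fun g : Finset α => a ∈ g),
      ((1 + 8 * (L : ℝ) ^ 2 * δ) * (1 - θ) ^ 2 / qq θ w a * (w f * w g) +
        ((1 - θ) ^ L)⁻¹ ^ 2 * (w f * ∑ b ∈ f.erase a, if b ∈ g then w g else 0)) :=
    fun f hf => sum_le_sum fun g hg =>
      h.pair_bound hδ hθ hθ1 hκ (mem_filter.1 hf).2 (mem_filter.1 hg).2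
  refine (sum_le_sum e0).trans ?_
  simp only [sum_add_distrib, ← mul_sum, ← sum_mul]
  apply add_le_add
  · apply le_of_eq; unfold dg; ring
  · apply mul_le_mul_of_nonneg_left _ (sq_nonneg _)
    have e1 : ∀ f ∈ univ.filter (fun f : Finset α => a ∈ f),
        w f * ∑ g ∈ univ.filter (fun g : Finset α => a ∈ g),
          ∑ b ∈ f.erase a, (if b ∈ g then w g else 0) ≤ w f * (L * δ) := by
      intro f hf
      by_cases h0 : w f = 0
      · simp [h0]
      apply mul_le_mul_of_nonneg_left _ (h.nonneg f)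
      rw [sum_comm]
      have e2 : ∀ b ∈ f.erase a, ∑ g ∈ univ.filter (fun g : Finset α => a ∈ g),
          (if b ∈ g then w g else 0) ≤ δ := by
        intro b hb
        rw [← sum_filter, filter_filter]
        exact h.codeg a b (mem_erase.1 hb).1.symm
      refine (sum_le_sum e2).trans ?_
      rw [sum_const, nsmul_eq_mul]
      apply mul_le_mul_of_nonneg_right _ hδ
      exact_mod_cast (card_erase_le).trans (h.supp f h0).2
    refine (sum_le_sum e1).trans ?_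
    rw [← sum_mul]
    exact mul_le_of_le_one_left (by positivity) (h.deg a)

end Pool.Agent.MP_2634a8_co.H32

end

-- part MP_2634a8_co.H32.Nibble
section

namespace Pool.Agent.MP_2634a8_co.H32

open Finset

variable {α : Type} [Fintype α] [DecidableEq α]

lemma sum_dg (w : Finset α → ℝ) (x : α → ℝ) :
    ∑ f, w f * ∑ a ∈ f, x a = ∑ a, x a * dg w a := by
  have : ∀ f : Finset α, w f * ∑ a ∈ f, x a = ∑ a, if a ∈ f then x a * w f else 0 := by
    intro f
    rw [sum_ite_mem, univ_inter, mul_sum]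
    apply sum_congr rfl; intro a _; ring
  simp only [this]
  rw [sum_comm]
  apply sum_congr rfl
  intro a _
  rw [dg, mul_sum, sum_filter]

lemma trim {w : Finset α → ℝ} (h0 : ∀ f, 0 ≤ w f) {β : α → ℝ} (hβ : ∀ a, 0 ≤ β a)
    (hβ' : ∀ a, dg w a - 1 ≤ β a) : ∃ w2 : Finset α → ℝ, (∀ f, 0 ≤ w2 f) ∧ (∀ f, w2 f ≤ w f) ∧
      (∀ a, dg w2 a ≤ 1) ∧ ∑ f, w f - ∑ a, β a ≤ ∑ f, w2 f := by
  set x : α → ℝ := fun a => (max 1 (dg w a))⁻¹ with hx
  have m1 : ∀ a, 1 ≤ max 1 (dg w a) := fun a => le_max_left _ _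
  have x0 : ∀ a, 0 ≤ x a := fun a => inv_nonneg.2 (by linarith [m1 a])
  have x1 : ∀ a, x a ≤ 1 := fun a => inv_le_one_of_one_le₀ (m1 a)
  have xd : ∀ a, x a * dg w a ≤ 1 := by
    intro a
    rw [hx, inv_mul_le_iff₀ (by linarith [m1 a]), mul_one]
    exact le_max_right _ _
  have xb : ∀ a, (1 - x a) * dg w a ≤ β a := by
    intro a
    rcases le_total (dg w a) 1 with h | h
    · have : x a = 1 := by simp [hx, h]
      rw [this]; simpa using hβ a
    · have : x a * dg w a = 1 := by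
        simp only [hx, max_eq_right h]; exact inv_mul_cancel₀ (by linarith)
      linarith [hβ' a]
  refine ⟨fun f => w f * ∏ a ∈ f, x a, fun f => mul_nonneg (h0 f) (prod_nonneg fun a _ => x0 a),
    fun f => mul_le_of_le_one_right (h0 f) (prod_le_one (fun a _ => x0 a) fun a _ => x1 a),
    ?_, ?_⟩
  · intro a
    refine le_trans ?_ (xd a)
    unfold dg
    rw [mul_sum]
    apply sum_le_sum
    intro f hf
    rw [mul_comm (x a)]
    apply mul_le_mul_of_nonneg_left _ (h0 f)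
    rw [← mul_prod_erase _ _ (mem_filter.1 hf).2]
    exact mul_le_of_le_one_right (x0 a) (prod_le_one (fun a _ => x0 a) fun a _ => x1 a)
  · have e1 : ∀ f, w f - w f * ∑ a ∈ f, (1 - x a) ≤ w f * ∏ a ∈ f, x a := by
      intro f
      have := mul_le_mul_of_nonneg_left (weier f x (fun a _ => x0 a) fun a _ => x1 a) (h0 f)
      linarith
    refine le_trans ?_ (sum_le_sum fun f _ => e1 f)
    rw [sum_sub_distrib, sum_dg]
    linarith [sum_le_sum fun a (_ : a ∈ univ) => xb a]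

def ind (X : Finset (Finset α)) (F : Finset α) : ℝ := if Disjoint X (meet F) then 1 else 0

lemma ind_mul (X : Finset (Finset α)) (F F' : Finset α) : ind X F * ind X F' = ind X (F ∪ F') := by
  unfold ind
  rw [meet_union]
  simp only [disjoint_union_right]
  by_cases h : Disjoint X (meet F) <;> by_cases h' : Disjoint X (meet F') <;> simp [h, h']

lemma ind_nonneg (X : Finset (Finset α)) (F : Finset α) : 0 ≤ ind X F := by
  unfold ind; split_ifs <;> simp

lemma ind_le_one (X : Finset (Finset α)) (F : Finset α) : ind X F ≤ 1 := by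
  unfold ind; split_ifs <;> simp

lemma exp_ind (θ : ℝ) (w : Finset α → ℝ) (F : Finset α) :
    ∑ X, mu (fun e => θ * w e) X * ind X F = sv θ w F := sum_mu_out _ _

noncomputable def w1 (θ : ℝ) (w : Finset α → ℝ) (X : Finset (Finset α)) (f : Finset α) : ℝ :=
  wt θ w f * ind X f

open Classical in
noncomputable def iso (w : Finset α → ℝ) (X : Finset (Finset α)) : Finset (Finset α) :=
  univ.filter fun f => w f ≠ 0 ∧ ({f} ⊆ X ∧ Disjoint X ((meet f).erase f))

variable {L : ℕ} {δ θ : ℝ} {w : Finset α → ℝ}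

lemma FM.exp_iso (h : FM L δ w) (hθ : 0 ≤ θ) (hθ1 : θ ≤ 1) :
    θ * (1 - L * θ) * ∑ f, w f ≤ ∑ X, mu (fun e => θ * w e) X * (iso w X).card := by
  classical
  have e1 : ∀ X, ((iso w X).card : ℝ) = ∑ f, if w f ≠ 0 then
      (if {f} ⊆ X ∧ Disjoint X ((meet f).erase f) then 1 else 0) else 0 := by
    intro X
    unfold iso
    rw [card_filter]
    push_cast
    apply sum_congr rfl
    intro f _
    rw [ite_and]
  simp only [e1, mul_sum]
  rw [sum_comm]
  apply sum_le_sum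
  intro f _
  by_cases h1 : w f ≠ 0
  · simp only [h1, if_true, ne_eq, not_false_eq_true]
    rw [sum_mu_gen _ (by simp), prod_singleton]
    have a1 : sv θ w f ≤ ∏ i ∈ (meet f).erase f, (1 - θ * w i) :=
      prod_le_prod_of_subset_of_le_one (erase_subset _ _)
        (fun e _ => sub_nonneg.2 (h.p1 hθ hθ1 e)) (fun e _ _ => by linarith [h.p0 hθ e])
    have a2 := h.prod_le_sv hθ hθ1 f
    have a3 := h.pow_le_prod hθ hθ1 (h.supp f h1).2
    have a4 := one_add_mul_le_pow (a := -θ) (by linarith) L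
    have a5 : 1 - L * θ ≤ ∏ i ∈ (meet f).erase f, (1 - θ * w i) := by
      rw [← sub_eq_add_neg] at a4; linarith
    have := mul_le_mul_of_nonneg_left a5 (h.p0 hθ f)
    linarith
  · push Not at h1
    simp [h1]

lemma FM.exp_w1 (h : FM L δ w) (hθ : 0 ≤ θ) (hθ1 : θ < 1) (s : Finset (Finset α)) :
    (1 - θ) * ∑ f ∈ s, w f ≤ ∑ X, mu (fun e => θ * w e) X * ∑ f ∈ s, w1 θ w X f := by
  simp only [mul_sum]
  rw [sum_comm]
  apply sum_le_sum
  intro f _
  refine (h.wt_sv hθ hθ1 f).trans (le_of_eq ?_)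
  rw [← exp_ind, mul_sum]
  apply sum_congr rfl; intro X _; unfold w1; ring

lemma FM.exp_var (h : FM L δ w) (hδ : 0 ≤ δ) (hθ : 0 ≤ θ) (hθ1 : θ < 1)
    (hκ : 4 * (L : ℝ) ^ 2 * δ ≤ 1 / 2) (a : α) : ∃ m : ℝ, m ≤ 1 ∧ 0 ≤ m ∧
    ∑ X, mu (fun e => θ * w e) X * (dg (w1 θ w X) a - m * ind X {a}) ^ 2 ≤
      8 * (L : ℝ) ^ 2 * δ + ((1 - θ) ^ L)⁻¹ ^ 2 * (L * δ) := by
  have hq : 0 < qq θ w a := lt_of_lt_of_le (by linarith) (h.qq_ge' hθ hθ1.le a)
  have hq1 : qq θ w a ≤ 1 := h.sv_le_one hθ hθ1.le _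
  have d0 := h.dg_nonneg a
  have d1 := h.deg a
  set m := (1 - θ) * dg w a / qq θ w a with hm
  have m0 : 0 ≤ m := div_nonneg (mul_nonneg (by linarith) d0) hq.le
  have m1 : m ≤ 1 := by
    rw [hm, div_le_one hq]; linarith [h.qq_ge hθ hθ1.le a]
  refine ⟨m, m1, m0, ?_⟩
  have e1 : ∀ X, (dg (w1 θ w X) a - m * ind X {a}) ^ 2 =
      (∑ f ∈ univ.filter (fun f : Finset α => a ∈ f), ∑ g ∈ univ.filter
        (fun g : Finset α => a ∈ g), wt θ w f * wt θ w g * ind X (f ∪ g)) -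
        2 * m * dg (w1 θ w X) a + m ^ 2 * ind X {a} := by
    intro X
    have a1 : dg (w1 θ w X) a * ind X {a} = dg (w1 θ w X) a := by
      unfold dg
      rw [sum_mul]
      apply sum_congr rfl
      intro f hf
      unfold w1
      rw [mul_assoc, ind_mul, union_eq_left.2 (by simpa using (mem_filter.1 hf).2)]
    have a2 : ind X {a} * ind X {a} = ind X {a} := by rw [ind_mul, union_self]
    have a3 : dg (w1 θ w X) a * dg (w1 θ w X) a =
        ∑ f ∈ univ.filter (fun f : Finset α => a ∈ f), ∑ g ∈ univ.filter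
        (fun g : Finset α => a ∈ g), wt θ w f * wt θ w g * ind X (f ∪ g) := by
      unfold dg
      rw [sum_mul_sum]
      apply sum_congr rfl; intro f _
      apply sum_congr rfl; intro g _
      unfold w1
      rw [← ind_mul]; ring
    rw [← a3]
    linear_combination (-2 * m) * a1 + m ^ 2 * a2
  simp only [e1, mul_add, mul_sub, sum_add_distrib, sum_sub_distrib]
  have b1 : ∑ X, mu (fun e => θ * w e) X * (∑ f ∈ univ.filter (fun f : Finset α => a ∈ f),
      ∑ g ∈ univ.filter (fun g : Finset α => a ∈ g), wt θ w f * wt θ w g * ind X (f ∪ g)) =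
      ∑ f ∈ univ.filter (fun f : Finset α => a ∈ f), ∑ g ∈ univ.filter
        (fun g : Finset α => a ∈ g), wt θ w f * wt θ w g * sv θ w (f ∪ g) := by
    simp only [mul_sum]
    rw [sum_comm]
    apply sum_congr rfl; intro f _
    rw [sum_comm]
    apply sum_congr rfl; intro g _
    rw [← exp_ind, mul_sum]
    apply sum_congr rfl; intro X _; ring
  have b2 : ∑ X, mu (fun e => θ * w e) X * (2 * m * dg (w1 θ w X) a) =
      2 * m * ∑ X, mu (fun e => θ * w e) X * dg (w1 θ w X) a := by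
    rw [mul_sum]; apply sum_congr rfl; intro X _; ring
  have b3 : ∑ X, mu (fun e => θ * w e) X * (m ^ 2 * ind X {a}) = m ^ 2 * qq θ w a := by
    unfold qq; rw [← exp_ind, mul_sum]; apply sum_congr rfl; intro X _; ring
  rw [b1, b2, b3]
  have c1 := h.second hδ hθ hθ1 hκ a
  have c2 : (1 - θ) * dg w a ≤ ∑ X, mu (fun e => θ * w e) X * dg (w1 θ w X) a :=
    h.exp_w1 hθ hθ1 _
  have c3 : (1 - θ) * dg w a = m * qq θ w a := by rw [hm, div_mul_cancel₀ _ hq.ne']
  have c4 : (1 + 8 * (L : ℝ) ^ 2 * δ) * (1 - θ) ^ 2 / qq θ w a * dg w a ^ 2 =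
      (1 + 8 * (L : ℝ) ^ 2 * δ) * (m ^ 2 * qq θ w a) := by
    rw [hm]; field_simp
  have c5 : m ^ 2 * qq θ w a ≤ 1 := by
    have : m ^ 2 ≤ 1 := pow_le_one₀ m0 m1
    nlinarith
  have c6 := mul_le_mul_of_nonneg_left c2 (show 0 ≤ 2 * m by linarith)
  have c7 := mul_le_mul_of_nonneg_left c5 (show 0 ≤ 8 * (L : ℝ) ^ 2 * δ by positivity)
  rw [c3] at c6
  rw [c4] at c1
  nlinarith

theorem FM.round (h : FM L δ w) (hδ : 0 ≤ δ) (hθ : 0 ≤ θ) (hθ1 : θ < 1)
    (hκ : 4 * (L : ℝ) ^ 2 * δ ≤ 1 / 2) {η c : ℝ} (hη : 0 < η) (hc : 0 ≤ c) :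
    ∃ (M : Finset (Finset α)) (w2 : Finset α → ℝ), (∀ f ∈ M, w f ≠ 0) ∧
      (∀ f ∈ M, ∀ g ∈ M, f ≠ g → Disjoint f g) ∧ FM L (((1 - θ) ^ L)⁻¹ * δ) w2 ∧
      (∀ f, w2 f ≠ 0 → w f ≠ 0 ∧ ∀ e ∈ M, Disjoint e f) ∧
      (θ * (1 - L * θ) + c * (1 - θ)) * ∑ f, w f - c * (Fintype.card α *
        (η + (8 * (L : ℝ) ^ 2 * δ + ((1 - θ) ^ L)⁻¹ ^ 2 * (L * δ)) / (4 * η))) ≤
        M.card + c * ∑ f, w2 f := by
  classical
  choose m m1 m0 hv using h.exp_var hδ hθ hθ1 hκ
  set β : Finset (Finset α) → α → ℝ :=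
    fun X a => η + (dg (w1 θ w X) a - m a * ind X {a}) ^ 2 / (4 * η) with hβ
  obtain ⟨X, hX⟩ := exists_ge_avg (p := fun e => θ * w e) (h.p0 hθ) (h.p1 hθ hθ1.le)
    (fun X => ((iso w X).card : ℝ) + c * (∑ f, w1 θ w X f - ∑ a, β X a))
    (c := (θ * (1 - L * θ) + c * (1 - θ)) * ∑ f, w f - c * (Fintype.card α *
        (η + (8 * (L : ℝ) ^ 2 * δ + ((1 - θ) ^ L)⁻¹ ^ 2 * (L * δ)) / (4 * η)))) (by
      have a1 := h.exp_iso hθ hθ1.le
      have a2 := h.exp_w1 hθ hθ1 univ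
      have a3 : ∑ X, mu (fun e => θ * w e) X * ∑ a, β X a ≤ Fintype.card α *
          (η + (8 * (L : ℝ) ^ 2 * δ + ((1 - θ) ^ L)⁻¹ ^ 2 * (L * δ)) / (4 * η)) := by
        simp only [mul_sum]
        rw [sum_comm, ← card_univ, ← nsmul_eq_mul, ← sum_const]
        apply sum_le_sum
        intro a _
        have e : ∑ X, mu (fun e => θ * w e) X * β X a = η * ∑ X, mu (fun e => θ * w e) X +
            (∑ X, mu (fun e => θ * w e) X * (dg (w1 θ w X) a - m a * ind X {a}) ^ 2) /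
              (4 * η) := by
          rw [mul_sum, sum_div, ← sum_add_distrib]
          apply sum_congr rfl; intro X _; simp only [hβ]; ring
        rw [e, sum_mu, mul_one]
        gcongr
        exact hv a
      have e : ∑ X, mu (fun e => θ * w e) X *
          (((iso w X).card : ℝ) + c * (∑ f, w1 θ w X f - ∑ a, β X a)) =
          ∑ X, mu (fun e => θ * w e) X * (iso w X).card +
            c * (∑ X, mu (fun e => θ * w e) X * ∑ f, w1 θ w X f -
              ∑ X, mu (fun e => θ * w e) X * ∑ a, β X a) := by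
        rw [← sum_sub_distrib, mul_sum, ← sum_add_distrib]
        apply sum_congr rfl; intro X _; ring
      rw [e]
      have a4 := mul_le_mul_of_nonneg_left a2 hc
      have a5 := mul_le_mul_of_nonneg_left a3 hc
      linarith)
  have w0 : ∀ f, 0 ≤ w1 θ w X f := fun f => mul_nonneg (h.wt_nonneg hθ hθ1 f) (ind_nonneg _ _)
  obtain ⟨w2, b0, b1, b2, b3⟩ := trim (β := β X) w0 (fun a => by positivity) (by
    intro a
    have h1 : m a * ind X {a} ≤ 1 := mul_le_one₀ (m1 a) (ind_nonneg _ _) (ind_le_one _ _)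
    set t := dg (w1 θ w X) a - m a * ind X {a} with ht
    have h2 : t ≤ η + t ^ 2 / (4 * η) := by
      rw [← sub_le_iff_le_add', le_div_iff₀ (by positivity)]
      nlinarith [sq_nonneg (t - 2 * η)]
    simp only [hβ]
    linarith)
  have wle : ∀ f, w2 f ≤ ((1 - θ) ^ L)⁻¹ * w f := fun f =>
    (b1 f).trans ((mul_le_of_le_one_right (h.wt_nonneg hθ hθ1 f) (ind_le_one _ _)).trans
      (h.wt_le hθ hθ1 f))
  have wne : ∀ f, w2 f ≠ 0 → w f ≠ 0 := by
    intro f hf h0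
    have := wle f
    rw [h0, mul_zero] at this
    exact hf (le_antisymm this (b0 f))
  have hiso : ∀ f ∈ iso w X, w f ≠ 0 ∧ f ∈ X ∧ Disjoint X ((meet f).erase f) := by
    intro f hf
    unfold iso at hf
    obtain ⟨-, h1, h2, h3⟩ := mem_filter.1 hf
    exact ⟨h1, singleton_subset_iff.1 h2, h3⟩
  refine ⟨iso w X, w2, fun f hf => (hiso f hf).1, ?_, ⟨b0, fun e he => h.supp e (wne e he), b2,
    ?_⟩, ?_, ?_⟩
  · intro f hf g hg hfg
    by_contra hd
    exact disjoint_left.1 (hiso g hg).2.2 (hiso f hf).2.1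
      (mem_erase.2 ⟨hfg, mem_filter.2 ⟨mem_univ _, hd⟩⟩)
  · intro a b hab
    refine le_trans ?_ (mul_le_mul_of_nonneg_left (h.codeg a b hab)
      (inv_nonneg.2 (pow_nonneg (by linarith) _)))
    unfold cdg
    rw [mul_sum]
    exact sum_le_sum fun f _ => wle f
  · intro f hf
    refine ⟨wne f hf, fun e he => ?_⟩
    by_contra hd
    have h1 : ind X f = 0 := by
      unfold ind
      rw [if_neg]
      exact fun hh => disjoint_left.1 hh (hiso e he).2.1 (mem_filter.2 ⟨mem_univ _, hd⟩)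
    have h2 := b1 f
    unfold w1 at h2
    rw [h1, mul_zero] at h2
    exact hf (le_antisymm h2 (b0 f))
  · linarith [mul_le_mul_of_nonneg_left b3 hc]

theorem rounds (L : ℕ) {θ : ℝ} (hθ : 0 ≤ θ) (hθ1 : θ < 1) (hL : L * θ ≤ 1) (T : ℕ) :
    ∀ η : ℝ, 0 < η → ∃ δ : ℝ, 0 < δ ∧ ∀ (α : Type) [Fintype α] [DecidableEq α]
      (w : Finset α → ℝ), FM L δ w → ∃ M : Finset (Finset α), (∀ f ∈ M, w f ≠ 0) ∧
      (∀ f ∈ M, ∀ g ∈ M, f ≠ g → Disjoint f g) ∧
      (1 - L * θ) * (1 - (1 - θ) ^ T) * ∑ f, w f - η * Fintype.card α ≤ M.card := by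
  induction T with
  | zero =>
    intro η hη
    refine ⟨1, one_pos, fun α _ _ w _ => ⟨∅, by simp, by simp, ?_⟩⟩
    simp only [pow_zero, sub_self, mul_zero, zero_mul, card_empty, Nat.cast_zero, zero_sub,
      neg_nonpos]
    positivity
  | succ T ih =>
    intro η hη
    obtain ⟨δ', hδ', H⟩ := ih (η / 3) (by positivity)
    set K := ((1 - θ) ^ L)⁻¹ with hK
    have K0 : 0 < K := inv_pos.2 (pow_pos (by linarith) _)
    set B := 8 * (L : ℝ) ^ 2 + K ^ 2 * L + 1 with hB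
    have B0 : 0 < B := by positivity
    set δ := min (δ' / K) (min (1 / B) (4 * η ^ 2 / 9 / B)) with hδ
    have δ0 : 0 < δ := lt_min (by positivity) (lt_min (by positivity) (by positivity))
    have δ1 : K * δ ≤ δ' := by
      rw [mul_comm, ← le_div_iff₀ K0]; exact min_le_left _ _
    have δ2 : δ * B ≤ 1 := by
      rw [← le_div_iff₀ B0]; exact (min_le_right _ _).trans (min_le_left _ _)
    have δ3 : δ * B ≤ 4 * η ^ 2 / 9 := by
      rw [← le_div_iff₀ B0]; exact (min_le_right _ _).trans (min_le_right _ _)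
    have t0 : 0 ≤ K ^ 2 * L * δ := by positivity
    refine ⟨δ, δ0, fun α _ _ w h => ?_⟩
    set c := (1 - L * θ) * (1 - (1 - θ) ^ T) with hc
    have p1 : (1 - θ) ^ T ≤ 1 := pow_le_one₀ (by linarith) (by linarith)
    have p0 : 0 ≤ (1 - θ) ^ T := pow_nonneg (by linarith) _
    have l0 : 0 ≤ L * θ := by positivity
    have c0 : 0 ≤ c := mul_nonneg (by linarith) (by linarith)
    have c1 : c ≤ 1 := mul_le_one₀ (by linarith) (by linarith) (by linarith)
    obtain ⟨M, w2, r1, r2, r3, r4, r5⟩ := h.round δ0.le hθ hθ1 (by rw [hB] at δ2; nlinarith)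
      (η := η / 3) (c := c) (by positivity) c0
    obtain ⟨M', s1, s2, s3⟩ := H α w2 ⟨r3.nonneg, r3.supp, r3.deg,
      fun a b hab => (r3.codeg a b hab).trans δ1⟩
    have hdis : Disjoint M M' := by
      rw [disjoint_left]
      intro f hf hf'
      have := (r4 f (s1 f hf')).2 f hf
      rw [disjoint_self] at this
      exact (h.supp f (r1 f hf)).1.ne_empty this
    refine ⟨M ∪ M', ?_, ?_, ?_⟩
    · intro f hf
      rcases mem_union.1 hf with hf | hf
      · exact r1 f hf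
      · exact (r4 f (s1 f hf)).1
    · intro f hf g hg hfg
      rcases mem_union.1 hf with hf | hf <;> rcases mem_union.1 hg with hg | hg
      · exact r2 f hf g hg hfg
      · exact (r4 g (s1 g hg)).2 f hf
      · exact ((r4 f (s1 f hf)).2 g hg).symm
      · exact s2 f hf g hg hfg
    · rw [card_union_of_disjoint hdis]
      push_cast
      have e1 : (1 - L * θ) * (1 - (1 - θ) ^ (T + 1)) = θ * (1 - L * θ) + c * (1 - θ) := by
        rw [hc, pow_succ]; ring
      have e2 : (8 * (L : ℝ) ^ 2 * δ + K ^ 2 * (L * δ)) / (4 * (η / 3)) ≤ η / 3 := by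
        rw [div_le_iff₀ (by positivity)]
        rw [hB] at δ3; nlinarith
      have n0 : (0 : ℝ) ≤ Fintype.card α := by positivity
      have e3 : c * (Fintype.card α * (η / 3 +
          (8 * (L : ℝ) ^ 2 * δ + K ^ 2 * (L * δ)) / (4 * (η / 3)))) ≤
          Fintype.card α * (η / 3 + η / 3) := by
        refine (mul_le_of_le_one_left (by positivity) c1).trans ?_
        gcongr
      rw [e1]
      linarith

theorem nibble (L : ℕ) {ε : ℝ} (hε : 0 < ε) : ∃ δ : ℝ, 0 < δ ∧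
    ∀ (α : Type) [Fintype α] [DecidableEq α] (w : Finset α → ℝ), FM L δ w →
      ∃ M : Finset (Finset α), (∀ f ∈ M, w f ≠ 0) ∧ (∀ f ∈ M, ∀ g ∈ M, f ≠ g → Disjoint f g) ∧
      (1 - ε) * ∑ f, w f - ε * Fintype.card α ≤ M.card := by
  set θ := min (1 / 2) (min 1 (ε / 2) / (L + 1)) with hθ
  have m0 : 0 < min 1 (ε / 2) := lt_min one_pos (by positivity)
  have θ0 : 0 < θ := lt_min (by norm_num) (by positivity)
  have θ1 : θ < 1 := (min_le_left _ _).trans_lt (by norm_num)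
  have θ2 : θ * (L + 1) ≤ min 1 (ε / 2) := by
    rw [← le_div_iff₀ (by positivity)]; exact min_le_right _ _
  have θ3 : L * θ ≤ 1 := by nlinarith [min_le_left 1 (ε / 2)]
  have θ4 : L * θ ≤ ε / 2 := by nlinarith [min_le_right 1 (ε / 2)]
  obtain ⟨T, hT⟩ := exists_pow_lt_of_lt_one (show 0 < ε / 2 by positivity)
    (show 1 - θ < 1 by linarith)
  obtain ⟨δ, δ0, H⟩ := rounds L θ0.le θ1 θ3 T ε hε
  refine ⟨δ, δ0, fun α _ _ w h => ?_⟩
  obtain ⟨M, s1, s2, s3⟩ := H α w h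
  refine ⟨M, s1, s2, le_trans ?_ s3⟩
  have W0 : 0 ≤ ∑ f, w f := sum_nonneg fun f _ => h.nonneg f
  have p0 : 0 ≤ (1 - θ) ^ T := pow_nonneg (by linarith) _
  have l0 : 0 ≤ L * θ := by positivity
  have : 1 - ε ≤ (1 - L * θ) * (1 - (1 - θ) ^ T) := by nlinarith [mul_nonneg l0 p0]
  linarith [mul_le_mul_of_nonneg_right this W0]

end Pool.Agent.MP_2634a8_co.H32

end

-- part MP_2634a8_co.H32.Dense
section

namespace Pool.Agent.MP_2634a8_co.H32

open Finset

variable {V : Type} [DecidableEq V] [Fintype V]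

lemma local_pack {A : Finset (V × V)} (hl : Loopless A) {s : ℝ} (hs : 0 < s) (S : Finset V) :
    ∃ y : Finset (V × V) → ℝ, (∀ C, 0 ≤ y C) ∧
      (∀ C, y C ≠ 0 → C.Nonempty ∧ Bl C ∧ C ⊆ res A S) ∧ (∀ a, dg y a ≤ 1) ∧
      (∑ u, (od (res A S) u : ℝ) * (od (res A S) u - 1)) * (2 / s - S.card / s ^ 2) / 2 -
        ∑ v, |(idg (res A S) v : ℝ) - od (res A S) v| ≤ ∑ C, y C := by
  rcases S.eq_empty_or_nonempty with rfl | hS
  · refine ⟨0, by simp, by simp, by simp [dg], ?_⟩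
    simp [res, od, idg]
  apply frac_pack (A := res A S) (W := S) (fun e he => (mem_filter.1 he).2)
    (fun e he => hl e (mem_filter.1 he).1) _ hS
  rw [sub_add_cancel]
  have h0 : 0 ≤ ∑ u, (od (res A S) u : ℝ) * (od (res A S) u - 1) := by
    apply sum_nonneg; intro u _
    rcases Nat.eq_zero_or_pos (od (res A S) u) with h | h
    · rw [h]; simp
    · have : (1 : ℝ) ≤ od (res A S) u := by exact_mod_cast h
      nlinarith
  have h1 : (S.card : ℝ) * (2 / s - S.card / s ^ 2) ≤ 1 := by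
    have : (S.card : ℝ) * (2 / s - S.card / s ^ 2) = 1 - (1 - S.card / s) ^ 2 := by
      field_simp; ring
    rw [this]; nlinarith [sq_nonneg (1 - S.card / s)]
  have h2 : ∑ u, (od (res A S) u : ℝ) * (od (res A S) u - 1) / 2 ≤
      ∑ u, (od (res A S) u : ℝ) * (od (res A S) u + 1) / 2 := by
    apply sum_le_sum; intro u _
    have : (0 : ℝ) ≤ od (res A S) u := by positivity
    nlinarith
  rw [← sum_div] at h2
  nlinarith [mul_le_mul_of_nonneg_left h1 h0]

omit [Fintype V] in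
lemma three_le {a b : V × V} (hab : a ≠ b) (ha : a.1 ≠ a.2) (hb : b.1 ≠ b.2) (h : b ≠ a.swap) :
    3 ≤ ({a.1, a.2} ∪ {b.1, b.2} : Finset V).card := by
  obtain ⟨a1, a2⟩ := a
  obtain ⟨b1, b2⟩ := b
  simp only [ne_eq, Prod.mk.injEq, Prod.swap_prod_mk] at *
  have key : ∀ z, z ≠ a1 → z ≠ a2 → z ∈ ({b1, b2} : Finset V) →
      3 ≤ ({a1, a2} ∪ {b1, b2} : Finset V).card := by
    intro z h1 h2 h3
    have : ({a1, a2, z} : Finset V).card = 3 :=
      card_eq_three.2 ⟨a1, a2, z, ha, h1.symm, h2.symm, rfl⟩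
    rw [← this]
    apply card_le_card
    intro x hx
    simp only [mem_insert, mem_singleton, mem_union] at hx h3 ⊢
    rcases hx with rfl | rfl | rfl <;> tauto
  by_cases h1 : b1 = a1
  · exact key b2 (by rintro rfl; exact hb h1) (fun h2 => hab ⟨h1.symm, h2.symm⟩) (by simp)
  by_cases h2 : b1 = a2
  · exact key b2 (fun h3 => h ⟨h2, h3⟩) (by rintro rfl; exact hb h2) (by simp)
  · exact key b1 h1 h2 (by simp)

lemma spread {A : Finset (V × V)} (hl : Loopless A) (hb : Bl A) (ho : ∀ e ∈ A, e.swap ∉ A)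
    {s γ : ℝ} (hs : 0 < s) (hsn : s ≤ Fintype.card V) (hγ : 0 < γ) :
    ∃ y : Finset (V × V) → ℝ, (∀ C, 0 ≤ y C) ∧ (∀ C, y C ≠ 0 → C.Nonempty ∧ Bl C ∧ C ⊆ A) ∧
      (∀ a, dg y a ≤ 1) ∧ (∀ a b, a ≠ b → cdg y a b ≤ s / Fintype.card V) ∧
      (1 - 3 / s) * (∑ u, (od A u : ℝ) * (od A u - 1)) / (2 * Fintype.card V) -
        (Fintype.card V : ℝ) ^ 2 * (γ / 2 + 1 / (2 * γ * s)) ≤ ∑ C, y C := by
  choose y y0 y1 y2 y3 using local_pack hl hs
  have ec := exp_cher hl hs hsn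
  set n : ℝ := (Fintype.card V : ℝ) with hn
  have n0 : 0 < n := by linarith
  set ρ := s / n with hρ
  have ρ0 : 0 < ρ := by positivity
  have ρ1 : ρ ≤ 1 := by rw [hρ, div_le_one n0]; exact hsn
  have m0 : ∀ S, 0 ≤ mu (fun _ : V => ρ) S := mu_nonneg (fun _ => ρ0.le) (fun _ => ρ1)
  have hsum : ∀ T : Finset (Finset (V × V)), ∑ C ∈ T, (∑ S, mu (fun _ : V => ρ) S * y S C) / ρ ^ 2
      = (∑ S, mu (fun _ : V => ρ) S * ∑ C ∈ T, y S C) / ρ ^ 2 := by
    intro T
    rw [← sum_div, sum_comm]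
    simp only [mul_sum]
  have hz : ∀ S a (T : Finset (Finset (V × V))), (∀ C ∈ T, a ∈ C) → a ∉ res A S →
      ∑ C ∈ T, y S C = 0 := by
    intro S a T hT ha
    apply sum_eq_zero
    intro C hC
    by_contra hc
    exact ha ((y1 S C hc).2.2 (hT C hC))
  refine ⟨fun C => (∑ S, mu (fun _ : V => ρ) S * y S C) / ρ ^ 2,
    fun C => div_nonneg (sum_nonneg fun S _ => mul_nonneg (m0 S) (y0 S C)) (by positivity),
    ?_, ?_, ?_, ?_⟩
  · intro C hC
    have : ∃ S, y S C ≠ 0 := by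
      by_contra hc
      push Not at hc
      simp [hc] at hC
    obtain ⟨S, hS⟩ := this
    exact ⟨(y1 S C hS).1, (y1 S C hS).2.1, (y1 S C hS).2.2.trans (filter_subset _ _)⟩
  · intro a
    unfold dg
    rw [hsum, div_le_one (by positivity)]
    by_cases ha : a ∈ A
    · have e : ρ ^ 2 = ∑ S, mu (fun _ : V => ρ) S * ins {a.1, a.2} S := by
        rw [exp_ins, card_pair (hl a ha)]
      rw [e]
      apply sum_le_sum; intro S _
      apply mul_le_mul_of_nonneg_left _ (m0 S)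
      unfold ins
      split_ifs with h
      · exact y2 S a
      · apply le_of_eq
        apply hz S a _ (fun C hC => (mem_filter.1 hC).2)
        intro h'
        apply h
        simpa [insert_subset_iff] using (mem_filter.1 h').2
    · have : ∀ S, ∑ C ∈ univ.filter (fun C => a ∈ C), y S C = 0 := fun S =>
        hz S a _ (fun C hC => (mem_filter.1 hC).2) (fun h => ha (mem_filter.1 h).1)
      simp only [this, mul_zero, sum_const_zero]
      positivity
  · intro a b hab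
    unfold cdg
    rw [hsum, div_le_iff₀ (by positivity)]
    by_cases ha : a ∈ A ∧ b ∈ A
    · have e : ∑ S, mu (fun _ : V => ρ) S * ins ({a.1, a.2} ∪ {b.1, b.2}) S ≤ ρ * ρ ^ 2 := by
        rw [exp_ins, ← pow_succ']
        exact pow_le_pow_of_le_one ρ0.le ρ1 (three_le hab (hl a ha.1) (hl b ha.2)
          (fun h => ho a ha.1 (h ▸ ha.2)))
      refine le_trans ?_ e
      apply sum_le_sum; intro S _
      apply mul_le_mul_of_nonneg_left _ (m0 S)
      unfold ins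
      split_ifs with h
      · refine le_trans ?_ (y2 S a)
        apply sum_le_sum_of_subset_of_nonneg
        · intro C hC
          exact mem_filter.2 ⟨mem_univ _, (mem_filter.1 hC).2.1⟩
        · intro C _ _; exact y0 S C
      · apply le_of_eq
        by_cases h1 : a ∈ res A S
        · apply hz S b _ (fun C hC => (mem_filter.1 hC).2.2)
          intro h2
          apply h
          have := (mem_filter.1 h1).2
          have := (mem_filter.1 h2).2
          simp only [union_subset_iff, insert_subset_iff, singleton_subset_iff]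
          tauto
        · exact hz S a _ (fun C hC => (mem_filter.1 hC).2.1) h1
    · have : ∀ S, ∑ C ∈ univ.filter (fun C => a ∈ C ∧ b ∈ C), y S C = 0 := by
        intro S
        by_cases h1 : a ∈ A
        · exact hz S b _ (fun C hC => (mem_filter.1 hC).2.2)
            (fun h => ha ⟨h1, (mem_filter.1 h).1⟩)
        · exact hz S a _ (fun C hC => (mem_filter.1 hC).2.1) (fun h => h1 (mem_filter.1 h).1)
      simp only [this, mul_zero, sum_const_zero]
      positivity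
  · rw [hsum, le_div_iff₀ (by positivity)]
    refine le_trans ?_ (sum_le_sum fun S _ => mul_le_mul_of_nonneg_left (y3 S) (m0 S))
    have e1 : ∑ S, mu (fun _ : V => ρ) S *
        ((∑ u, (od (res A S) u : ℝ) * (od (res A S) u - 1)) * (2 / s - S.card / s ^ 2) / 2 -
        ∑ v, |(idg (res A S) v : ℝ) - od (res A S) v|) =
        (∑ S, mu (fun _ : V => ρ) S *
        ((∑ u, (od (res A S) u : ℝ) * (od (res A S) u - 1)) * (2 / s - S.card / s ^ 2))) / 2 -
        ∑ v, ∑ S, mu (fun _ : V => ρ) S * |(idg (res A S) v : ℝ) - od (res A S) v| := by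
      rw [sum_comm, sum_div, ← sum_sub_distrib]
      apply sum_congr rfl; intro S _
      rw [← mul_sum]; ring
    have e2 : ∑ v, ∑ S, mu (fun _ : V => ρ) S * |(idg (res A S) v : ℝ) - od (res A S) v| ≤
        ∑ _v : V, (γ * s / 2 * ρ + ρ ^ 2 * n / (2 * (γ * s))) :=
      sum_le_sum fun v _ => exp_imb hl hb ρ0.le ρ1 (by positivity) v
    rw [sum_const, card_univ, nsmul_eq_mul, ← hn] at e2
    rw [e1]
    have e3 : ((1 - 3 / s) * (∑ u, (od A u : ℝ) * (od A u - 1)) / (2 * n) -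
        n ^ 2 * (γ / 2 + 1 / (2 * γ * s))) * ρ ^ 2 =
        (ρ ^ 3 * (1 / s - 3 / s ^ 2) * ∑ u, (od A u : ℝ) * (od A u - 1)) / 2 -
          n * (γ * s / 2 * ρ + ρ ^ 2 * n / (2 * (γ * s))) := by
      rw [hρ]; field_simp
    rw [e3]
    linarith

lemma cut_long {α : Type} [Fintype α] [DecidableEq α] {y : Finset α → ℝ} (y0 : ∀ C, 0 ≤ y C)
    (y2 : ∀ a, dg y a ≤ 1) {L : ℕ} (hL : 0 < L) :
    ∑ C, y C - Fintype.card α / L ≤ ∑ C, if C.card ≤ L then y C else 0 := by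
  have hL' : (0 : ℝ) < L := by exact_mod_cast hL
  have e1 := sum_dg y (fun _ => 1 / (L : ℝ))
  have e2 : ∑ a : α, 1 / (L : ℝ) * dg y a ≤ Fintype.card α / L := by
    refine (sum_le_sum fun a _ => mul_le_of_le_one_right (by positivity) (y2 a)).trans ?_
    rw [sum_const, card_univ, nsmul_eq_mul]
    apply le_of_eq; ring
  have e3 : ∑ C, y C ≤ ∑ C, ((if C.card ≤ L then y C else 0) + y C * ∑ _a ∈ C, 1 / (L : ℝ)) := by
    apply sum_le_sum
    intro C _
    rw [sum_const, nsmul_eq_mul]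
    have := y0 C
    split_ifs with h
    · have : 0 ≤ y C * (C.card * (1 / (L : ℝ))) := by positivity
      linarith
    · have h1 : (1 : ℝ) ≤ C.card * (1 / (L : ℝ)) := by
        rw [mul_one_div, one_le_div hL']
        exact_mod_cast (not_le.1 h).le
      nlinarith
  rw [sum_add_distrib] at e3
  linarith

theorem dense_oriented {η : ℝ} (hη : 0 < η) : ∃ n0 : ℕ, ∀ (V : Type) [DecidableEq V] [Fintype V]
    (A : Finset (V × V)), n0 ≤ Fintype.card V → Loopless A → Bl A → (∀ e ∈ A, e.swap ∉ A) →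
    ∃ t : ℕ, Pk t A ∧ (∑ u, (od A u : ℝ) * (od A u - 1)) / (2 * Fintype.card V) -
      η * (Fintype.card V : ℝ) ^ 2 ≤ t := by
  set γ := min (η / 6) 1 with hγ
  have γ0 : 0 < γ := lt_min (by positivity) one_pos
  have γ1 : γ ≤ η / 6 := min_le_left _ _
  have γ2 : γ ≤ 1 := min_le_right _ _
  obtain ⟨L, hL⟩ := exists_nat_gt (1 / γ)
  have hL0 : (0 : ℝ) < L := lt_trans (by positivity) hL
  obtain ⟨δ, δ0, H⟩ := nibble L γ0
  set s := 3 / γ ^ 2 with hs
  have s0 : 0 < s := by positivity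
  obtain ⟨n0, hn0⟩ := exists_nat_gt (max s (s / δ))
  refine ⟨n0, fun V _ _ A hn hl hb ho => ?_⟩
  set n : ℝ := (Fintype.card V : ℝ) with hn'
  have hn1 : (n0 : ℝ) ≤ n := by rw [hn']; exact_mod_cast hn
  have hsn : s ≤ n := by linarith [le_max_left s (s / δ)]
  have n0' : 0 < n := by linarith
  have hδ : s / n ≤ δ := by
    rw [div_le_iff₀ n0', mul_comm, ← div_le_iff₀ δ0]
    linarith [le_max_right s (s / δ)]
  obtain ⟨y, y0, y1, y2, y3, y4⟩ := spread hl hb ho s0 hsn γ0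
  have hc := cut_long y0 y2 (L := L) (by exact_mod_cast hL0)
  have hle : ∀ C : Finset (V × V), (if C.card ≤ L then y C else 0) ≤ y C := by
    intro C; split_ifs
    · exact le_rfl
    · exact y0 C
  have hne : ∀ C : Finset (V × V), (if C.card ≤ L then y C else 0) ≠ 0 →
      y C ≠ 0 ∧ C.card ≤ L := by
    intro C hC
    split_ifs at hC with h
    · exact ⟨hC, h⟩
    · exact absurd rfl hC
  obtain ⟨M, m1, m2, m3⟩ := H (V × V) (fun C => if C.card ≤ L then y C else 0)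
    ⟨fun C => by split_ifs; exacts [y0 C, le_rfl],
      fun C hC => ⟨(y1 C (hne C hC).1).1, (hne C hC).2⟩,
      fun a => le_trans (sum_le_sum fun C _ => hle C) (y2 a),
      fun a b hab => le_trans (sum_le_sum fun C _ => hle C) ((y3 a b hab).trans hδ)⟩
  refine ⟨M.card, ⟨M, rfl, fun F hF => y1 F (hne F (m1 F hF)).1, m2⟩, le_trans ?_ m3⟩
  have ec : (Fintype.card (V × V) : ℝ) = n ^ 2 := by
    rw [Fintype.card_prod, hn']; push_cast; ring
  rw [ec] at hc ⊢
  rw [← hn'] at y4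
  set Q := (∑ u, (od A u : ℝ) * (od A u - 1)) / (2 * n) with hQ
  have hQn : Q ≤ n ^ 2 := by
    rw [hQ, div_le_iff₀ (by positivity)]
    have : ∀ u, (od A u : ℝ) * (od A u - 1) ≤ n ^ 2 := by
      intro u
      have h1 : (od A u : ℝ) ≤ n := by
        rw [← card_nb, hn']; exact_mod_cast card_le_univ _
      have h2 : (0 : ℝ) ≤ od A u := by positivity
      nlinarith
    refine (sum_le_sum fun u _ => this u).trans ?_
    rw [sum_const, card_univ, nsmul_eq_mul, ← hn']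
    nlinarith [pow_pos n0' 3]
  have e1 : 3 / s = γ ^ 2 := by rw [hs]; field_simp
  have e2 : 1 / (2 * γ * s) = γ / 6 := by rw [hs]; field_simp; norm_num
  have e3 : n ^ 2 / L ≤ γ * n ^ 2 := by
    rw [div_le_iff₀ hL0]
    have : 1 ≤ γ * L := by rw [div_lt_iff₀ γ0] at hL; linarith
    nlinarith [pow_pos n0' 2]
  rw [mul_div_assoc, ← hQ, e1, e2] at y4
  set Y := ∑ C : Finset (V × V), if C.card ≤ L then y C else 0 with hY
  have n2 : 0 < n ^ 2 := pow_pos n0' 2
  have g2 : γ ^ 2 ≤ γ := by nlinarith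
  have a1 : γ ^ 2 * Q ≤ γ * n ^ 2 := by
    nlinarith [mul_le_mul_of_nonneg_left hQn (sq_nonneg γ), mul_le_mul_of_nonneg_right g2 n2.le]
  have a2 : Q - 3 * (γ * n ^ 2) ≤ Y := by nlinarith [mul_pos γ0 n2]
  have a3 := mul_le_mul_of_nonneg_left a2 (show 0 ≤ 1 - γ by linarith)
  have a4 : γ * Q ≤ γ * n ^ 2 := mul_le_mul_of_nonneg_left hQn γ0.le
  have a5 : 6 * (γ * n ^ 2) ≤ η * n ^ 2 := by nlinarith
  nlinarith [mul_pos γ0 (mul_pos γ0 n2), mul_pos γ0 n2]

end Pool.Agent.MP_2634a8_co.H32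

end

-- part MP_2634a8_co.H32.Final
section

namespace Pool.Agent.MP_2634a8_co.H32

open Finset

lemma bl_of_symm {V : Type} [DecidableEq V] {F : Finset (V × V)} (h : ∀ e ∈ F, e.swap ∈ F) :
    Bl F := by
  intro v
  unfold od idg
  apply card_bij (fun e _ => e.swap)
  · intro e he
    obtain ⟨h1, h2⟩ := mem_filter.1 he
    exact mem_filter.2 ⟨h e h1, h2⟩
  · intro e _ e' _ hh
    exact Prod.swap_injective hh
  · intro e he
    obtain ⟨h1, h2⟩ := mem_filter.1 he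
    exact ⟨e.swap, mem_filter.2 ⟨h e h1, h2⟩, rfl⟩

lemma digons {V : Type} [DecidableEq V] {D : Finset (V × V)} (h : ∀ e ∈ D, e.swap ∈ D) :
    ∃ t, Pk t D ∧ D.card ≤ 2 * t := by
  refine ⟨(D.image fun e => ({e, e.swap} : Finset (V × V))).card, ⟨_, rfl, ?_, ?_⟩, ?_⟩
  · intro F hF
    obtain ⟨e, he, rfl⟩ := mem_image.1 hF
    refine ⟨insert_nonempty _ _, bl_of_symm ?_, ?_⟩
    · intro x hx
      simp only [mem_insert, mem_singleton] at hx ⊢
      rcases hx with rfl | rfl <;> simp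
    · simp [insert_subset_iff, he, h e he]
  · intro F hF F' hF' hne
    obtain ⟨e, -, rfl⟩ := mem_image.1 hF
    obtain ⟨e', -, rfl⟩ := mem_image.1 hF'
    rw [disjoint_left]
    intro x hx hx'
    apply hne
    simp only [mem_insert, mem_singleton] at hx hx'
    rcases hx with rfl | rfl <;> rcases hx' with h' | h'
    · rw [h']
    · rw [h', Prod.swap_swap, pair_comm]
    · rw [← h', Prod.swap_swap, pair_comm]
    · rw [Prod.swap_injective h']
  · apply card_le_mul_card_image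
    intro b hb
    obtain ⟨e, -, rfl⟩ := mem_image.1 hb
    refine le_trans (card_le_card (t := {e, e.swap}) ?_) card_le_two
    intro x hx
    rw [← (mem_filter.1 hx).2]
    exact mem_insert_self _ _

theorem dense {η : ℝ} (hη : 0 < η) : ∃ n0 : ℕ, ∀ (V : Type) [DecidableEq V] [Fintype V]
    [Nonempty V] (A : Finset (V × V)), n0 ≤ Fintype.card V → Loopless A → Bl A →
    ∃ t : ℕ, Pk t A ∧ (∑ u, (od A u : ℝ) * (od A u - 1)) / (2 * Fintype.card V) -
      η * (Fintype.card V : ℝ) ^ 2 ≤ t := by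
  obtain ⟨n0, H⟩ := dense_oriented hη
  refine ⟨n0, fun V _ _ _ A hn hl hb => ?_⟩
  set D := A.filter fun e => e.swap ∈ A with hD
  have hDA : D ⊆ A := filter_subset _ _
  have hsym : ∀ e ∈ D, e.swap ∈ D := by
    intro e he
    obtain ⟨h1, h2⟩ := mem_filter.1 he
    exact mem_filter.2 ⟨h2, by simpa using h1⟩
  obtain ⟨t1, p1, p2⟩ := digons hsym
  have hb' := hb.sdiff (bl_of_symm hsym) hDA
  have hor : ∀ e ∈ A \ D, e.swap ∉ A := by
    intro e he h
    obtain ⟨h1, h2⟩ := mem_sdiff.1 he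
    exact h2 (mem_filter.2 ⟨h1, h⟩)
  obtain ⟨t2, q1, q2⟩ := H V (A \ D) hn (fun e he => hl e (mem_sdiff.1 he).1) hb'
    (fun e he h => hor e he (mem_sdiff.1 h).1)
  refine ⟨t2 + t1, ?_, ?_⟩
  · have := q1.union p1 sdiff_disjoint
    rwa [sdiff_union_of_subset hDA] at this
  set n : ℝ := (Fintype.card V : ℝ) with hn'
  have n0' : 0 < n := by rw [hn']; exact_mod_cast Fintype.card_pos
  have e1 : ∀ u, 2 * (od (A \ D) u : ℝ) + od D u ≤ n := by
    intro u
    have : 2 * (od (A \ D) u : ℝ) + od D u = od (A \ D) u + idg (A \ D) u + od D u := by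
      rw [← hb' u]; ring
    rw [this, od_eq_sum, od_eq_sum, idg_eq_sum, ← sum_add_distrib, ← sum_add_distrib]
    have h1 : n = ∑ _x : V, (1 : ℝ) := by simp [hn']
    rw [h1]
    apply sum_le_sum
    intro x _
    have a1 := hor (u, x)
    have a2 := hor (x, u)
    have a3 := @hDA (u, x)
    simp only [Prod.swap_prod_mk, mem_sdiff] at a1 a2 ⊢
    split_ifs <;> first | tauto | norm_num
  have e2 : ∑ u, (od A u : ℝ) * (od A u - 1) ≤
      ∑ u, ((od (A \ D) u : ℝ) * (od (A \ D) u - 1) + od D u * n) := by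
    apply sum_le_sum
    intro u _
    rw [← od_sdiff hDA u]
    push_cast
    have h0 : (0 : ℝ) ≤ od D u := by positivity
    nlinarith [mul_le_mul_of_nonneg_left (e1 u) h0]
  have e3 : ∑ u, (od D u : ℝ) = D.card := by
    simpa using (sum_tail D (fun _ => 1)).symm
  rw [sum_add_distrib, ← sum_mul, e3] at e2
  have e4 : (D.card : ℝ) ≤ 2 * t1 := by exact_mod_cast p2
  have e5 : (∑ u, (od A u : ℝ) * (od A u - 1)) / (2 * n) ≤
      (∑ u, (od (A \ D) u : ℝ) * (od (A \ D) u - 1)) / (2 * n) + t1 := by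
    rw [div_add' _ _ _ (by positivity)]
    gcongr
    nlinarith
  push_cast
  linarith

theorem asymptotic {ε : ℝ} (hε : 0 < ε) : ∃ k0 : ℕ, ∀ k, k0 ≤ k → ∀ (V : Type) [Finite V]
    [Nonempty V] (G : Digraph V), IsRegularDigraph G k →
    ∃ t : ℕ, (1 / 2 - ε) * (k : ℝ) ^ 2 ≤ t ∧ HasArcDisjointCycles G t := by
  set C := (22 / ε) ^ 2 with hC
  have C0 : 0 < C := by positivity
  obtain ⟨n0, H⟩ := dense (η := ε / (2 * C ^ 2)) (by positivity)
  obtain ⟨k1, hk1⟩ := exists_nat_gt (1 / ε)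
  refine ⟨max n0 k1, fun k hk V _ _ G hG => ?_⟩
  classical
  let := Fintype.ofFinite V
  obtain ⟨A, a1, a2, a3, a4⟩ := exists_arcs G k hG
  have hb : Bl A := fun v => by rw [a3, a4]
  suffices h : ∃ t : ℕ, Pk t A ∧ (1 / 2 - ε) * (k : ℝ) ^ 2 ≤ t by
    obtain ⟨t, h1, h2⟩ := h
    exact ⟨t, h2, pk_cycles G h1 hG.1 (fun e he => (a1 e).1 he)⟩
  have hkn : k ≤ Fintype.card V := by
    obtain ⟨v⟩ := ‹Nonempty V›
    rw [← a3 v, ← card_nb]; exact card_le_univ _
  set n : ℝ := (Fintype.card V : ℝ) with hn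
  have n0' : 0 < n := by rw [hn]; exact_mod_cast Fintype.card_pos
  have hk1' : (k1 : ℝ) ≤ k := by exact_mod_cast (le_max_right _ _).trans hk
  have hkε : 1 ≤ ε * k := by
    rw [div_lt_iff₀ hε] at hk1; nlinarith
  have k0 : (0 : ℝ) ≤ k := by positivity
  by_cases hcase : C * k ≤ n
  · obtain ⟨t, p1, p2⟩ := greedy k _ A rfl hb a2 (fun v => (a3 v).le)
    refine ⟨t, p1, ?_⟩
    simp only [a3, sum_const, card_univ, nsmul_eq_mul] at p2
    rw [← hn] at p2
    have h1 : √(n * k) ≤ n * ε / 22 := by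
      apply Real.sqrt_le_iff.2
      refine ⟨by positivity, ?_⟩
      have e : (n * ε / 22) ^ 2 = n * (n / C) := by rw [hC]; field_simp
      rw [e]
      apply mul_le_mul_of_nonneg_left _ n0'.le
      rw [le_div_iff₀ C0]; linarith
    have t0 : (0 : ℝ) ≤ t := by positivity
    have h2 : n * (k * (k + 1) / 2) ≤ n * (t * (1 + ε)) := by
      nlinarith [mul_le_mul_of_nonneg_left h1 t0]
    have h3 := le_of_mul_le_mul_left h2 n0'
    by_contra hc
    push Not at hc
    have h4 := mul_lt_mul_of_pos_right hc (show 0 < 1 + ε by linarith)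
    nlinarith [mul_nonneg hε.le (sq_nonneg (k : ℝ)), mul_nonneg (mul_pos hε hε).le
      (sq_nonneg (k : ℝ))]
  · push Not at hcase
    obtain ⟨t, p1, p2⟩ := H V A (((le_max_left _ _).trans hk).trans hkn) a2 hb
    refine ⟨t, p1, le_trans ?_ p2⟩
    simp only [a3, sum_const, card_univ, nsmul_eq_mul]
    rw [← hn]
    have e1 : n * (k * (k - 1)) / (2 * n) = k * (k - 1) / 2 := by field_simp
    have e2 : ε / (2 * C ^ 2) * n ^ 2 ≤ ε / 2 * k ^ 2 := by
      have h1 : n ^ 2 ≤ (C * k) ^ 2 := pow_le_pow_left₀ n0'.le hcase.le 2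
      have h2 : ε / (2 * C ^ 2) * (C * k) ^ 2 = ε / 2 * k ^ 2 := by field_simp
      rw [← h2]
      exact mul_le_mul_of_nonneg_left h1 (by positivity)
    rw [e1]
    nlinarith [mul_le_mul_of_nonneg_left hkε k0]

end Pool.Agent.MP_2634a8_co.H32

end
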